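import Pool.Agent.BGL.Targets

set_option autoImplicit false

/-! MP_fff3e1_lc: target ASG, assignments exist. -/

namespace Pool.Agent.BGL

open MeasureTheory Set Filter
open scoped ENNReal
open Pool.Agent.MEC

universe u

namespace ASG_

variable {V : Type u} [MeasurableSpace V] {G : SimpleGraph V} {Δ : ℕ} {g : Gen G Δ} {q : ℕ}

/-- the empty assignment -/
def zero (P : APB g q) : Asg P where
  a := fun _ => 0
  meas := measurable_const
  mem := fun x i h => absurd h (by simp)
  load := fun y => by
    have : {i : ℕ | (0 : ℕ) = i + 1} = ∅ := by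
      ext i
      simp
    rw [this]
    simp

/-- the distance of two assignments -/
noncomputable def dd (ν : Measure V) {P : APB g q} (c c' : Asg P) : ℝ :=
  ν.real {x | c.a x ≠ c'.a x}

lemma dd_self (ν : Measure V) {P : APB g q} (c : Asg P) : dd ν c c = 0 := by
  unfold dd
  simp

lemma dd_comm (ν : Measure V) {P : APB g q} (c c' : Asg P) : dd ν c c' = dd ν c' c := by
  unfold dd
  congr 1
  ext x
  exact ne_comm

lemma dd_tri (ν : Measure V) [IsFiniteMeasure ν] {P : APB g q} (c c' c'' : Asg P) :
    dd ν c c'' ≤ dd ν c c' + dd ν c' c'' := by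
  unfold dd
  have h : {x | c.a x ≠ c''.a x} ⊆ {x | c.a x ≠ c'.a x} ∪ {x | c'.a x ≠ c''.a x} := by
    intro x hx
    by_cases h1 : c.a x = c'.a x
    · right
      intro h2
      exact hx (h1.trans h2)
    · left
      exact h1
  exact (measureReal_mono h).trans (measureReal_union_le _ _)

lemma una_le (ν : Measure V) [IsFiniteMeasure ν] {P : APB g q} (c c' : Asg P) :
    ν.real (Una c) ≤ ν.real (Una c') + dd ν c c' := by
  unfold dd
  have h : Una c ⊆ Una c' ∪ {x | c.a x ≠ c'.a x} := by
    intro x hx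
    by_cases h1 : c.a x = c'.a x
    · left
      exact ⟨hx.1, h1 ▸ hx.2⟩
    · right
      exact h1
  exact (measureReal_mono h).trans (measureReal_union_le _ _)

end ASG_

open ASG_ in
/-- D3 assignments exist -/
theorem pASG (h1 : tPOT.{u}) (h2 : tEKA.{u}) (h3 : tLIM.{u}) : tASG.{u} := by
  intro V _ _ G Δ g q P ν _ C hq hQ hC
  obtain ⟨p, c1, hp, hc0, _, H⟩ := h1 q C hq hC
  have key := h2 (Asg P) (fun c => ν.real (Una c)) (fun c c' => dd ν c c') ⟨zero P⟩
    (fun c => measureReal_nonneg) (fun c c' => measureReal_nonneg) (fun c => dd_self ν c)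
    (fun c c' => dd_comm ν c c') (fun c c' c'' => dd_tri ν c c' c'')
    (fun c c' => una_le ν c c')
    (fun c hc => by
      obtain ⟨l, hl⟩ := h3 V G Δ g q P ν c hc
      exact ⟨l, hl⟩)
    (ν.real univ / c1 ^ p) p c1 (div_nonneg measureReal_nonneg (Real.rpow_nonneg hc0.le _)) hp hc0
    (fun lam hlam hlc c hopt => by
      have h := H V G Δ g P c ν lam hQ hlam hlc hopt
      calc ν.real (Una c) ≤ (lam / c1) ^ p * ν.real univ := h
        _ = ν.real univ / c1 ^ p * lam ^ p := by
          rw [Real.div_rpow hlam.le hc0.le]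
          ring)
  obtain ⟨c, hc⟩ := key
  refine ⟨c, ?_⟩
  have hc' : ν.real (Una c) = 0 := hc
  exact (measureReal_eq_zero_iff (measure_ne_top ν _)).1 hc'

end Pool.Agent.BGL
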