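import Pool.Agent.BGL.Targets

set_option autoImplicit false

/-! Change of variables. -/

namespace Pool.Agent.BGL

open MeasureTheory Set Filter
open scoped ENNReal
open Pool.Agent.MEC

universe u

theorem pCHV : tCHV.{u} := by
  intro V _ ν _ φ c f B hφ hf hB
  have hfm : Measurable (fun x => f (φ x)) := hf.comp φ.measurable
  have hfin : IsFiniteMeasure (ν.map φ.symm) := by infer_instance
  have h1 : ν.withDensity (dens ν φ) = ν.map φ.symm :=
    Measure.withDensity_rnDeriv_eq _ _ hφ.ac
  have h2 : ∫⁻ x in B, dens ν φ x * f (φ x) ∂ν = ∫⁻ x in B, f (φ x) ∂(ν.map φ.symm) := by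
    rw [← h1, setLIntegral_withDensity_eq_setLIntegral_mul ν (measurable_dens ν φ)
      hfm hB]
    rfl
  rw [h2, setLIntegral_map hB hfm φ.symm.measurable]
  have h3 : φ.symm ⁻¹' B = φ '' B := (φ.toEquiv.image_eq_preimage_symm B).symm
  rw [h3]
  refine lintegral_congr fun x => ?_
  simp

end Pool.Agent.BGL
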