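import Pool.Agent.BGL.Targets

set_option autoImplicit false

/-! MP_fff3e1_lc: columns. -/

namespace Pool.Agent.BGL

open MeasureTheory Set Filter
open scoped ENNReal
open Pool.Agent.MEC

universe u

namespace COL_

variable {V : Type u} [MeasurableSpace V] {G : SimpleGraph V} {Δ : ℕ}

theorem finite_of_card (g : Gen G Δ) (y : V) : {i | g.T i y ≠ y}.Finite := by
  by_contra hinf
  obtain ⟨s, hs1, hs2⟩ := (show {i | g.T i y ≠ y}.Infinite from hinf).exists_subset_card_eq (Δ + 1)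
  have := g.card y s fun i hi => hs1 hi
  omega

variable {g : Gen G Δ} {q : ℕ} {P : APB g q}

theorem tsum_ind {S : Set ℕ} (hS : S.Finite) :
    ∑' i, S.indicator (fun _ => (1 : ℝ≥0∞)) i = (S.ncard : ℝ≥0∞) := by
  classical
  rw [tsum_eq_sum (s := hS.toFinset) fun i hi => indicator_of_notMem (by simpa using hi) _]
  have e : ∑ i ∈ hS.toFinset, S.indicator (fun _ => (1 : ℝ≥0∞)) i =
      ∑ _i ∈ hS.toFinset, (1 : ℝ≥0∞) :=
    Finset.sum_congr rfl fun i hi => indicator_of_mem (by simpa using hi) _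
  rw [e, Finset.sum_const, nsmul_eq_mul, mul_one, Set.ncard_eq_toFinset_card S hS]

theorem count (c : Asg P) (y : V) :
    ∑' i, {i | g.T i y ∈ Ai c i}.indicator (fun _ => (1 : ℝ≥0∞)) i ≤
      ((q - 1 : ℕ) : ℝ≥0∞) * (P.cap y : ℝ≥0∞) := by
  have hS1 : {i | g.T i y ∈ P.R i}.Finite := by
    refine (finite_of_card g y).subset fun i hi => ?_
    have h1 := P.mov i (g.T i y) hi
    rw [g.invol] at h1
    exact h1.symm
  have hsub1 : {i | g.T i y ∈ Ai c i} ⊆ {i | g.T i y ∈ P.R i} := fun i hi => hi.1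
  rw [tsum_ind (hS1.subset hsub1)]
  by_cases hF : Full c y
  · have hsub2 : {i | c.a (g.T i y) = i + 1} ⊆ {i | g.T i y ∈ P.R i} := fun i hi => c.mem _ i hi
    have hsub3 : {i | g.T i y ∈ Ai c i} ⊆ {i | g.T i y ∈ P.R i} \ {i | c.a (g.T i y) = i + 1} :=
      fun i hi => ⟨hi.1, hi.2.1⟩
    have h1 := Set.ncard_le_ncard hsub3 (hS1.subset sdiff_subset)
    have h2 := Set.ncard_sdiff hsub2 (hS1.subset hsub2)
    have h3 := P.inn y
    have h4 : {i | c.a (g.T i y) = i + 1}.ncard = P.cap y := hF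
    have h5 : {i | g.T i y ∈ Ai c i}.ncard ≤ (q - 1) * P.cap y := by
      rw [h2, h4] at h1
      have h6 : (q - 1) * P.cap y = q * P.cap y - P.cap y := by
        rw [Nat.sub_mul, one_mul]
      omega
    exact_mod_cast h5
  · have h1 : {i | g.T i y ∈ Ai c i} = ∅ := by
      ext i
      simp only [mem_ofPred_eq, mem_empty_iff_false, iff_false]
      intro hi
      have h2 := hi.2.2
      rw [g.invol] at h2
      exact hF h2
    rw [h1]
    simp

theorem Te_apply (g : Gen G Δ) (i : ℕ) (x : V) : Te g i x = g.T i x := rfl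

theorem image_Te (g : Gen G Δ) (i : ℕ) (B : Set V) : Te g i '' B = {y | g.T i y ∈ B} := by
  ext y
  constructor
  · rintro ⟨x, hx, rfl⟩
    rw [mem_ofPred_eq, Te_apply, g.invol]
    exact hx
  · intro hy
    exact ⟨g.T i y, hy, by rw [Te_apply, g.invol]⟩

end COL_

open COL_ in
theorem pCOL (h1 : tCHV.{u}) (h2 : tMEA.{u}) (_h3 : tCNT.{u}) : tCOL.{u} := by
  intro V _ _ G Δ g q P c ν _ C h hQ hh _
  have hbdd : ∀ i, BddBy ν (Te g i) C := fun i => hQ.bddBy (g.T i) (g.meas i) (g.invol i) (g.adj i)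
  have mAi : ∀ i, MeasurableSet (Ai c i) := (h2 V G Δ g q P c ν 0).2.2.2.1
  have mrho : ∀ i, Measurable (rho ν g i) := fun i => measurable_dens _ _
  have mT : ∀ i, Measurable (g.T i) := g.meas
  have mcap : Measurable fun y => ((P.cap y : ℝ≥0∞))⁻¹ := by
    have : Measurable fun y => (P.cap y : ℝ≥0∞) :=
      (measurable_from_top (f := fun n : ℕ => (n : ℝ≥0∞))).comp P.mcap
    exact this.inv
  have mS : ∀ k, MeasurableSet {y | c.a (g.T k y) = k + 1} := fun k =>
    (c.meas.comp (mT k)) (measurableSet_singleton (k + 1))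
  have mSk : ∀ k, MeasurableSet {z | c.a z = k + 1} := fun k =>
    c.meas (measurableSet_singleton (k + 1))
  -- the function on the head
  set f : ℕ → V → ℝ≥0∞ := fun k y => (P.cap y : ℝ≥0∞)⁻¹ * (rho ν g k y * h (g.T k y)) with hf
  have mf : ∀ k, Measurable (f k) := fun k => mcap.mul ((mrho k).mul (hh.comp (mT k)))
  set B : ℕ → ℕ → Set V := fun i k => Ai c i ∩ {x | c.a (g.T k (g.T i x)) = k + 1} with hB
  have mB : ∀ i k, MeasurableSet (B i k) := fun i k =>
    (mAi i).inter ((mT i) (mS k))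
  have hFF : ∀ x, FF ν c h x = ∑' i, ∑' k, (B i k).indicator (fun x => rho ν g i x *
      f k (g.T i x)) x := by
    intro x
    unfold FF
    refine tsum_congr fun i => ?_
    by_cases hx : x ∈ Ai c i
    · rw [indicator_of_mem hx]
      refine tsum_congr fun k => ?_
      by_cases hk : c.a (g.T k (g.T i x)) = k + 1
      · rw [indicator_of_mem (show g.T i x ∈ {y | c.a (g.T k y) = k + 1} from hk),
          indicator_of_mem (show x ∈ B i k from ⟨hx, hk⟩)]
        simp only [hf]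
        ring
      · rw [indicator_of_notMem (show g.T i x ∉ {y | c.a (g.T k y) = k + 1} from hk),
          indicator_of_notMem (show x ∉ B i k from fun hn => hk hn.2)]
    · rw [indicator_of_notMem hx]
      symm
      rw [ENNReal.tsum_eq_zero]
      exact fun k => indicator_of_notMem (fun hn => hx hn.1) _
  have mterm : ∀ i k, Measurable ((B i k).indicator (fun x => rho ν g i x * f k (g.T i x))) :=
    fun i k => ((mrho i).mul ((mf k).comp (mT i))).indicator (mB i k)
  have e1 : ∫⁻ x, FF ν c h x ∂ν = ∑' i, ∑' k, ∫⁻ y in {y | g.T i y ∈ B i k}, f k y ∂ν := by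
    simp only [hFF]
    rw [lintegral_tsum fun i => (Measurable.tsum fun k => mterm i k).aemeasurable]
    refine tsum_congr fun i => ?_
    rw [lintegral_tsum fun k => (mterm i k).aemeasurable]
    refine tsum_congr fun k => ?_
    rw [lintegral_indicator (mB i k)]
    have := h1 V ν (Te g i) C (f k) (B i k) (hbdd i) (mf k) (mB i k)
    rw [image_Te] at this
    exact this
  have hBy : ∀ i k y, g.T i y ∈ B i k ↔ g.T i y ∈ Ai c i ∧ c.a (g.T k y) = k + 1 := by
    intro i k y
    simp only [hB, mem_inter_iff, mem_ofPred_eq, g.invol]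
  have e2 : ∀ i k, ∫⁻ y in {y | g.T i y ∈ B i k}, f k y ∂ν =
      ∫⁻ y in {y | c.a (g.T k y) = k + 1},
        {y | g.T i y ∈ Ai c i}.indicator (fun _ => (1 : ℝ≥0∞)) y * f k y ∂ν := by
    intro i k
    have e : {y | g.T i y ∈ B i k} = {y | g.T i y ∈ Ai c i} ∩ {y | c.a (g.T k y) = k + 1} := by
      ext y
      simp only [mem_ofPred_eq, mem_inter_iff, hBy]
    have mm : MeasurableSet {y | g.T i y ∈ Ai c i} := (mT i) (mAi i)
    rw [e, ← Measure.restrict_restrict mm, ← lintegral_indicator mm]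
    refine lintegral_congr fun y => ?_
    by_cases hy : y ∈ {y | g.T i y ∈ Ai c i}
    · rw [indicator_of_mem hy, indicator_of_mem hy, one_mul]
    · rw [indicator_of_notMem hy, indicator_of_notMem hy, zero_mul]
  have mind : ∀ i, Measurable fun y => {y | g.T i y ∈ Ai c i}.indicator (fun _ => (1 : ℝ≥0∞)) y :=
    fun i => measurable_const.indicator ((mT i) (mAi i))
  have e3 : ∫⁻ x, FF ν c h x ∂ν = ∑' k, ∫⁻ y in {y | c.a (g.T k y) = k + 1},
      (∑' i, {y | g.T i y ∈ Ai c i}.indicator (fun _ => (1 : ℝ≥0∞)) y) * f k y ∂ν := by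
    rw [e1]
    simp only [e2]
    rw [ENNReal.tsum_comm]
    refine tsum_congr fun k => ?_
    have h9 := lintegral_tsum (μ := ν.restrict {y | c.a (g.T k y) = k + 1})
      (f := fun i y => {y | g.T i y ∈ Ai c i}.indicator (fun _ => (1 : ℝ≥0∞)) y * f k y)
      fun i => ((mind i).mul (mf k)).aemeasurable
    rw [← h9]
    refine lintegral_congr fun y => ?_
    rw [ENNReal.tsum_mul_right]
  have e4 : ∀ k, ∫⁻ y in {y | c.a (g.T k y) = k + 1},
      (∑' i, {y | g.T i y ∈ Ai c i}.indicator (fun _ => (1 : ℝ≥0∞)) y) * f k y ∂ν ≤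
      ((q - 1 : ℕ) : ℝ≥0∞) * ∫⁻ z in {z | c.a z = k + 1}, h z ∂ν := by
    intro k
    have mg : Measurable fun y => rho ν g k y * h (g.T k y) := (mrho k).mul (hh.comp (mT k))
    calc ∫⁻ y in {y | c.a (g.T k y) = k + 1},
        (∑' i, {y | g.T i y ∈ Ai c i}.indicator (fun _ => (1 : ℝ≥0∞)) y) * f k y ∂ν
        ≤ ∫⁻ y in {y | c.a (g.T k y) = k + 1},
          ((q - 1 : ℕ) : ℝ≥0∞) * (rho ν g k y * h (g.T k y)) ∂ν := by
          refine lintegral_mono fun y => ?_
          have h5 := count c y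
          have h6 : ∑' i, {y | g.T i y ∈ Ai c i}.indicator (fun _ => (1 : ℝ≥0∞)) y =
              ∑' i, {i | g.T i y ∈ Ai c i}.indicator (fun _ => (1 : ℝ≥0∞)) i := rfl
          simp only [hf]
          rw [h6]
          calc (∑' i, {i | g.T i y ∈ Ai c i}.indicator (fun _ => (1 : ℝ≥0∞)) i) *
              ((P.cap y : ℝ≥0∞)⁻¹ * (rho ν g k y * h (g.T k y)))
              ≤ (((q - 1 : ℕ) : ℝ≥0∞) * (P.cap y : ℝ≥0∞)) *
              ((P.cap y : ℝ≥0∞)⁻¹ * (rho ν g k y * h (g.T k y))) := by gcongr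
            _ = ((q - 1 : ℕ) : ℝ≥0∞) * ((P.cap y : ℝ≥0∞) * (P.cap y : ℝ≥0∞)⁻¹) *
              (rho ν g k y * h (g.T k y)) := by ring
            _ ≤ ((q - 1 : ℕ) : ℝ≥0∞) * 1 * (rho ν g k y * h (g.T k y)) := by
              gcongr
              exact ENNReal.mul_inv_le_one _
            _ = _ := by rw [mul_one]
      _ = ((q - 1 : ℕ) : ℝ≥0∞) * ∫⁻ y in {y | c.a (g.T k y) = k + 1},
          rho ν g k y * h (g.T k y) ∂ν := lintegral_const_mul _ mg
      _ = _ := by
          have := h1 V ν (Te g k) C h {y | c.a (g.T k y) = k + 1} (hbdd k) hh (mS k)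
          rw [image_Te] at this
          congr 1
          refine Eq.trans this ?_
          congr 2
          ext z
          simp only [mem_ofPred_eq, g.invol]
  rw [e3]
  calc ∑' k, ∫⁻ y in {y | c.a (g.T k y) = k + 1},
      (∑' i, {y | g.T i y ∈ Ai c i}.indicator (fun _ => (1 : ℝ≥0∞)) y) * f k y ∂ν
      ≤ ∑' k, ((q - 1 : ℕ) : ℝ≥0∞) * ∫⁻ z in {z | c.a z = k + 1}, h z ∂ν :=
        ENNReal.tsum_le_tsum e4
    _ = ((q - 1 : ℕ) : ℝ≥0∞) * ∑' k : ℕ, ∫⁻ z in {z | c.a z = k + 1}, h z ∂ν :=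
        ENNReal.tsum_mul_left
    _ = ((q - 1 : ℕ) : ℝ≥0∞) * ∫⁻ z in ⋃ k : ℕ, {z | c.a z = k + 1}, h z ∂ν := by
        rw [lintegral_iUnion mSk]
        intro i j hij
        refine Set.disjoint_left.2 fun z hz hz' => hij ?_
        have h7 : c.a z = i + 1 := hz
        have h8 : c.a z = j + 1 := hz'
        omega
    _ ≤ _ := by
        gcongr
        exact iUnion_subset fun k z hz => by
          have h7 : c.a z = k + 1 := hz
          have h8 : c.a z ≠ 0 := by omega
          exact h8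

end Pool.Agent.BGL
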