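import Pool.Agent.BGL.Targets

set_option autoImplicit false

/-! The cost of a chain as a sum of measures. -/

namespace Pool.Agent.BGL

open MeasureTheory Set Filter
open scoped ENNReal
open Pool.Agent.MEC

universe u

namespace CST_

variable {V : Type u} [MeasurableSpace V] {G : SimpleGraph V} {Δ : ℕ}

lemma meas_wt (ν : Measure V) (g : Gen G Δ) (lam : ℝ≥0∞) (e : Option ℕ) :
    ∀ w : List (ℕ × ℕ), Measurable (wt ν g lam w e)
  | [] => by
    cases e with
    | none => exact measurable_const
    | some i => exact measurable_const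
  | p :: w => by
    have ih := meas_wt ν g lam e w
    have h1 : Measurable (fun x => rho ν g p.1 x * rho ν g p.2 (g.T p.1 x) *
        wt ν g lam w e (g.T p.2 (g.T p.1 x))) :=
      ((measurable_dens _ _).mul ((measurable_dens _ _).comp (g.meas _))).mul
        (ih.comp ((g.meas _).comp (g.meas _)))
    exact measurable_const.add h1

lemma pt_succ (g : Gen G Δ) (p : ℕ × ℕ) (w : List (ℕ × ℕ)) (m : ℕ) (B : Set V) :
    pt g (p :: w) (m + 1) '' B = pt g w m '' (Te g p.2 '' (Te g p.1 '' B)) := by
  rw [image_image, image_image]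
  rfl

lemma pt_zero (g : Gen G Δ) (w : List (ℕ × ℕ)) (B : Set V) : pt g w 0 '' B = B := by
  have h : pt g w 0 = MeasurableEquiv.refl V := by
    cases w with
    | nil => rfl
    | cons p w => rfl
  rw [h]
  exact image_id B

end CST_

open CST_ in
theorem pCST (h1 : tCHV.{u}) : tCST.{u} := by
  intro V _ _ G Δ g ν _ C lam w
  induction w with
  | nil =>
    intro e B _ hB
    cases e with
    | none =>
      have h : ∀ x, wt ν g lam [] none x = lam + 1 := fun x => rfl
      simp only [h, lintegral_const, Measure.restrict_apply_univ, List.length_nil, zero_add,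
        Finset.range_one, Finset.sum_singleton, pt_zero, if_true]
      ring
    | some i =>
      have h : ∀ x, wt ν g lam [] (some i) x = lam := fun x => rfl
      simp [h, pt_zero]
  | cons p v ih =>
    intro e B hq hB
    have hb : ∀ i, BddBy ν (Te g i) C := fun i =>
      hq.bddBy (g.T i) (g.meas i) (g.invol i) (g.adj i)
    have hB1 : MeasurableSet (Te g p.1 '' B) := (Te g p.1).measurableSet_image.2 hB
    have hB2 : MeasurableSet (Te g p.2 '' (Te g p.1 '' B)) := (Te g p.2).measurableSet_image.2 hB1
    have e1 := h1 V ν (Te g p.1) C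
      (fun y => rho ν g p.2 y * wt ν g lam v e (g.T p.2 y)) B (hb p.1)
      ((measurable_dens _ _).mul ((meas_wt ν g lam e v).comp (g.meas _))) hB
    have e2 := h1 V ν (Te g p.2) C (wt ν g lam v e) (Te g p.1 '' B) (hb p.2)
      (meas_wt ν g lam e v) hB1
    have e3 : ∫⁻ x in B, wt ν g lam (p :: v) e x ∂ν = lam * ν B +
        ∫⁻ x in Te g p.2 '' (Te g p.1 '' B), wt ν g lam v e x ∂ν := by
      rw [← e2]
      have e4 : ∫⁻ x in Te g p.1 '' B, dens ν (Te g p.2) x * wt ν g lam v e (Te g p.2 x) ∂ν =
          ∫⁻ x in B, rho ν g p.1 x * rho ν g p.2 (g.T p.1 x) *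
            wt ν g lam v e (g.T p.2 (g.T p.1 x)) ∂ν := by
        refine e1.symm.trans ?_
        refine lintegral_congr fun x => ?_
        rw [mul_assoc]
        rfl
      rw [e4]
      have e5 : ∀ x, wt ν g lam (p :: v) e x = lam + rho ν g p.1 x * rho ν g p.2 (g.T p.1 x) *
            wt ν g lam v e (g.T p.2 (g.T p.1 x)) := by
        intro x
        cases e with
        | none => rfl
        | some i => rfl
      simp only [e5]
      rw [lintegral_add_left measurable_const, lintegral_const, Measure.restrict_apply_univ]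
    have e6 : ∑ m ∈ Finset.range ((p :: v).length + 1), ν (pt g (p :: v) m '' B) =
        ∑ m ∈ Finset.range (v.length + 1), ν (pt g v m '' (Te g p.2 '' (Te g p.1 '' B))) +
          ν B := by
      rw [List.length_cons, Finset.sum_range_succ', pt_zero]
      simp only [pt_succ]
    have e7 : ν (pt g (p :: v) (p :: v).length '' B) =
        ν (pt g v v.length '' (Te g p.2 '' (Te g p.1 '' B))) := by
      rw [List.length_cons, pt_succ]
    rw [e3, ih e _ hq hB2, e6, e7, mul_add]
    ac_rfl

end Pool.Agent.BGL
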