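import Pool.Agent.BGL.Targets

set_option autoImplicit false

/-! MP_fff3e1_lc: degrees. -/

namespace Pool.Agent.BGL

open MeasureTheory Set Filter
open scoped ENNReal
open Pool.Agent.MEC

universe u

/-- A6 degrees -/
theorem pDEG : tDEG.{u} := by
  classical
  intro V _ G Δ g x
  set I : Set ℕ := {i | g.T i x ≠ x} with hI
  have hfin : I.Finite := by
    by_contra hinf
    obtain ⟨s, hs, hc⟩ := (show I.Infinite from hinf).exists_subset_card_eq (Δ + 1)
    have := g.card x s (fun i hi => hs hi)
    omega
  have hcard : I.ncard ≤ Δ := by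
    rw [Set.ncard_eq_toFinset_card I hfin]
    exact g.card x _ (fun i hi => (hfin.mem_toFinset.1 hi))
  refine ⟨hfin, hcard, ?_⟩
  have himg : (fun i => g.T i x) '' I = G.neighborSet x := by
    ext y
    rw [SimpleGraph.mem_neighborSet]
    constructor
    · rintro ⟨i, hi, rfl⟩
      exact g.adj i x hi
    · intro hy
      obtain ⟨i, hi⟩ := g.cover x y hy
      refine ⟨i, ?_, hi⟩
      change g.T i x ≠ x
      rw [hi]
      exact hy.ne.symm
  have hinj : Set.InjOn (fun i => g.T i x) I := fun i hi j _ hij => g.disj i j x hij hi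
  rw [← himg, hinj.encard_image, hfin.cast_ncard_eq]

end Pool.Agent.BGL
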