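import Pool.Agent.BGL.Targets

set_option autoImplicit false

open MeasureTheory Set Filter

namespace Pool.Agent.BGL

universe u

namespace EKA_

variable {X : Type u} {Φ : X → ℝ} {d : X → X → ℝ}

/-- The order used in Ekeland's principle. -/
def Below (Φ : X → ℝ) (d : X → X → ℝ) (lam : ℝ) (c c' : X) : Prop :=
  Φ c' + lam * d c c' ≤ Φ c

lemma exists_near_inf (hΦ : ∀ x, 0 ≤ Φ x) (hd : ∀ x, d x x = 0) (lam : ℝ) (c : X) (ε : ℝ)
    (hε : 0 < ε) :
    ∃ c', Below Φ d lam c c' ∧ ∀ c'', Below Φ d lam c c'' → Φ c' ≤ Φ c'' + ε := by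
  set I := sInf (Φ '' {c' | Below Φ d lam c c'}) with hI
  have hne : (Φ '' {c' | Below Φ d lam c c'}).Nonempty :=
    ⟨_, c, by simp [Below, hd], rfl⟩
  have hbdd : BddBelow (Φ '' {c' | Below Φ d lam c c'}) := by
    refine ⟨0, ?_⟩
    rintro _ ⟨c', -, rfl⟩
    exact hΦ c'
  obtain ⟨_, ⟨c', hc', rfl⟩, hlt⟩ := exists_lt_of_csInf_lt hne (show I < I + ε by linarith)
  refine ⟨c', hc', fun c'' h'' => ?_⟩
  have : I ≤ Φ c'' := csInf_le hbdd ⟨c'', h'', rfl⟩
  linarith

lemma exists_opt (hΦ : ∀ x, 0 ≤ Φ x) (h0 : ∀ x y, 0 ≤ d x y) (hd : ∀ x, d x x = 0)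
    (hsy : ∀ x y, d x y = d y x) (htr : ∀ x y z, d x z ≤ d x y + d y z)
    (hL : ∀ x y, Φ x ≤ Φ y + d x y)
    (hc : ∀ c : ℕ → X, Summable (fun n => d (c n) (c (n + 1))) →
      ∃ l, ∀ n, d (c n) l ≤ ∑' m, d (c (n + m)) (c (n + m + 1)))
    (lam : ℝ) (hl : 0 < lam) (c₀ : X) :
    ∃ c, (∀ y, Φ c ≤ Φ y + lam * d c y) ∧ Φ c + lam * d c₀ c ≤ Φ c₀ := by
  choose next hn1 hn2 using fun (n : ℕ) (c : X) =>
    exists_near_inf (Φ := Φ) (d := d) hΦ hd lam c ((1/2 : ℝ)^n) (by positivity)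
  let c : ℕ → X := fun n => Nat.rec c₀ (fun n c => next n c) n
  have hc0 : c 0 = c₀ := rfl
  have hcs : ∀ n, c (n+1) = next n (c n) := fun n => rfl
  have hstep : ∀ n, Below Φ d lam (c n) (c (n+1)) := fun n => by rw [hcs]; exact hn1 n (c n)
  have hstep' : ∀ n, lam * d (c n) (c (n+1)) ≤ Φ (c n) - Φ (c (n+1)) := by
    intro n; have := hstep n; unfold Below at this; linarith
  have hpart : ∀ n M, lam * ∑ m ∈ Finset.range M, d (c (n+m)) (c (n+m+1)) ≤
      Φ (c n) - Φ (c (n+M)) := by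
    intro n M
    induction M with
    | zero => simp
    | succ M ih =>
      rw [Finset.sum_range_succ, mul_add]
      have := hstep' (n+M)
      have e : c (n + M + 1) = c (n + (M + 1)) := rfl
      rw [e] at this ⊢
      linarith
  have hsum : Summable fun n => d (c n) (c (n+1)) := by
    refine summable_of_sum_range_le (c := Φ (c 0) / lam) (fun n => h0 _ _) ?_
    intro M
    rw [le_div_iff₀ hl]
    have := hpart 0 M
    simp only [zero_add] at this
    have h0 := hΦ (c M)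
    linarith
  obtain ⟨l, hdist⟩ := hc c hsum
  have hanti : Antitone fun n => Φ (c n) := by
    refine antitone_nat_of_succ_le fun n => ?_
    have := hstep' n
    have h0 := h0 (c n) (c (n+1))
    nlinarith
  have hbb : BddBelow (range fun n => Φ (c n)) := ⟨0, by rintro _ ⟨n, rfl⟩; exact hΦ _⟩
  have hlimPhi := tendsto_atTop_ciInf hanti hbb
  set ℓ := ⨅ n, Φ (c n) with hℓ
  have hs' : ∀ n, Summable fun m => d (c (n+m)) (c (n+m+1)) := by
    intro n
    have := (summable_nat_add_iff n).2 hsum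
    refine this.congr fun m => ?_
    simp [add_comm]
  have htail : ∀ n, lam * ∑' m, d (c (n+m)) (c (n+m+1)) ≤ Φ (c n) - ℓ := by
    intro n
    have h1 : Tendsto (fun M => lam * ∑ m ∈ Finset.range M, d (c (n+m)) (c (n+m+1))) atTop
        (nhds (lam * ∑' m, d (c (n+m)) (c (n+m+1)))) :=
      ((hs' n).hasSum.tendsto_sum_nat).const_mul lam
    refine le_of_tendsto h1 (Eventually.of_forall fun M => ?_)
    refine (hpart n M).trans ?_
    have : ℓ ≤ Φ (c (n+M)) := ciInf_le hbb (n+M)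
    linarith
  have hlamdist : ∀ n, lam * d (c n) l ≤ Φ (c n) - ℓ := fun n =>
    (mul_le_mul_of_nonneg_left (hdist n) hl.le).trans (htail n)
  have hPhid : Φ l ≤ ℓ := by
    have h1 : ∀ n, Φ l ≤ Φ (c n) + (Φ (c n) - ℓ) / lam := by
      intro n
      have := hL l (c n)
      rw [hsy] at this
      have h2 : d (c n) l ≤ (Φ (c n) - ℓ) / lam := by
        rw [le_div_iff₀ hl]; linarith [hlamdist n]
      linarith
    have h2 : Tendsto (fun n => Φ (c n) + (Φ (c n) - ℓ) / lam) atTop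
        (nhds (ℓ + (ℓ - ℓ) / lam)) :=
      hlimPhi.add ((hlimPhi.sub_const ℓ).div_const lam)
    have := ge_of_tendsto' h2 h1
    simpa using this
  have hbelow : ∀ n, Below Φ d lam (c n) l := by
    intro n
    unfold Below
    have := hlamdist n
    linarith
  refine ⟨l, ?_, ?_⟩
  · intro c'
    by_contra hcon
    push Not at hcon
    have hB : Φ c' + lam * d l c' ≤ Φ l := hcon.le
    have h1 : ∀ n, ℓ ≤ Φ c' + (1/2 : ℝ)^n := by
      intro n
      have hb : Below Φ d lam (c n) c' := by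
        have h5 := hbelow n
        unfold Below at h5 ⊢
        have h6 := htr (c n) l c'
        nlinarith
      have h3 := hn2 n (c n) c' hb
      have h4 : ℓ ≤ Φ (c (n+1)) := ciInf_le hbb (n+1)
      rw [hcs] at h4
      linarith
    have h2 : Tendsto (fun n : ℕ => Φ c' + (1/2 : ℝ)^n) atTop (nhds (Φ c' + 0)) :=
      tendsto_const_nhds.add (tendsto_pow_atTop_nhds_zero_of_lt_one (by norm_num) (by norm_num))
    have h3 := ge_of_tendsto' h2 h1
    have h0 := h0 l c'
    nlinarith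
  · exact hbelow 0

end EKA_

open EKA_

theorem pEKA : tEKA.{u} := by
  intro X Φ d hX hΦ h0 hd hsy htr hL hc K p c1 hK hp hc1 hopt
  obtain ⟨a⟩ := hX
  choose nx hx1 hx2 using fun (lam : ℝ) (h : 0 < lam) (x : X) =>
    exists_opt hΦ h0 hd hsy htr hL hc lam h x
  set lm : ℕ → ℝ := fun n => c1 * (1/2 : ℝ)^n with hlm
  have hlp : ∀ n, 0 < lm n := fun n => by positivity
  have hlc : ∀ n, lm n ≤ c1 := fun n => by
    have : (1/2 : ℝ)^n ≤ 1 := pow_le_one₀ (by norm_num) (by norm_num)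
    calc lm n = c1 * (1/2 : ℝ)^n := rfl
      _ ≤ c1 * 1 := mul_le_mul_of_nonneg_left this hc1.le
      _ = c1 := mul_one _
  let x : ℕ → X := fun n => Nat.rec (nx (lm 0) (hlp 0) a) (fun n c => nx (lm (n+1)) (hlp (n+1)) c) n
  have hxs : ∀ n, x (n+1) = nx (lm (n+1)) (hlp (n+1)) (x n) := fun n => rfl
  have hxo : ∀ n, ∀ y, Φ (x n) ≤ Φ y + lm n * d (x n) y := by
    intro n
    cases n with
    | zero => exact hx1 (lm 0) (hlp 0) a
    | succ n => rw [hxs]; exact hx1 (lm (n+1)) (hlp (n+1)) (x n)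
  have hxK : ∀ n, Φ (x n) ≤ K * lm n ^ p := fun n => hopt (lm n) (hlp n) (hlc n) (x n) (hxo n)
  have hxd : ∀ n, lm (n+1) * d (x n) (x (n+1)) ≤ Φ (x n) := by
    intro n
    have h := hx2 (lm (n+1)) (hlp (n+1)) (x n)
    rw [← hxs] at h
    have h2 := hΦ (x (n+1))
    linarith
  have hpp : ∀ n, lm n ^ p = lm n ^ (p-1) * lm n := by
    intro n
    rw [← Real.rpow_add_one (hlp n).ne']
    ring_nf
  have hdd : ∀ n, d (x n) (x (n+1)) ≤ (2 * K) * lm n ^ (p - 1) := by
    intro n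
    have h1 := (hxd n).trans (hxK n)
    have h2 : lm (n+1) = lm n / 2 := by simp only [hlm]; ring
    rw [h2, hpp] at h1
    have h3 := hlp n
    have h4 : lm n * (d (x n) (x (n+1))) ≤ lm n * ((2 * K) * lm n ^ (p - 1)) := by
      nlinarith
    exact le_of_mul_le_mul_left h4 h3
  have hgeo : ∀ n, lm n ^ (p-1) = c1 ^ (p-1) * (((1/2 : ℝ))^(p-1)) ^ n := by
    intro n
    simp only [hlm]
    rw [Real.mul_rpow hc1.le (by positivity), ← Real.rpow_natCast, ← Real.rpow_natCast,
      ← Real.rpow_mul (by norm_num), ← Real.rpow_mul (by norm_num), mul_comm (n : ℝ)]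
  have hr1 : ((1/2 : ℝ))^(p-1) < 1 := Real.rpow_lt_one (by norm_num) (by norm_num) (by linarith)
  have hr0 : 0 ≤ ((1/2 : ℝ))^(p-1) := by positivity
  have hS : Summable (fun n => (2 * K) * lm n ^ (p - 1)) := by
    have : Summable (fun n : ℕ => (2 * K * c1 ^ (p-1)) * (((1/2 : ℝ))^(p-1)) ^ n) :=
      (summable_geometric_of_lt_one hr0 hr1).mul_left _
    refine this.congr fun n => ?_
    rw [hgeo]; ring
  have hsum : Summable (fun n => d (x n) (x (n + 1))) :=
    Summable.of_nonneg_of_le (fun n => h0 _ _) hdd hS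
  obtain ⟨l, hl⟩ := hc x hsum
  have ht0 : Tendsto (fun n => ∑' m, d (x (n + m)) (x (n + m + 1))) atTop (nhds 0) := by
    have h := tendsto_sum_nat_add (fun n => d (x n) (x (n+1)))
    refine h.congr fun n => ?_
    refine tsum_congr fun m => ?_
    rw [add_comm m n]
  have hP0 : Tendsto (fun n => K * lm n ^ p) atTop (nhds 0) := by
    have h1 : Tendsto (fun n => lm n) atTop (nhds 0) := by
      have := (tendsto_pow_atTop_nhds_zero_of_lt_one (r := (1/2 : ℝ)) (by norm_num)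
        (by norm_num)).const_mul c1
      simpa [hlm] using this
    have h2 : Tendsto (fun n => lm n ^ p) atTop (nhds (0 ^ p)) :=
      h1.rpow_const (Or.inr (by linarith))
    rw [Real.zero_rpow (by linarith)] at h2
    simpa using h2.const_mul K
  refine ⟨l, le_antisymm ?_ (hΦ l)⟩
  have hle : ∀ n, Φ l ≤ K * lm n ^ p + ∑' m, d (x (n + m)) (x (n + m + 1)) := by
    intro n
    have h1 := hL l (x n)
    rw [hsy] at h1
    exact h1.trans (add_le_add (hxK n) (hl n))
  have := ge_of_tendsto' (hP0.add ht0) hle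
  simpa using this

end Pool.Agent.BGL
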