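import Pool.Agent.BGL.Targets

set_option autoImplicit false

/-! BGL-FIN: the final colouring. -/

namespace Pool.Agent.BGL

open MeasureTheory Set Filter
open scoped ENNReal
open Pool.Agent.MEC

universe u

namespace FIN_

variable {V : Type u} [MeasurableSpace V] {G : SimpleGraph V} {Δ : ℕ}

/-- the involutions preserve the class of null sets -/
lemma quasi (g : Gen G Δ) {ν : Measure V} {C : ℝ≥0∞} (hQ : QInv G ν C) (i : ℕ) :
    Measure.QuasiMeasurePreserving (g.T i) ν ν := by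
  refine ⟨g.meas i, Measure.AbsolutelyContinuous.mk fun s hs h0 => ?_⟩
  rw [Measure.map_apply (g.meas i) hs]
  have h := hQ (g.T i) (g.meas i) (g.invol i) (g.adj i) s hs
  rw [h0, mul_zero] at h
  exact nonpos_iff_eq_zero.1 h

lemma CC_ne_top (Δ : ℕ) : Gen.CC Δ ≠ ⊤ := by
  unfold Gen.CC
  have h : ((2 : ℝ≥0∞) * (Δ + 1) + 1) = ((2 * (Δ + 1) + 1 : ℕ) : ℝ≥0∞) := by
    push_cast
    rfl
  rw [h]
  exact ENNReal.natCast_ne_top _

end FIN_

open FIN_ in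
/-- F5 -/
theorem pFIN (h1 : tRNK.{u}) (h2 : tGAL.{u}) (h3 : tPCO.{u}) (h4 : tGRD.{u}) (h5 : tDEG.{u}) :
    tFIN.{u} := by
  intro V _ _ G Δ U μ _ hE hdeg hU hind hUdeg hsum
  obtain ⟨g⟩ := exists_gen hE hdeg
  obtain ⟨ν, hν⟩ : ∃ ν : Measure V, ν = g.nu μ := ⟨_, rfl⟩
  have hfin : IsFiniteMeasure ν := ⟨by rw [hν]; exact g.nu_univ_lt_top μ⟩
  have hQ : QInv G ν (Gen.CC Δ) := by rw [hν]; exact g.qinv_nu μ
  have hOK : OK g U := by
    refine ⟨hU, hind, fun y hy => ?_⟩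
    have e1 := (h5 V G Δ g y).2.2
    have e2 := hUdeg y hy
    rw [e1] at e2
    exact_mod_cast e2
  obtain ⟨r, hr1, hr2, hr3⟩ := h1 V G Δ g ν (Gen.CC Δ) U hQ (CC_ne_top Δ) hOK
  have hHm : ∀ i, MeasurableSet (HH g U i) := fun i =>
    hU.inter (measurableSet_eq_fun (g.meas i) measurable_id).compl
  obtain ⟨m, hm1, hm2, hm3, hm4, hm5⟩ := h2 V G Δ g (HH g U) r hHm (fun i x hx => hx.2) hr1
  obtain ⟨c0, hc0⟩ := h3 V G Δ g U m hOK hm1 hm2 hm3 hm4
  obtain ⟨c, hc1, hc2⟩ := h4 V G Δ g Uᶜ hU.compl (by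
    intro x hx y hy hxy
    have e := hsum x hx y hy hxy
    rw [(h5 V G Δ g x).2.2, (h5 V G Δ g y).2.2] at e
    exact_mod_cast e) c0
  refine ⟨c, ?_⟩
  have hae : ∀ᵐ x ∂ν, ∀ i, ∀ j, g.T i x ∈ HH g U j →
      {k | g.T i x ∈ HH g U k ∧ bt r (g.T i x) k j}.ncard ≤ r j (g.T i x) :=
    ae_all_iff.2 fun i => (quasi g hQ i).ae hr2
  have hmain : ∀ᵐ x ∂ν, ∀ y, G.Adj x y → ∃ k, c.S k x = y := by
    filter_upwards [hr2, hae] with x hx1 hx2 y hxy
    have hne : y ≠ x := hxy.ne.symm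
    obtain ⟨i, hi⟩ := g.cover x y hxy
    have key : ∀ z w, g.T i z = w → w ≠ z → z ∈ U →
        (∀ j, z ∈ HH g U j → {k | z ∈ HH g U k ∧ bt r z k j}.ncard ≤ r j z) →
        ∃ k : Fin Δ, c0.S k z = w := by
      intro z w hzw hwz hz ht
      have hzH : z ∈ HH g U i := ⟨hz, by rw [hzw]; exact hwz⟩
      obtain ⟨t, htΔ, hmt⟩ := hm5 z i hzH (by
        have a1 := ht i hzH
        have a2 := hr3 z i hzH
        omega)
      exact ⟨⟨t, htΔ⟩, by rw [← hzw]; exact hc0 ⟨t, htΔ⟩ z i hmt⟩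
    by_cases hxU : x ∈ U
    · obtain ⟨k, hk⟩ := key x y hi hne hxU hx1
      exact ⟨k, by rw [hc1 k x (by rw [hk]; exact hne), hk]⟩
    · by_cases hyU : y ∈ U
      · have hyx : g.T i y = x := by rw [← hi, g.invol]
        have ht : ∀ j, y ∈ HH g U j → {k | y ∈ HH g U k ∧ bt r y k j}.ncard ≤ r j y := by
          have := hx2 i
          rw [hi] at this
          exact this
        obtain ⟨k, hk⟩ := key y x hyx hne.symm hyU ht
        have hk2 : c0.S k x = y := by rw [← hk, c0.invol]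
        exact ⟨k, by rw [hc1 k x (by rw [hk2]; exact hne), hk2]⟩
      · exact hc2 x hxU y hyU hxy
  rw [hν] at hmain
  exact (Measure.absolutelyContinuous_of_le (g.le_nu μ)).ae_le hmain

end Pool.Agent.BGL
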