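import Pool.Agent.BGL.Targets

set_option autoImplicit false

/-!
# BGL-GAL: `Δ` rounds of stable matchings
-/

namespace Pool.Agent.BGL

open MeasureTheory Set Filter
open scoped ENNReal
open Pool.Agent.MEC

universe u

namespace GAL_

variable {V : Type u} [MeasurableSpace V] {G : SimpleGraph V} {Δ : ℕ}

/-- the states of the construction -/
def St (H : ℕ → Set V) : Type u :=
  {L : ℕ → Set V // (∀ i, MeasurableSet (L i)) ∧ ∀ i, L i ⊆ H i}

end GAL_

open GAL_ in
theorem pGAL (h1 : tSTM.{u}) (h2 : tDEG.{u}) : tGAL.{u} := by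
  intro V _ _ G Δ g H r hH hHm hr
  have hM : ∀ L : St H, ∃ m : V → ℕ, Stb g L.1 r m := fun L =>
    h1 V G Δ g L.1 r L.2.1 (fun i x hx => hHm i x (L.2.2 i hx)) hr
  choose M hMs using hM
  let nx : St H → St H := fun L => ⟨fun i => L.1 i \ {x | M L x = i + 1},
    fun i => (L.2.1 i).diff ((hMs L).meas (measurableSet_singleton (i + 1))),
    fun i => sdiff_subset.trans (L.2.2 i)⟩
  let S : ℕ → St H := fun t => Nat.rec ⟨H, hH, fun _ => subset_rfl⟩ (fun _ L => nx L) t
  have hS0 : (S 0).1 = H := rfl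
  have hS1 : ∀ t i, (S (t + 1)).1 i = (S t).1 i \ {x | M (S t) x = i + 1} := fun _ _ => rfl
  have hSa : ∀ (t t' i : ℕ), t ≤ t' → (S t').1 i ⊆ (S t).1 i := by
    intro t t' i h
    induction t', h using Nat.le_induction with
    | base => exact subset_rfl
    | succ n _ ih =>
      rw [hS1]
      exact sdiff_subset.trans ih
  have hdist : ∀ t t' x i, t < t' → M (S t) x = i + 1 → M (S t') x = i + 1 → False := by
    intro t t' x i h e1 e2
    have h3 := (hMs (S t')).mem x i e2
    have h4 := hSa (t + 1) t' i h h3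
    rw [hS1] at h4
    exact h4.2 e1
  have hd : ∀ t t' x i, M (S t) x = i + 1 → M (S t') x = i + 1 → t = t' := by
    intro t t' x i e1 e2
    rcases lt_trichotomy t t' with h | h | h
    · exact (hdist t t' x i h e1 e2).elim
    · exact h
    · exact (hdist t' t x i h e2 e1).elim
  refine ⟨fun t => M (S t), fun t => (hMs (S t)).meas,
    fun t x i h => (S t).2.2 i ((hMs (S t)).mem x i h),
    fun t y i k e1 e2 => (hMs (S t)).inj y i k e1 e2, hd, ?_⟩
  intro x i hx hlt
  by_contra hno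
  push Not at hno
  set y := g.T i x with hy
  set K1 : Set ℕ := {k | x ∈ H k ∧ bt r x k i} with hK1
  set K2 : Set ℕ := {k | g.T k y ∈ H k ∧ bh g r y k i} with hK2
  have hf1 : K1.Finite := (h2 V G Δ g x).1.subset fun k hk => hHm k x hk.1
  have hf2 : K2.Finite := by
    refine (h2 V G Δ g y).1.subset fun k hk => ?_
    have h3 := hHm k _ hk.1
    rw [g.invol k y] at h3
    exact h3.symm
  have hin : ∀ t ≤ Δ, x ∈ (S t).1 i := by
    intro t
    induction t with
    | zero =>
      intro _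
      rw [hS0]
      exact hx
    | succ t ih =>
      intro ht
      rw [hS1]
      exact ⟨ih (by omega), hno t (by omega)⟩
  have hor : ∀ t < Δ, (∃ k ∈ K1, M (S t) x = k + 1) ∨ ∃ k ∈ K2, M (S t) (g.T k y) = k + 1 := by
    intro t ht
    rcases (hMs (S t)).stable x i (hin t ht.le) with ⟨k, e1, e2⟩ | ⟨k, e1, e2⟩
    · left
      rcases e2 with rfl | e2
      · exact (hno t ht e1).elim
      · exact ⟨k, ⟨(S t).2.2 k ((hMs (S t)).mem x k e1), e2⟩, e1⟩
    · right
      exact ⟨k, ⟨(S t).2.2 k ((hMs (S t)).mem _ k e1), e2⟩, e1⟩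
  classical
  set A1 : Set ℕ := {t | t < Δ ∧ ∃ k ∈ K1, M (S t) x = k + 1} with hA1
  set A2 : Set ℕ := {t | t < Δ ∧ ∃ k ∈ K2, M (S t) (g.T k y) = k + 1} with hA2
  have hc1 : A1.ncard ≤ K1.ncard := by
    refine Set.ncard_le_ncard_of_injOn (fun t => M (S t) x - 1) ?_ ?_ hf1
    · rintro t ⟨_, k, hk, e⟩
      show M (S t) x - 1 ∈ K1
      rw [e]
      exact hk
    · rintro t ⟨_, k, _, e⟩ t' ⟨_, k', _, e'⟩ h
      have h3 : M (S t) x - 1 = M (S t') x - 1 := h
      rw [e, e'] at h3
      have h4 : k = k' := h3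
      rw [← h4] at e'
      exact hd t t' x k e e'
  have hc2 : A2.ncard ≤ K2.ncard := by
    have hch : ∀ t, ∃ k, t ∈ A2 → k ∈ K2 ∧ M (S t) (g.T k y) = k + 1 := by
      intro t
      by_cases h : t ∈ A2
      · obtain ⟨_, k, hk, e⟩ := h
        exact ⟨k, fun _ => ⟨hk, e⟩⟩
      · exact ⟨0, fun h' => (h h').elim⟩
    choose kk hkk using hch
    refine Set.ncard_le_ncard_of_injOn kk (fun t ht => (hkk t ht).1) ?_ hf2
    intro t ht t' ht' h
    have e1 := (hkk t ht).2
    have e2 := (hkk t' ht').2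
    rw [← h] at e2
    exact hd t t' _ _ e1 e2
  have hcov : Set.Iio Δ ⊆ A1 ∪ A2 := by
    intro t ht
    rcases hor t ht with h | h
    · exact Or.inl ⟨ht, h⟩
    · exact Or.inr ⟨ht, h⟩
  have hfA : (A1 ∪ A2).Finite := by
    refine (Set.finite_Iio Δ).subset ?_
    rintro t (h | h)
    · exact h.1
    · exact h.1
  have hcard : (Set.Iio Δ).ncard = Δ := by
    have h : (Set.Iio Δ) = ((Finset.range Δ : Finset ℕ) : Set ℕ) := by
      ext t
      simp
    rw [h, Set.ncard_coe_finset, Finset.card_range]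
  have h5 := Set.ncard_le_ncard hcov hfA
  have h6 := Set.ncard_union_le A1 A2
  rw [hcard] at h5
  omega

end Pool.Agent.BGL
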