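import Pool.Agent.BGL.Targets

set_option autoImplicit false

/-! Greedy extension of a colouring to the edges inside `W`. -/

namespace Pool.Agent.BGL

open MeasureTheory Set Filter
open scoped ENNReal
open Pool.Agent.MEC

universe u

namespace GRD_

variable {V : Type u} [MeasurableSpace V] {G : SimpleGraph V} {Δ : ℕ}

/-- the pieces where the edge number `n` gets the colour `k` -/
def Bs (g : Gen G Δ) (W : Set V) (c : PCol G Δ) (n : ℕ) (k : Fin Δ) : Set V :=
  {x | x ∈ W ∧ g.T n x ∈ W ∧ g.T n x ≠ x ∧ (∀ k', c.S k' x ≠ g.T n x) ∧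
    (c.S k x = x ∧ c.S k (g.T n x) = g.T n x) ∧
    ∀ k', k' < k → ¬ (c.S k' x = x ∧ c.S k' (g.T n x) = g.T n x)}

lemma Bs_inv (g : Gen G Δ) (W : Set V) (c : PCol G Δ) (n : ℕ) (k : Fin Δ) {x : V}
    (hx : x ∈ Bs g W c n k) : g.T n x ∈ Bs g W c n k := by
  obtain ⟨h1, h2, h3, h4, h5, h6⟩ := hx
  refine ⟨h2, ?_, ?_, ?_, ?_, ?_⟩
  · rw [g.invol]; exact h1
  · rw [g.invol]; exact fun h => h3 h.symm
  · intro k' hk'
    rw [g.invol] at hk'
    apply h4 k'
    have := c.invol k' (g.T n x)
    rw [hk'] at this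
    exact this
  · rw [g.invol]; exact ⟨h5.2, h5.1⟩
  · intro k' hk'
    rw [g.invol]
    exact fun h => h6 k' hk' ⟨h.2, h.1⟩

lemma meas_Bs [StandardBorelSpace V] (g : Gen G Δ) {W : Set V} (hW : MeasurableSet W)
    (c : PCol G Δ) (n : ℕ) (k : Fin Δ) : MeasurableSet (Bs g W c n k) := by
  have hm : ∀ k', Measurable fun x => c.S k' (g.T n x) := fun k' => (c.meas k').comp (g.meas n)
  have e : Bs g W c n k = W ∩ (g.T n ⁻¹' W ∩ ({x | g.T n x = x}ᶜ ∩
      ((⋂ k', {x | c.S k' x = g.T n x}ᶜ) ∩ (({x | c.S k x = x} ∩ {x | c.S k (g.T n x) = g.T n x}) ∩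
      ⋂ k', ⋂ (_ : k' < k), ({x | c.S k' x = x} ∩ {x | c.S k' (g.T n x) = g.T n x})ᶜ)))) := by
    ext x
    simp only [Bs, mem_ofPred_eq, mem_inter_iff, mem_preimage, mem_compl_iff, mem_iInter]
  rw [e]
  refine hW.inter ((g.meas n hW).inter ((measurableSet_eq_fun (g.meas n) measurable_id).compl.inter
    ((MeasurableSet.iInter fun k' => (measurableSet_eq_fun (c.meas k') (g.meas n)).compl).inter
    (((measurableSet_eq_fun (c.meas k) measurable_id).inter
      (measurableSet_eq_fun (hm k) (g.meas n))).inter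
    (MeasurableSet.iInter fun k' => MeasurableSet.iInter fun _ =>
      ((measurableSet_eq_fun (c.meas k') measurable_id).inter
      (measurableSet_eq_fun (hm k') (g.meas n))).compl)))))

open Classical in
/-- one greedy step -/
noncomputable def ext [StandardBorelSpace V] (g : Gen G Δ) {W : Set V} (hW : MeasurableSet W)
    (c : PCol G Δ) (n : ℕ) : PCol G Δ where
  S := fun k x => if x ∈ Bs g W c n k then g.T n x else c.S k x
  meas := fun k => Measurable.ite (meas_Bs g hW c n k) (g.meas n) (c.meas k)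
  invol := by
    intro k x
    by_cases hx : x ∈ Bs g W c n k
    · simp only [if_pos hx, if_pos (Bs_inv g W c n k hx), g.invol]
    · have hy : c.S k x ∉ Bs g W c n k := by
        intro hy
        have h1 := hy.2.2.2.2.1.1
        rw [c.invol] at h1
        exact hx (h1 ▸ hy)
      simp only [if_neg hx, if_neg hy, c.invol]
  adj := by
    intro k x h
    by_cases hx : x ∈ Bs g W c n k
    · simp only [if_pos hx] at h ⊢
      exact g.adj n x h
    · simp only [if_neg hx] at h ⊢
      exact c.adj k x h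
  disj := by
    intro k k' x h hne
    by_cases hx : x ∈ Bs g W c n k
    · by_cases hx' : x ∈ Bs g W c n k'
      · rcases lt_trichotomy k k' with hlt | heq | hgt
        · exact absurd hx.2.2.2.2.1 (hx'.2.2.2.2.2 k hlt)
        · exact heq
        · exact absurd hx'.2.2.2.2.1 (hx.2.2.2.2.2 k' hgt)
      · simp only [if_pos hx, if_neg hx'] at h
        exact absurd h.symm (hx.2.2.2.1 k')
    · by_cases hx' : x ∈ Bs g W c n k'
      · simp only [if_neg hx, if_pos hx'] at h
        exact absurd h (hx'.2.2.2.1 k)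
      · simp only [if_neg hx, if_neg hx'] at h hne
        exact c.disj k k' x h hne

lemma ext_keep [StandardBorelSpace V] (g : Gen G Δ) {W : Set V} (hW : MeasurableSet W)
    (c : PCol G Δ) (n : ℕ) (k : Fin Δ) (x : V) (h : c.S k x ≠ x) :
    (ext g hW c n).S k x = c.S k x := by
  have hx : x ∉ Bs g W c n k := fun hx => h hx.2.2.2.2.1.1
  simp only [ext, if_neg hx]

/-- the colours used at `x` inject into the other edges at `x` -/
lemma used_card (g : Gen G Δ) (c : PCol G Δ) (n : ℕ) (x : V)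
    (hfin : {i | g.T i x ≠ x}.Finite) (hn : g.T n x ≠ x) (hu : ∀ k, c.S k x ≠ g.T n x) :
    ({k : Fin Δ | c.S k x ≠ x} : Set (Fin Δ)).ncard + 1 ≤ {i | g.T i x ≠ x}.ncard := by
  classical
  have hch : ∀ k : Fin Δ, ∃ i, c.S k x ≠ x → g.T i x = c.S k x := by
    intro k
    by_cases h : c.S k x = x
    · exact ⟨0, fun h' => absurd h h'⟩
    · obtain ⟨i, hi⟩ := g.cover x (c.S k x) (c.adj k x h)
      exact ⟨i, fun _ => hi⟩
  choose f hf using hch
  have h1 : ({k : Fin Δ | c.S k x ≠ x} : Set (Fin Δ)).ncard ≤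
      ({i | g.T i x ≠ x} \ {n}).ncard := by
    refine ncard_le_ncard_of_injOn f ?_ ?_ (hfin.subset sdiff_subset)
    · intro k hk
      have hk' : c.S k x ≠ x := hk
      refine ⟨?_, ?_⟩
      · show g.T (f k) x ≠ x
        rw [hf k hk']; exact hk'
      · intro h
        have h' : f k = n := h
        have := hf k hk'
        rw [h'] at this
        exact hu k this.symm
    · intro k hk k' hk' he
      have h1 := hf k hk
      have h2 := hf k' hk'
      rw [he] at h1
      exact c.disj k k' x (h1.symm.trans h2) hk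
  have h2 : ({i | g.T i x ≠ x} \ {n}).ncard + 1 = {i | g.T i x ≠ x}.ncard :=
    ncard_sdiff_singleton_add_one (by exact hn) hfin
  omega

lemma ext_cover [StandardBorelSpace V] (g : Gen G Δ) {W : Set V} (hW : MeasurableSet W)
    (hd : tDEG.{u})
    (hdeg : ∀ x ∈ W, ∀ y ∈ W, G.Adj x y →
      {i | g.T i x ≠ x}.ncard + {i | g.T i y ≠ y}.ncard ≤ Δ + 1)
    (c : PCol G Δ) (n : ℕ) (x : V) (hx : x ∈ W) (hy : g.T n x ∈ W) (hne : g.T n x ≠ x) :
    ∃ k, (ext g hW c n).S k x = g.T n x := by
  classical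
  by_cases hcol : ∃ k, c.S k x = g.T n x
  · obtain ⟨k, hk⟩ := hcol
    refine ⟨k, ?_⟩
    rw [ext_keep g hW c n k x (by rw [hk]; exact hne), hk]
  · push Not at hcol
    have hcol' : ∀ k, c.S k (g.T n x) ≠ g.T n (g.T n x) := by
      intro k hk
      rw [g.invol] at hk
      apply hcol k
      have := c.invol k (g.T n x)
      rw [hk] at this
      exact this
    have hne' : g.T n (g.T n x) ≠ g.T n x := by
      rw [g.invol]; exact fun h => hne h.symm
    have u1 := used_card g c n x (hd V G Δ g x).1 hne hcol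
    have u2 := used_card g c n (g.T n x) (hd V G Δ g (g.T n x)).1 hne' hcol'
    have h3 := hdeg x hx (g.T n x) hy (g.adj n x hne)
    have hex : ∃ k : Fin Δ, c.S k x = x ∧ c.S k (g.T n x) = g.T n x := by
      by_contra hcon
      push Not at hcon
      have hsub : (univ : Set (Fin Δ)) ⊆ {k | c.S k x ≠ x} ∪ {k | c.S k (g.T n x) ≠ g.T n x} := by
        intro k _
        by_cases h : c.S k x = x
        · right; exact hcon k h
        · left; exact h
      have h4 := ncard_le_ncard hsub (toFinite _)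
      have h5 := ncard_union_le {k : Fin Δ | c.S k x ≠ x} {k | c.S k (g.T n x) ≠ g.T n x}
      rw [ncard_univ, Nat.card_eq_fintype_card, Fintype.card_fin] at h4
      omega
    have hne0 : (Finset.univ.filter fun k : Fin Δ =>
        c.S k x = x ∧ c.S k (g.T n x) = g.T n x).Nonempty := by
      obtain ⟨k, hk⟩ := hex
      exact ⟨k, by simp [hk]⟩
    obtain ⟨k, hk, hmin⟩ := (Finset.univ.filter fun k : Fin Δ =>
        c.S k x = x ∧ c.S k (g.T n x) = g.T n x).exists_min_image id hne0
    rw [Finset.mem_filter] at hk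
    have hxB : x ∈ Bs g W c n k := by
      refine ⟨hx, hy, hne, hcol, hk.2, ?_⟩
      intro k' hk' h
      have := hmin k' (by rw [Finset.mem_filter]; exact ⟨Finset.mem_univ _, h⟩)
      exact absurd hk' (not_lt.2 this)
    refine ⟨k, ?_⟩
    simp only [ext, if_pos hxB]

/-- the sequence of greedy extensions -/
noncomputable def sq [StandardBorelSpace V] (g : Gen G Δ) {W : Set V} (hW : MeasurableSet W)
    (c0 : PCol G Δ) : ℕ → PCol G Δ
  | 0 => c0
  | n + 1 => ext g hW (sq g hW c0 n) n

lemma sq_keep [StandardBorelSpace V] (g : Gen G Δ) {W : Set V} (hW : MeasurableSet W)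
    (c0 : PCol G Δ) (k : Fin Δ) (x : V) (n : ℕ) (h : (sq g hW c0 n).S k x ≠ x) (m : ℕ)
    (hm : n ≤ m) : (sq g hW c0 m).S k x = (sq g hW c0 n).S k x := by
  induction m, hm using Nat.le_induction with
  | base => rfl
  | succ m hm ih =>
    rw [← ih]
    exact ext_keep g hW (sq g hW c0 m) m k x (by rw [ih]; exact h)

end GRD_

open GRD_ in
theorem pGRD (h1 : tDEG.{u}) : tGRD.{u} := by
  intro V _ _ G Δ g W hW hdeg c0
  have key : ∀ n k x, (sq g hW c0 n).S k x ≠ x →
      (PCol.lim (sq g hW c0)).S k x = (sq g hW c0 n).S k x := by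
    intro n k x h
    refine PCol.limS_eq ?_
    filter_upwards [eventually_ge_atTop n] with m hm
    exact sq_keep g hW c0 k x n h m hm
  refine ⟨PCol.lim (sq g hW c0), ?_, ?_⟩
  · intro k x h
    exact key 0 k x h
  · intro x hx y hy hadj
    obtain ⟨n, hn⟩ := g.cover x y hadj
    have hne : g.T n x ≠ x := by rw [hn]; exact hadj.ne'
    obtain ⟨k, hk⟩ := ext_cover g hW h1 hdeg (sq g hW c0 n) n x hx (by rw [hn]; exact hy) hne
    refine ⟨k, ?_⟩
    have hk' : (sq g hW c0 (n+1)).S k x = g.T n x := hk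
    rw [key (n+1) k x (by rw [hk']; exact hne), hk', hn]

end Pool.Agent.BGL
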