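import Pool.Agent.BGL.Targets

set_option autoImplicit false

/-! MP_fff3e1_lc, job IMP: improvement on a piece. -/

namespace Pool.Agent.BGL

open MeasureTheory Set Filter
open scoped ENNReal
open Pool.Agent.MEC

universe u

namespace IMP_

theorem pt_zero {V : Type u} [MeasurableSpace V] {G : SimpleGraph V} {Δ : ℕ} (g : Gen G Δ)
    (w : List (ℕ × ℕ)) (x : V) : pt g w 0 x = x := by
  cases w <;> rfl

end IMP_

theorem pIMP (h1 : tMOD.{u}) (h2 : tCST.{u}) (h3 : tMEA.{u}) : tIMP.{u} := by
  intro V _ _ G Δ g q P c ν _ C lam w e B hQ hlam hopt hB hadm hdisj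
  classical
  obtain ⟨c', ha, hb⟩ := h1 V G Δ g q P w e c B hB
    (fun x hx => ⟨(hadm x hx).1.2, (hadm x hx).2⟩) hdisj
  rw [h2 V G Δ g ν C (ENNReal.ofReal lam) w e B hQ hB]
  have hB0 : pt g w 0 '' B = B := by
    ext x
    constructor
    · rintro ⟨y, hy, rfl⟩
      rw [IMP_.pt_zero]
      exact hy
    · intro hx
      exact ⟨x, hx, IMP_.pt_zero g w x⟩
  -- the unassigned tails of `c'`
  have hU : Una c' ⊆ (Una c \ B) ∪ (if e = none then pt g w w.length '' B else ∅) := by
    intro x hx
    by_cases hm : ∃ m, m ≤ w.length ∧ x ∈ pt g w m '' B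
    · obtain ⟨m, hm, hxm⟩ := hm
      obtain ⟨he, hmn⟩ := hb m hm x hxm hx.2
      right
      rw [if_pos he, ← hmn]
      exact hxm
    · push Not at hm
      have h4 := ha x hm
      left
      refine ⟨⟨hx.1, ?_⟩, ?_⟩
      · rw [← h4]
        exact hx.2
      · intro hxB
        have := hm 0 (Nat.zero_le _)
        rw [hB0] at this
        exact this hxB
  have hD : {x | c.a x ≠ c'.a x} ⊆ ⋃ m ∈ Finset.range (w.length + 1), pt g w m '' B := by
    intro x hx
    by_contra h
    apply hx
    refine (ha x fun m hm hxm => h ?_).symm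
    simp only [mem_iUnion]
    exact ⟨m, Finset.mem_range.2 (by omega), hxm⟩
  have hopt' := hopt c'
  have e1 : ν.real (Una c) = ν.real (Una c \ B) + ν.real B := by
    have hsub : B ⊆ Una c := fun x hx => (hadm x hx).1
    rw [← measureReal_sdiff_add_inter (s := Una c) hB, inter_eq_self_of_subset_right hsub]
  have e2 : ν.real (Una c') ≤ ν.real (Una c \ B) +
      (if e = none then ν.real (pt g w w.length '' B) else 0) := by
    refine (measureReal_mono hU).trans ((measureReal_union_le _ _).trans ?_)
    split_ifs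
    · exact le_rfl
    · simp
  have e3 : ν.real {x | c.a x ≠ c'.a x} ≤
      ∑ m ∈ Finset.range (w.length + 1), ν.real (pt g w m '' B) :=
    (measureReal_mono hD (measure_ne_top _ _)).trans (measureReal_biUnion_finset_le _ _)
  have e4 : ν.real B ≤ lam * ∑ m ∈ Finset.range (w.length + 1), ν.real (pt g w m '' B) +
      (if e = none then ν.real (pt g w w.length '' B) else 0) := by
    have := mul_le_mul_of_nonneg_left e3 hlam
    linarith
  rw [← ofReal_measureReal (μ := ν) (s := B)]
  refine (ENNReal.ofReal_le_ofReal e4).trans (le_of_eq ?_)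
  have h5 : 0 ≤ ∑ m ∈ Finset.range (w.length + 1), ν.real (pt g w m '' B) :=
    Finset.sum_nonneg fun m _ => measureReal_nonneg
  have h6 : 0 ≤ (if e = none then ν.real (pt g w w.length '' B) else 0) := by
    split_ifs
    · exact measureReal_nonneg
    · exact le_rfl
  rw [ENNReal.ofReal_add (mul_nonneg hlam h5) h6, ENNReal.ofReal_mul hlam,
    ENNReal.ofReal_sum_of_nonneg fun m _ => measureReal_nonneg]
  congr 1
  · congr 1
    exact Finset.sum_congr rfl fun m _ => ofReal_measureReal
  · split_ifs
    · exact ofReal_measureReal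
    · exact ENNReal.ofReal_zero

end Pool.Agent.BGL
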