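import Pool.Agent.BGL.Targets

set_option autoImplicit false

/-! MP_fff3e1_lc: JPR, properties of the least cost `jj`. -/

namespace Pool.Agent.BGL

open MeasureTheory Set Filter
open scoped ENNReal
open Pool.Agent.MEC

universe u

namespace JPR_

variable {V : Type u} [MeasurableSpace V] {G : SimpleGraph V} {Δ : ℕ}

theorem le_wt (ν : Measure V) (g : Gen G Δ) (lam : ℝ≥0∞) (w : List (ℕ × ℕ)) (e : Option ℕ)
    (x : V) : lam ≤ wt ν g lam w e x := by
  cases w with
  | nil =>
    cases e with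
    | none => exact le_self_add
    | some i => exact le_rfl
  | cons p w => exact le_self_add

theorem le_val (ν : Measure V) (lam : ℝ≥0∞) {g : Gen G Δ} {q : ℕ} {P : APB g q}
    (c : Asg P) (w : List (ℕ × ℕ)) (e : Option ℕ) (x : V) : lam ≤ val ν lam c w e x := by
  unfold val
  split_ifs
  · exact le_wt ν g lam w e x
  · exact le_top

theorem jj_le (ν : Measure V) (lam : ℝ≥0∞) {g : Gen G Δ} {q : ℕ} {P : APB g q}
    (c : Asg P) (w : List (ℕ × ℕ)) (e : Option ℕ) (x : V) :
    jj ν lam c x ≤ val ν lam c w e x := by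
  unfold jj
  exact (iInf_le _ w).trans (iInf_le _ e)

theorem le_jj (ν : Measure V) (lam : ℝ≥0∞) {g : Gen G Δ} {q : ℕ} {P : APB g q}
    (c : Asg P) (x : V) : lam ≤ jj ν lam c x := by
  unfold jj
  exact le_iInf fun w => le_iInf fun e => le_val ν lam c w e x

theorem jj_le_wt (ν : Measure V) (lam : ℝ≥0∞) {g : Gen G Δ} {q : ℕ} {P : APB g q}
    (c : Asg P) (w : List (ℕ × ℕ)) (e : Option ℕ) (x : V) (h : Adm c w e x) :
    jj ν lam c x ≤ wt ν g lam w e x := by
  have := jj_le ν lam c w e x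
  unfold val at this
  rwa [if_pos h] at this

end JPR_

open JPR_ in
theorem pJPR : tJPR.{u} := by
  intro V _ _ G Δ g q P c ν lam h0 hT
  refine ⟨fun x => ⟨le_jj ν lam c x, ?_⟩, fun x i hR ha hF => ?_, fun x i k hx hk => ?_⟩
  · exact jj_le_wt ν lam c [] none x trivial
  · exact jj_le_wt ν lam c [] (some i) x ⟨hR, ha, hF⟩
  · set z := g.T k (g.T i x) with hz
    set PQ := rho ν g i x * rho ν g k (g.T i x) with hPQ
    rw [← mul_assoc, ← hPQ]
    have hadm : ∀ w e, Adm c w e z → Adm c ((i, k) :: w) e x := fun w e h =>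
      ⟨hx.1, hx.2.1, hx.2.2, hk, h⟩
    have hstep : ∀ w e, Adm c w e z → jj ν lam c x ≤ lam + PQ * wt ν g lam w e z := fun w e h =>
      jj_le_wt ν lam c ((i, k) :: w) e x (hadm w e h)
    by_cases hP0 : PQ = 0
    · have := hstep [] none trivial
      rw [hP0, zero_mul] at this ⊢
      exact this
    by_cases hPT : PQ = ⊤
    · have hjz : jj ν lam c z ≠ 0 := (lt_of_lt_of_le h0 (le_jj ν lam c z)).ne'
      rw [hPT, ENNReal.top_mul hjz]
      simp
    · rw [← tsub_le_iff_left, ← ENNReal.div_le_iff' hP0 hPT]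
      change _ ≤ ⨅ (w : List (ℕ × ℕ)) (e : Option ℕ), val ν lam c w e z
      refine le_iInf fun w => le_iInf fun e => ?_
      unfold val
      split_ifs with h
      · rw [ENNReal.div_le_iff' hP0 hPT, tsub_le_iff_left]
        exact hstep w e h
      · exact le_top

end Pool.Agent.BGL
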