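import Pool.Agent.BGL.Targets

set_option autoImplicit false
set_option linter.unusedSectionVars false

/-!
# BGL-LIM: limits of assignments
-/

namespace Pool.Agent.BGL

open MeasureTheory Set Filter
open scoped ENNReal
open Pool.Agent.MEC

universe u

namespace LIM_

variable {V : Type u} [MeasurableSpace V] {G : SimpleGraph V} {Δ : ℕ} {g : Gen G Δ} {q : ℕ}
  {P : APB g q}

open Classical in
/-- pointwise limit -/
noncomputable def la (c : ℕ → Asg P) (x : V) : ℕ :=
  if h : ∃ y, ∀ᶠ n in atTop, (c n).a x = y then h.choose else 0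

lemma la_eq {c : ℕ → Asg P} {x : V} {y : ℕ} (h : ∀ᶠ n in atTop, (c n).a x = y) :
    la c x = y := by
  have h' : ∃ y, ∀ᶠ n in atTop, (c n).a x = y := ⟨y, h⟩
  rw [la, dif_pos h']
  have := h'.choose_spec
  obtain ⟨n, h1, h2⟩ := (this.and h).exists
  exact h1.symm.trans h2

lemma la_zero {c : ℕ → Asg P} {x : V} (h : ¬ ∃ y, ∀ᶠ n in atTop, (c n).a x = y) :
    la c x = 0 := by
  rw [la, dif_neg h]

lemma la_spec {c : ℕ → Asg P} {x : V} (h : la c x ≠ 0) :
    ∀ᶠ n in atTop, (c n).a x = la c x := by
  by_cases h' : ∃ y, ∀ᶠ n in atTop, (c n).a x = y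
  · obtain ⟨y, hy⟩ := h'
    rw [la_eq hy]
    exact hy
  · exact absurd (la_zero h') h

lemma meas_la (c : ℕ → Asg P) : Measurable (la c) := by
  intro B _
  set A : ℕ → Set V := fun N => {x | ∀ n, N ≤ n → (c n).a x = (c N).a x} with hA
  have hAm : ∀ N, MeasurableSet (A N) := by
    intro N
    have : A N = ⋂ n, {x | N ≤ n → (c n).a x = (c N).a x} := by
      ext x; simp [hA]
    rw [this]
    refine MeasurableSet.iInter fun n => ?_
    by_cases hn : N ≤ n
    · simp only [hn, true_imp_iff]
      exact measurableSet_eq_fun (c n).meas (c N).meas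
    · simp [hn]
  have key : la c ⁻¹' B = (⋃ N, A N ∩ (c N).a ⁻¹' B) ∪ ((⋃ N, A N)ᶜ ∩ {_x | 0 ∈ B}) := by
    ext x
    simp only [mem_preimage, mem_union, mem_iUnion, mem_inter_iff, mem_compl_iff]
    by_cases h : ∃ N, x ∈ A N
    · obtain ⟨N, hN⟩ := h
      have hev : ∀ M, x ∈ A M → la c x = (c M).a x := by
        intro M hM
        refine la_eq ?_
        filter_upwards [eventually_ge_atTop M] with n hn using hM n hn
      constructor
      · intro hx
        left
        refine ⟨N, hN, ?_⟩
        rwa [← hev N hN]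
      · rintro (⟨M, hM, hx⟩ | ⟨hno, -⟩)
        · rwa [hev M hM]
        · exact absurd ⟨N, hN⟩ hno
    · have hns : ¬ ∃ y, ∀ᶠ n in atTop, (c n).a x = y := by
        rintro ⟨y, hy⟩
        obtain ⟨N, hN⟩ := eventually_atTop.1 hy
        refine h ⟨N, fun n hn => ?_⟩
        rw [hN n hn, hN N le_rfl]
      rw [la_zero hns]
      constructor
      · intro hx; right; exact ⟨h, hx⟩
      · rintro (⟨M, hM, -⟩ | ⟨-, hx⟩)
        · exact absurd ⟨M, hM⟩ h
        · exact hx
  rw [key]
  refine MeasurableSet.union (MeasurableSet.iUnion fun N => (hAm N).inter ((c N).meas ?_)) ?_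
  · exact MeasurableSet.of_discrete
  · exact (MeasurableSet.iUnion hAm).compl.inter (MeasurableSet.const _)

lemma fin_moved (g : Gen G Δ) (y : V) : {i | g.T i y ≠ y}.Finite := by
  by_contra hinf
  obtain ⟨s, hs, hc⟩ := Set.Infinite.exists_subset_card_eq hinf (Δ + 1)
  have := g.card y s (fun i hi => hs hi)
  omega

lemma sub_moved {a : V → ℕ} (ha : ∀ x i, a x = i + 1 → x ∈ P.R i) (y : V) :
    {i | a (g.T i y) = i + 1} ⊆ {i | g.T i y ≠ y} := by
  intro i hi h
  have h1 := P.mov i _ (ha _ i hi)
  rw [g.invol] at h1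
  exact h1 h.symm

lemma la_mem (c : ℕ → Asg P) (x : V) (i : ℕ) (h : la c x = i + 1) : x ∈ P.R i := by
  obtain ⟨n, hn⟩ := (la_spec (c := c) (x := x) (by rw [h]; omega)).exists
  exact (c n).mem x i (hn.trans h)

/-- the limit -/
noncomputable def lim (c : ℕ → Asg P) : Asg P where
  a := la c
  meas := meas_la c
  mem := la_mem c
  load := by
    intro y
    set F : Set ℕ := {i | la c (g.T i y) = i + 1} with hF
    have hFf : F.Finite := (fin_moved g y).subset (sub_moved (la_mem c) y)
    have h1 : ∀ᶠ n in atTop, ∀ i ∈ F, (c n).a (g.T i y) = i + 1 := by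
      rw [Filter.eventually_all_finite hFf]
      intro i hi
      have h2 := la_spec (c := c) (x := g.T i y) (by
        have : la c (g.T i y) = i + 1 := hi
        omega)
      filter_upwards [h2] with n hn
      rw [hn]
      exact hi
    obtain ⟨n, hn⟩ := h1.exists
    refine le_trans (Set.ncard_le_ncard (fun i hi => hn i hi)
      ((fin_moved g y).subset (sub_moved (c n).mem y))) ((c n).load y)

variable {ν : Measure V} [IsFiniteMeasure ν]

lemma ae_ev (c : ℕ → Asg P) (hs : Summable fun n => ν.real {x | (c n).a x ≠ (c (n + 1)).a x}) :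
    ∀ᵐ x ∂ν, ∀ᶠ n in atTop, (c n).a x = (lim c).a x := by
  have hsum : ∑' n, ν {x | (c n).a x ≠ (c (n+1)).a x} ≠ ⊤ := by
    have h2 : ∀ n, ν {x | (c n).a x ≠ (c (n+1)).a x} =
        ENNReal.ofReal (ν.real {x | (c n).a x ≠ (c (n+1)).a x}) := by
      intro n
      rw [ofReal_measureReal]
    simp_rw [h2]
    exact hs.tsum_ofReal_ne_top
  filter_upwards [ae_eventually_notMem hsum] with x hx
  obtain ⟨N, hN⟩ := eventually_atTop.1 hx
  have hconst : ∀ n, N ≤ n → (c n).a x = (c N).a x := by
    intro n hn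
    induction n, hn using Nat.le_induction with
    | base => rfl
    | succ n hn ih =>
      have := hN n hn
      simp only [not_not] at this
      rw [← this, ih]
  have hev : ∀ᶠ n in atTop, (c n).a x = (c N).a x := by
    filter_upwards [eventually_ge_atTop N] with n hn using hconst n hn
  have : (lim c).a x = (c N).a x := la_eq hev
  rw [this]
  exact hev

end LIM_

open LIM_ in
theorem pLIM : tLIM.{u} := by
  intro V _ _ G Δ g q P ν _ c hs
  refine ⟨lim c, fun n => ?_⟩
  have hs' : Summable fun m => ν.real {x | (c (n + m)).a x ≠ (c (n + m + 1)).a x} := by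
    have := (summable_nat_add_iff n).2 hs
    refine this.congr fun m => ?_
    simp [add_comm]
  have hsub : ν {x | (c n).a x ≠ (lim c).a x} ≤
      ν (⋃ m, {x | (c (n+m)).a x ≠ (c (n+m+1)).a x}) := by
    refine measure_mono_ae ?_
    filter_upwards [ae_ev (ν := ν) c hs] with x hx hne
    have hne' : (c n).a x ≠ (lim c).a x := hne
    change x ∈ ⋃ m, {x | (c (n+m)).a x ≠ (c (n+m+1)).a x}
    rw [mem_iUnion]
    by_contra hcon
    push Not at hcon
    have hconst : ∀ m, (c (n+m)).a x = (c n).a x := by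
      intro m
      induction m with
      | zero => rfl
      | succ m ih =>
        have := hcon m
        simp only [mem_ofPred_eq, not_not] at this
        rw [← ih, this]; rfl
    obtain ⟨N, hN⟩ := eventually_atTop.1 hx
    have h1 := hN (n + N) (Nat.le_add_left _ _)
    rw [hconst N] at h1
    exact hne' h1
  have h3 : ν (⋃ m, {x | (c (n+m)).a x ≠ (c (n+m+1)).a x}) ≤
      ∑' m, ν {x | (c (n+m)).a x ≠ (c (n+m+1)).a x} := measure_iUnion_le _
  have h4 : ∑' m, ν {x | (c (n+m)).a x ≠ (c (n+m+1)).a x} =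
      ENNReal.ofReal (∑' m, ν.real {x | (c (n+m)).a x ≠ (c (n+m+1)).a x}) := by
    rw [ENNReal.ofReal_tsum_of_nonneg (fun _ => measureReal_nonneg) hs']
    refine tsum_congr fun m => ?_
    rw [ofReal_measureReal]
  have h5 := hsub.trans (h3.trans_eq h4)
  rw [measureReal_def]
  exact ENNReal.toReal_le_of_le_ofReal (tsum_nonneg fun _ => measureReal_nonneg) h5

end Pool.Agent.BGL
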