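import Pool.Agent.BGL.Targets

set_option autoImplicit false
set_option linter.unusedSectionVars false

/-! MP_fff3e1_lc, A5: measurability. -/

namespace Pool.Agent.BGL

open MeasureTheory Set Filter
open scoped ENNReal
open Pool.Agent.MEC

universe u

namespace MEA_

variable {V : Type u} [MeasurableSpace V] [StandardBorelSpace V] {G : SimpleGraph V} {Δ : ℕ}
  {g : Gen G Δ} {q : ℕ} {P : APB g q}

theorem fin_load (c : Asg P) (y : V) : {i | c.a (g.T i y) = i + 1}.Finite := by
  have hsub : {i | c.a (g.T i y) = i + 1} ⊆ {i | g.T i y ≠ y} := by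
    intro i hi
    have h1 := P.mov i _ (c.mem _ i hi)
    rw [g.invol] at h1
    exact Ne.symm h1
  refine Set.Finite.subset ?_ hsub
  by_contra hinf
  obtain ⟨s, hs, hc⟩ := Set.Infinite.exists_subset_card_eq hinf (Δ + 1)
  have := g.card y s fun i hi => hs hi
  omega

theorem meas_eq (c : Asg P) (i : ℕ) (n : ℕ) : MeasurableSet {x | c.a (g.T i x) = n} :=
  (c.meas.comp (g.meas i)) (measurableSet_singleton n)

theorem full_meas (h : tCNT.{u}) (c : Asg P) : MeasurableSet {y | Full c y} := by
  have h1 := h V (fun i => {y | c.a (g.T i y) = i + 1}) (fun i => meas_eq c i (i + 1))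
    (fun y => fin_load c y)
  exact measurableSet_eq_fun h1 P.mcap

theorem adm_meas (h : tCNT.{u}) (c : Asg P) (w : List (ℕ × ℕ)) (e : Option ℕ) :
    MeasurableSet {x | Adm c w e x} := by
  have hF := full_meas h c
  induction w with
  | nil =>
    cases e with
    | none =>
      simp only [Adm]
      exact MeasurableSet.univ
    | some i =>
      have : {x | Adm c [] (some i) x} =
          P.R i ∩ ({x | c.a x = i + 1}ᶜ ∩ (g.T i ⁻¹' {y | Full c y})ᶜ) := by
        ext x
        simp only [Adm, Set.mem_ofPred_eq, Set.mem_inter_iff, Set.mem_compl_iff, Set.mem_preimage]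
      rw [this]
      exact (P.mR i).inter ((c.meas (measurableSet_singleton _)).compl.inter (g.meas i hF).compl)
  | cons p w ih =>
    have : {x | Adm c (p :: w) e x} =
        P.R p.1 ∩ ({x | c.a x = p.1 + 1}ᶜ ∩ (g.T p.1 ⁻¹' {y | Full c y} ∩
          ({x | c.a (g.T p.2 (g.T p.1 x)) = p.2 + 1} ∩
            (fun x => g.T p.2 (g.T p.1 x)) ⁻¹' {x | Adm c w e x}))) := by
      ext x
      simp only [Adm, Set.mem_ofPred_eq, Set.mem_inter_iff, Set.mem_compl_iff, Set.mem_preimage]
    rw [this]
    have hm : Measurable (fun x => g.T p.2 (g.T p.1 x)) := (g.meas p.2).comp (g.meas p.1)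
    exact (P.mR p.1).inter ((c.meas (measurableSet_singleton _)).compl.inter
      ((g.meas p.1 hF).inter (((c.meas.comp hm) (measurableSet_singleton _)).inter (hm ih))))

theorem wt_meas (ν : Measure V) (lam : ℝ≥0∞) (w : List (ℕ × ℕ)) (e : Option ℕ) :
    Measurable (wt ν g lam w e) := by
  induction w with
  | nil =>
    cases e with
    | none => exact measurable_const
    | some i => exact measurable_const
  | cons p w ih =>
    have hm : Measurable (fun x => g.T p.2 (g.T p.1 x)) := (g.meas p.2).comp (g.meas p.1)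
    exact measurable_const.add (((measurable_dens ν _).mul
      ((measurable_dens ν _).comp (g.meas p.1))).mul (ih.comp hm))

end MEA_

open MEA_

theorem pMEA (h : tCNT.{u}) : tMEA.{u} := by
  intro V _ _ G Δ g q P c ν lam
  have hF := full_meas h c
  have hval : ∀ w e, Measurable (val ν lam c w e) := fun w e => by
    classical
    exact Measurable.ite (adm_meas h c w e) (wt_meas ν lam w e) measurable_const
  refine ⟨hF, fun w e => ⟨adm_meas h c w e, wt_meas ν lam w e, hval w e⟩, ?_, fun i => ?_, ?_⟩
  · unfold jj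
    exact Measurable.iInf fun w => Measurable.iInf fun e => hval w e
  · have : Ai c i = P.R i ∩ ({x | c.a x = i + 1}ᶜ ∩ g.T i ⁻¹' {y | Full c y}) := by
      ext x
      simp only [Ai, Set.mem_ofPred_eq, Set.mem_inter_iff, Set.mem_compl_iff, Set.mem_preimage]
    rw [this]
    exact (P.mR i).inter ((c.meas (measurableSet_singleton _)).compl.inter (g.meas i hF))
  · have : Una c = (⋃ i, P.R i) ∩ {x | c.a x = 0} := by
      ext x
      simp only [Una, Set.mem_ofPred_eq, Set.mem_inter_iff, Set.mem_iUnion]
    rw [this]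
    exact (MeasurableSet.iUnion P.mR).inter (c.meas (measurableSet_singleton 0))

end Pool.Agent.BGL
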