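import Pool.Agent.BGL.Targets

set_option autoImplicit false

/-! BGL-MOD: modification along a chain -/

namespace Pool.Agent.BGL

open MeasureTheory Set Filter
open scoped ENNReal
open Pool.Agent.MEC

universe u

namespace MOD_

variable {V : Type u} [MeasurableSpace V] {G : SimpleGraph V} {Δ : ℕ} {g : Gen G Δ} {q : ℕ}
  {P : APB g q}

theorem Te_apply (g : Gen G Δ) (i : ℕ) (x : V) : Te g i x = g.T i x := rfl

theorem pt_zero (g : Gen G Δ) (w : List (ℕ × ℕ)) (x : V) : pt g w 0 x = x := by
  cases w <;> rfl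

theorem pt_succ (g : Gen G Δ) (p : ℕ × ℕ) (w : List (ℕ × ℕ)) (m : ℕ) (x : V) :
    pt g (p :: w) (m + 1) x = pt g w m (g.T p.2 (g.T p.1 x)) := rfl

theorem img_zero (g : Gen G Δ) (w : List (ℕ × ℕ)) (B : Set V) : pt g w 0 '' B = B := by
  ext x
  simp only [mem_image, pt_zero, exists_eq_right]

theorem img_succ (g : Gen G Δ) (p : ℕ × ℕ) (w : List (ℕ × ℕ)) (m : ℕ) (B : Set V) :
    pt g (p :: w) (m + 1) '' B = pt g w m '' ((fun x => g.T p.2 (g.T p.1 x)) '' B) := by
  rw [image_image]
  rfl

/-- admissibility is preserved -/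
theorem adm_transfer {c c1 : Asg P} (hF : ∀ y, Full c y ↔ Full c1 y) (e : Option ℕ) :
    ∀ (v : List (ℕ × ℕ)) (x : V), Adm c v e x → (c1.a x = c.a x ∨ c1.a x = 0) →
      (∀ m, 1 ≤ m → m ≤ v.length → c1.a (pt g v m x) = c.a (pt g v m x)) → Adm c1 v e x := by
  intro v
  induction v with
  | nil =>
    intro x h1 h2 _
    cases e with
    | none => trivial
    | some i =>
      obtain ⟨h3, h4, h5⟩ := h1
      refine ⟨h3, ?_, fun h => h5 ((hF _).2 h)⟩
      rcases h2 with h | h
      · rw [h]
        exact h4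
      · rw [h]
        omega
  | cons p v ih =>
    intro x h1 h2 h3
    obtain ⟨a1, a2, a3, a4, a5⟩ := h1
    have h4 : c1.a (g.T p.2 (g.T p.1 x)) = c.a (g.T p.2 (g.T p.1 x)) := by
      have := h3 1 le_rfl (by simp)
      rw [pt_succ, pt_zero] at this
      exact this
    refine ⟨a1, ?_, (hF _).1 a3, by rw [h4]; exact a4, ?_⟩
    · rcases h2 with h | h
      · rw [h]
        exact a2
      · rw [h]
        omega
    · refine ih _ a5 (Or.inl h4) fun m hm1 hm2 => ?_
      have := h3 (m + 1) (by omega) (by simpa using hm2)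
      rw [pt_succ] at this
      exact this

end MOD_

open MOD_

theorem pMOD (h1 : tSTP.{u}) : tMOD.{u} := by
  intro V _ _ G Δ g q P w e
  induction w with
  | nil =>
    intro c B hB hc _
    cases e with
    | none =>
      refine ⟨c, fun _ _ => rfl, fun m hm x _ _ => ⟨rfl, ?_⟩⟩
      simpa using hm
    | some i =>
      obtain ⟨c', h2, h3⟩ := (h1 V G Δ g q P c B i hB
        (fun x hx => ⟨(hc x hx).1, (hc x hx).2.1⟩)).2 (fun x hx => (hc x hx).2.2.2)
      refine ⟨c', fun x hx => h3 x ?_, fun m hm x hx h0 => ?_⟩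
      · have := hx 0 (Nat.zero_le _)
        rwa [img_zero] at this
      · have hm0 : m = 0 := by simpa using hm
        subst hm0
        rw [img_zero] at hx
        rw [h2 x hx] at h0
        omega
  | cons p v ih =>
    intro c B hB hc hdis
    obtain ⟨c1, a1, a2, a3, a4⟩ := (h1 V G Δ g q P c B p.1 hB
      (fun x hx => ⟨(hc x hx).1, (hc x hx).2.1⟩)).1 p.2 (fun x hx => (hc x hx).2.2.2.2.1)
    have hF : ∀ y, Full c y ↔ Full c1 y := by
      intro y
      unfold Full
      rw [a4 y]
    have hB1 : MeasurableSet ((fun x => g.T p.2 (g.T p.1 x)) '' B) := by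
      have h5 : (fun x => g.T p.2 (g.T p.1 x)) '' B = ((Te g p.1).trans (Te g p.2)) '' B := rfl
      rw [h5]
      exact (MeasurableEquiv.measurableSet_image _).2 hB
    -- disjointness from `B` and from its image
    have hd0 : ∀ m, m ≤ v.length → Disjoint B
        (pt g v m '' ((fun x => g.T p.2 (g.T p.1 x)) '' B)) := by
      intro m hm
      have := hdis 0 (m + 1) (by omega) (by simpa using hm)
      rwa [img_zero, img_succ] at this
    have hd1 : ∀ m, 1 ≤ m → m ≤ v.length → Disjoint ((fun x => g.T p.2 (g.T p.1 x)) '' B)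
        (pt g v m '' ((fun x => g.T p.2 (g.T p.1 x)) '' B)) := by
      intro m hm1 hm
      have := hdis 1 (m + 1) (by omega) (by simpa using hm)
      rwa [img_succ g p v 0, img_zero, img_succ] at this
    obtain ⟨c', b1, b2⟩ := ih c1 ((fun x => g.T p.2 (g.T p.1 x)) '' B) hB1 (by
      rintro x ⟨z, hz, rfl⟩
      refine ⟨a2 z hz, ?_⟩
      refine adm_transfer hF e v _ (hc z hz).2.2.2.2.2 (Or.inr (a2 z hz)) fun m hm1 hm2 => ?_
      have hmem : pt g v m (g.T p.2 (g.T p.1 z)) ∈
          pt g v m '' ((fun x => g.T p.2 (g.T p.1 x)) '' B) :=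
        mem_image_of_mem _ (mem_image_of_mem _ hz)
      apply a3
      · exact fun h => (disjoint_left.1 (hd0 m hm2)) h hmem
      · exact fun h => (disjoint_left.1 (hd1 m hm1 hm2)) h hmem) (by
      intro m m' hmm hm'
      have := hdis (m + 1) (m' + 1) (by omega) (by simpa using hm')
      rwa [img_succ, img_succ] at this)
    refine ⟨c', fun x hx => ?_, fun m hm x hx h0 => ?_⟩
    · rw [b1 x]
      · apply a3
        · have := hx 0 (Nat.zero_le _)
          rwa [img_zero] at this
        · have := hx 1 (by simp)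
          rwa [img_succ, img_zero] at this
      · intro m hm
        have := hx (m + 1) (by simpa using hm)
        rwa [img_succ] at this
    · cases m with
      | zero =>
        exfalso
        rw [img_zero] at hx
        have h5 : c'.a x = c1.a x := b1 x fun m hm h => (disjoint_left.1 (hd0 m hm)) hx h
        rw [h5, a1 x hx] at h0
        omega
      | succ m =>
        rw [img_succ] at hx
        obtain ⟨h6, h7⟩ := b2 m (by simpa using hm) x hx h0
        exact ⟨h6, by simp [h7]⟩

end Pool.Agent.BGL
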