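import Pool.Agent.BGL.Targets

set_option autoImplicit false

/-! MP_fff3e1_lc: nested sets. -/

namespace Pool.Agent.BGL

open MeasureTheory Set Filter
open scoped ENNReal
open Pool.Agent.MEC

universe u

namespace NES_

variable {V : Type u} [MeasurableSpace V] {G : SimpleGraph V} {Δ : ℕ}

/-- The properties of the sets at stage `s`. -/
def Good (g : Gen G Δ) (ν : Measure V) (U : Set V) (s : ℕ) (E : ℕ → Set V) : Prop :=
  (∀ i, MeasurableSet (E i)) ∧ (∀ i, E i ⊆ HH g U i) ∧
    (∀ᵐ x ∂ν, {i | x ∈ HH g U i ∧ x ∉ E i}.ncard ≤ s) ∧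
    ∀ y, {i | g.T i y ∈ E i}.ncard ≤ Δ - s

theorem good_base (h2 : tDEG.{u}) (g : Gen G Δ) (ν : Measure V) (U : Set V) :
    Good g ν U Δ (fun _ => ∅) := by
  refine ⟨fun i => MeasurableSet.empty, fun i => empty_subset _,
    Eventually.of_forall fun x => ?_, fun y => ?_⟩
  · obtain ⟨hf, hc, -⟩ := h2 V G Δ g x
    exact (Set.ncard_le_ncard (fun i hi => hi.1.2) hf).trans hc
  · have e : {i | g.T i y ∈ (∅ : Set V)} = ∅ := by
      ext i
      simp
    rw [e]
    simp

end NES_

open NES_ in
/-- NES. -/
theorem pNES (h1 : tSTE.{u}) (h2 : tDEG.{u}) : tNES.{u} := by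
  intro V _ _ G Δ g ν _ C U hQ hC hU
  rcases Nat.eq_zero_or_pos Δ with hΔ | hΔ
  · refine ⟨fun _ _ => ∅, fun _ _ => MeasurableSet.empty, fun _ _ => empty_subset _,
      fun _ _ _ => le_rfl, Eventually.of_forall fun x s hs hs' => ?_, fun y s hs hs' => ?_⟩
    · omega
    · omega
  · have key : ∀ n, n < Δ → ∃ F : ℕ → ℕ → Set V, (∀ m, m ≤ n → Good g ν U (Δ - m) (F m)) ∧
        ∀ m, m < n → ∀ i, F m i ⊆ F (m + 1) i := by
      intro n
      induction n with
      | zero =>
        intro _
        refine ⟨fun _ _ => ∅, fun m hm => ?_, fun m hm => absurd hm (Nat.not_lt_zero m)⟩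
        obtain rfl : m = 0 := by omega
        exact good_base h2 g ν U
      | succ n ih =>
        intro hn
        obtain ⟨F, hF, hFm⟩ := ih (by omega)
        obtain ⟨a1, a2, a3, a4⟩ := hF n le_rfl
        have e : Δ - n = (Δ - (n + 1)) + 1 := by omega
        rw [e] at a3 a4
        obtain ⟨E', b1, b2, b3, b4, b5⟩ := h1 V G Δ g ν C U (Δ - (n + 1)) (F n) hQ hC hU
          (by omega) (by omega) a1 a2 a3 a4
        refine ⟨Function.update F (n + 1) E', fun m hm => ?_, fun m hm i => ?_⟩
        · rcases Nat.lt_or_ge n m with h | h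
          · obtain rfl : m = n + 1 := by omega
            rw [Function.update_self]
            exact ⟨b1, b3, b4, b5⟩
          · rw [Function.update_of_ne (by omega)]
            exact hF m h
        · rcases Nat.lt_or_ge m n with h | h
          · rw [Function.update_of_ne (by omega), Function.update_of_ne (by omega)]
            exact hFm m h i
          · obtain rfl : m = n := by omega
            rw [Function.update_self, Function.update_of_ne (by omega)]
            exact b2 i
    obtain ⟨F, hF, hFm⟩ := key (Δ - 1) (by omega)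
    refine ⟨fun s i => if 1 ≤ s ∧ s ≤ Δ then F (Δ - s) i else ∅, fun s i => ?_, fun s i => ?_,
      fun s i hs => ?_, ?_, fun y s hs hs' => ?_⟩
    · dsimp only
      split_ifs with h
      · exact (hF (Δ - s) (by omega)).1 i
      · exact MeasurableSet.empty
    · dsimp only
      split_ifs with h
      · exact (hF (Δ - s) (by omega)).2.1 i
      · exact empty_subset _
    · dsimp only
      by_cases h : s + 1 ≤ Δ
      · rw [if_pos ⟨by omega, h⟩, if_pos ⟨hs, by omega⟩]
        have e : Δ - s = (Δ - (s + 1)) + 1 := by omega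
        rw [e]
        exact hFm _ (by omega) i
      · rw [if_neg (fun hh => h hh.2)]
        exact empty_subset _
    · rw [ae_all_iff]
      intro s
      by_cases h : 1 ≤ s ∧ s ≤ Δ
      · have h3 := (hF (Δ - s) (by omega)).2.2.1
        have e : Δ - (Δ - s) = s := by omega
        rw [e] at h3
        filter_upwards [h3] with x hx _ _
        simp only [if_pos h]
        exact hx
      · exact Eventually.of_forall fun x hs hs' => absurd ⟨hs, hs'⟩ h
    · have h3 := (hF (Δ - s) (by omega)).2.2.2 y
      have e : Δ - (Δ - s) = s := by omega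
      rw [e] at h3
      simp only [if_pos (show 1 ≤ s ∧ s ≤ Δ from ⟨hs, hs'⟩)]
      exact h3

end Pool.Agent.BGL
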