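import Pool.Agent.BGL.Targets

set_option autoImplicit false

/-! MP_fff3e1_lc: B5, in an optimal assignment chains from unassigned tails are expensive. -/

namespace Pool.Agent.BGL

open MeasureTheory Set Filter
open scoped ENNReal
open Pool.Agent.MEC

universe u

namespace ONE_

/-- the part without repetitions -/
lemma inj_part (h1 : tIMP.{u}) (h2 : tSPL.{u}) (h4 : tMEA.{u}) (V : Type u) [MeasurableSpace V]
    [StandardBorelSpace V] (G : SimpleGraph V) (Δ : ℕ) (g : Gen G Δ) (q : ℕ) (P : APB g q)
    (c : Asg P) (ν : Measure V) [IsFiniteMeasure ν] (C : ℝ≥0∞) (lam : ℝ) (w : List (ℕ × ℕ))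
    (e : Option ℕ) (hQ : QInv G ν C) (hl : 0 ≤ lam) (hO : Opt ν lam c) :
    ∀ᵐ x ∂ν, x ∈ Una c → Adm c w e x →
      (∀ m m', m < m' → m' ≤ w.length → pt g w m x ≠ pt g w m' x) →
      1 ≤ wt ν g (ENNReal.ofReal lam) w e x := by
  obtain ⟨-, hM, -, -, hU⟩ := h4 V G Δ g q P c ν (ENNReal.ofReal lam)
  obtain ⟨hA, hw, -⟩ := hM w e
  obtain ⟨Q, hQm, hQ1, hQ2⟩ := h2 V w.length (fun m => (pt g w m : V → V))
    (fun m => (pt g w m).measurable)
  have key : ∀ j, ∀ᵐ x ∂ν, x ∈ Una c ∩ {x | Adm c w e x} ∩ Q j →
      1 ≤ wt ν g (ENNReal.ofReal lam) w e x := by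
    intro j
    have hBm : MeasurableSet (Una c ∩ {x | Adm c w e x} ∩ Q j) := (hU.inter hA).inter (hQm j)
    rw [← ae_restrict_iff' hBm]
    refine ae_le_of_forall_setLIntegral_le_of_sigmaFinite measurable_const ?_
    intro s hs _
    rw [Measure.restrict_restrict hs]
    have h := h1 V G Δ g q P c ν C lam w e (s ∩ (Una c ∩ {x | Adm c w e x} ∩ Q j)) hQ hl hO
      (hs.inter hBm) (fun x hx => ⟨hx.2.1.1, hx.2.1.2⟩) (by
        intro m m' hm hm'
        refine (hQ2 j m m' hm hm').mono ?_ ?_
        · exact image_mono (fun x hx => hx.2.2)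
        · exact image_mono (fun x hx => hx.2.2))
    simpa using h
  rw [← ae_all_iff] at key
  filter_upwards [key] with x hx hUx hAx hne
  obtain ⟨j, hj⟩ := hQ1 x hne
  exact hx j ⟨⟨hUx, hAx⟩, hj⟩

end ONE_

open ONE_ in
/-- B5 -/
theorem pONE (h1 : tIMP.{u}) (h2 : tSPL.{u}) (h3 : tSHO.{u}) (h4 : tMEA.{u}) : tONE.{u} := by
  intro V _ _ G Δ g q P c ν _ C lam w e hQ hl hO
  induction hn : w.length using Nat.strong_induction_on generalizing w with
  | _ n ih =>
    subst hn
    have hI := inj_part h1 h2 h4 V G Δ g q P c ν C lam w e hQ hl hO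
    have hS : ∀ᵐ x ∂ν, ∀ m m', m < m' → m' ≤ w.length → pt g w m x = pt g w m' x →
        val ν (ENNReal.ofReal lam) c (w.take m ++ w.drop m') e x ≤
          val ν (ENNReal.ofReal lam) c w e x := by
      rw [ae_all_iff]
      intro m
      rw [ae_all_iff]
      intro m'
      by_cases hm : m < m'
      · by_cases hm' : m' ≤ w.length
        · filter_upwards [h3 V G Δ g q P c ν C (ENNReal.ofReal lam) w e m m' hQ hm hm'] with x hx
          exact fun _ _ => hx
        · exact Eventually.of_forall fun x _ h => absurd h hm'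
      · exact Eventually.of_forall fun x h => absurd h hm
    have hH : ∀ᵐ x ∂ν, ∀ m m', m < m' → m' ≤ w.length → x ∈ Una c →
        1 ≤ val ν (ENNReal.ofReal lam) c (w.take m ++ w.drop m') e x := by
      rw [ae_all_iff]
      intro m
      rw [ae_all_iff]
      intro m'
      by_cases hm : m < m'
      · by_cases hm' : m' ≤ w.length
        · have hlen : (w.take m ++ w.drop m').length < w.length := by
            rw [List.length_append, List.length_take, List.length_drop]
            omega
          filter_upwards [ih _ hlen (w.take m ++ w.drop m') rfl] with x hx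
          exact fun _ _ => hx
        · exact Eventually.of_forall fun x _ h => absurd h hm'
      · exact Eventually.of_forall fun x h => absurd h hm
    filter_upwards [hI, hS, hH] with x hIx hSx hHx hU
    by_cases hA : Adm c w e x
    · by_cases hne : ∀ m m', m < m' → m' ≤ w.length → pt g w m x ≠ pt g w m' x
      · have : val ν (ENNReal.ofReal lam) c w e x = wt ν g (ENNReal.ofReal lam) w e x := by
          unfold val
          rw [if_pos hA]
        rw [this]
        exact hIx hU hA hne
      · push Not at hne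
        obtain ⟨m, m', hm, hm', he⟩ := hne
        exact (hHx m m' hm hm' hU).trans (hSx m m' hm hm' he)
    · have : val ν (ENNReal.ofReal lam) c w e x = ⊤ := by
        unfold val
        rw [if_neg hA]
      rw [this]
      exact le_top

end Pool.Agent.BGL
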