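import Pool.Agent.BGL.Targets

set_option autoImplicit false

/-! From matchings to a colouring of the edges at `U`. -/

namespace Pool.Agent.BGL

open MeasureTheory Set Filter
open scoped ENNReal
open Pool.Agent.MEC

universe u

namespace PCO_

variable {V : Type u} [MeasurableSpace V] {G : SimpleGraph V} {Δ : ℕ}

/-- the vertex `x` is matched along the edge `i` in the round with values `m` -/
def Mv (g : Gen G Δ) (m : V → ℕ) (i : ℕ) (x : V) : Prop := m x = i + 1 ∨ m (g.T i x) = i + 1

open Classical in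
/-- the involution of a round -/
noncomputable def SS (g : Gen G Δ) (m : V → ℕ) (x : V) : V :=
  if h : ∃ i, Mv g m i x then g.T (Classical.choose h) x else x

lemma mv_inv {g : Gen G Δ} {m : V → ℕ} {i : ℕ} {x : V} (h : Mv g m i x) : Mv g m i (g.T i x) := by
  rcases h with h | h
  · right
    rw [g.invol]
    exact h
  · left
    exact h

/-- both ends in `U` is impossible -/
lemma both {g : Gen G Δ} {U : Set V} (hU : OK g U) {i k : ℕ} {x : V} (h1 : x ∈ HH g U i)
    (h2 : g.T k x ∈ HH g U k) : False := by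
  have h3 : g.T k x ≠ x := by
    intro hc
    apply h2.2
    rw [g.invol]
    exact hc.symm
  exact hU.2.1 x h1.1 _ h2.1 (g.adj k x h3)

lemma mv_uniq {g : Gen G Δ} {U : Set V} {m : V → ℕ} (hU : OK g U)
    (hm : ∀ x i, m x = i + 1 → x ∈ HH g U i)
    (hi : ∀ y i k, m (g.T i y) = i + 1 → m (g.T k y) = k + 1 → i = k) {i k : ℕ} {x : V}
    (h1 : Mv g m i x) (h2 : Mv g m k x) : i = k := by
  rcases h1 with h1 | h1 <;> rcases h2 with h2 | h2
  · omega
  · exact (both hU (hm _ _ h1) (hm _ _ h2)).elim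
  · exact (both hU (hm _ _ h2) (hm _ _ h1)).elim
  · exact hi x i k h1 h2

lemma SS_eq {g : Gen G Δ} {U : Set V} {m : V → ℕ} (hU : OK g U)
    (hm : ∀ x i, m x = i + 1 → x ∈ HH g U i)
    (hi : ∀ y i k, m (g.T i y) = i + 1 → m (g.T k y) = k + 1 → i = k) {i : ℕ} {x : V}
    (h1 : Mv g m i x) : SS g m x = g.T i x := by
  have h : ∃ i, Mv g m i x := ⟨i, h1⟩
  unfold SS
  rw [dif_pos h, mv_uniq hU hm hi (Classical.choose_spec h) h1]

lemma SS_none {g : Gen G Δ} {m : V → ℕ} {x : V} (h : ∀ i, ¬ Mv g m i x) : SS g m x = x := by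
  unfold SS
  rw [dif_neg]
  push Not
  exact h

lemma meas_Mv (g : Gen G Δ) {m : V → ℕ} (hm : Measurable m) (i : ℕ) :
    MeasurableSet {x | Mv g m i x} := by
  have h1 : MeasurableSet {x | m x = i + 1} := hm (measurableSet_singleton (i + 1))
  have h2 : MeasurableSet {x | m (g.T i x) = i + 1} :=
    (hm.comp (g.meas i)) (measurableSet_singleton (i + 1))
  exact h1.union h2

lemma meas_SS {g : Gen G Δ} {U : Set V} {m : V → ℕ} (hU : OK g U)
    (hm : ∀ x i, m x = i + 1 → x ∈ HH g U i)
    (hi : ∀ y i k, m (g.T i y) = i + 1 → m (g.T k y) = k + 1 → i = k) (hmm : Measurable m) :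
    Measurable (SS g m) := by
  intro B hB
  have h : SS g m ⁻¹' B = (⋃ i, ({x | Mv g m i x} ∩ g.T i ⁻¹' B)) ∪
      ((⋃ i, {x | Mv g m i x})ᶜ ∩ B) := by
    ext x
    simp only [mem_preimage, mem_union, mem_iUnion, mem_inter_iff, mem_compl_iff,
      mem_ofPred_eq]
    by_cases hx : ∃ i, Mv g m i x
    · obtain ⟨i, hx⟩ := hx
      rw [SS_eq hU hm hi hx]
      constructor
      · intro h
        exact Or.inl ⟨i, hx, h⟩
      · rintro (⟨k, hk, h⟩ | ⟨h, _⟩)
        · rw [mv_uniq hU hm hi hx hk]
          exact h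
        · exact (h ⟨i, hx⟩).elim
    · rw [SS_none (by push Not at hx; exact hx)]
      constructor
      · intro h
        exact Or.inr ⟨hx, h⟩
      · rintro (⟨k, hk, h⟩ | ⟨_, h⟩)
        · exact (hx ⟨k, hk⟩).elim
        · exact h
  rw [h]
  refine MeasurableSet.union (MeasurableSet.iUnion fun i => (meas_Mv g hmm i).inter
    (g.meas i hB)) ((MeasurableSet.iUnion fun i => meas_Mv g hmm i).compl.inter hB)

end PCO_

open PCO_ in
theorem pPCO : tPCO.{u} := by
  intro V _ _ G Δ g U m hU hmm hm hi ht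
  refine ⟨{ S := fun t => SS g (m t)
            meas := fun t => meas_SS hU (hm t) (hi t) (hmm t)
            invol := ?_
            adj := ?_
            disj := ?_ }, ?_⟩
  · intro t x
    by_cases hx : ∃ i, Mv g (m t) i x
    · obtain ⟨i, hx⟩ := hx
      rw [SS_eq hU (hm t) (hi t) hx, SS_eq hU (hm t) (hi t) (mv_inv hx), g.invol]
    · have : ∀ i, ¬ Mv g (m t) i x := by
        push Not at hx
        exact hx
      rw [SS_none this, SS_none this]
  · intro t x hne
    by_cases hx : ∃ i, Mv g (m t) i x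
    · obtain ⟨i, hx⟩ := hx
      rw [SS_eq hU (hm t) (hi t) hx] at hne ⊢
      exact g.adj i x hne
    · exact (hne (SS_none (by push Not at hx; exact hx))).elim
  · intro t t' x heq hne
    by_cases hx : ∃ i, Mv g (m t) i x
    · obtain ⟨i, hx⟩ := hx
      rw [SS_eq hU (hm t) (hi t) hx] at hne heq
      by_cases hx' : ∃ i, Mv g (m t') i x
      · obtain ⟨k, hx'⟩ := hx'
        rw [SS_eq hU (hm t') (hi t') hx'] at heq
        have hik : i = k := g.disj i k x heq hne
        subst hik
        apply Fin.ext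
        rcases hx with h1 | h1 <;> rcases hx' with h2 | h2
        · exact ht _ _ x i h1 h2
        · exact (both hU (hm _ _ _ h1) (hm _ _ _ h2)).elim
        · exact (both hU (hm _ _ _ h2) (hm _ _ _ h1)).elim
        · exact ht _ _ _ i h1 h2
      · rw [SS_none (m := m t') (by push Not at hx'; exact hx')] at heq
        exact (hne heq).elim
    · exact (hne (SS_none (by push Not at hx; exact hx))).elim
  · intro t x i h
    exact SS_eq hU (hm t) (hi t) (Or.inl h)

end Pool.Agent.BGL
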