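import Pool.Agent.BGL.Targets

set_option autoImplicit false

/-! MP_fff3e1_lc, C4: few tails are unassigned. -/

namespace Pool.Agent.BGL

open MeasureTheory Set Filter
open scoped ENNReal
open Pool.Agent.MEC

universe u

namespace POT_

theorem exists_gamma (M ε : ℝ) (hM : 1 ≤ M) (hε : 0 < ε) : ∃ γ : ℝ, 0 < γ ∧ γ ≤ 1 ∧
    M ^ γ ≤ 1 + ε := by
  have h1 : ContinuousAt (fun γ : ℝ => M ^ γ) 0 :=
    (Real.continuous_const_rpow (by linarith)).continuousAt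
  have h2 : ∀ᶠ γ in nhds (0 : ℝ), M ^ γ < 1 + ε := by
    refine h1.eventually_lt continuousAt_const ?_
    rw [Real.rpow_zero]
    linarith
  obtain ⟨δ, hδ, h3⟩ := Metric.eventually_nhds_iff.1 h2
  refine ⟨min (δ / 2) 1, by positivity, min_le_right _ _, (h3 ?_).le⟩
  rw [Real.dist_eq, sub_zero, abs_of_pos (by positivity)]
  exact (min_le_left _ _).trans_lt (by linarith)

theorem consts (q : ℕ) (C : ℝ≥0∞) (hq : 1 ≤ q) (hC : C ≠ ⊤) : ∃ p c1 : ℝ, 1 < p ∧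
    0 < c1 ∧ c1 < 1 ∧
    (C ^ 2) ^ (p - 1) * ((q - 1 : ℕ) : ℝ≥0∞) ≤ ENNReal.ofReal ((1 - c1) ^ p) * q := by
  have hq' : (1 : ℝ) ≤ q := by exact_mod_cast hq
  obtain ⟨γ, h0, h1, h2⟩ := exists_gamma (max (C.toReal ^ 2) 1) (1 / (4 * q)) (le_max_right _ _)
    (by positivity)
  have hc1 : 1 / (8 * (q : ℝ)) ≤ 1 / 8 := by
    rw [div_le_div_iff₀ (by positivity) (by norm_num)]
    linarith
  refine ⟨1 + γ, 1 / (8 * q), by linarith, by positivity, by linarith, ?_⟩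
  have h3 : (C ^ 2) ^ (1 + γ - 1) ≤ ENNReal.ofReal (1 + 1 / (4 * q)) := by
    rw [add_sub_cancel_left]
    have h4 : C ^ 2 ≤ ENNReal.ofReal (max (C.toReal ^ 2) 1) := by
      rw [← ENNReal.ofReal_toReal hC, ← ENNReal.ofReal_pow ENNReal.toReal_nonneg,
        ENNReal.ofReal_toReal hC]
      exact ENNReal.ofReal_le_ofReal (le_max_left _ _)
    refine (ENNReal.rpow_le_rpow h4 h0.le).trans ?_
    rw [ENNReal.ofReal_rpow_of_nonneg (by positivity) h0.le]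
    exact ENNReal.ofReal_le_ofReal h2
  have h5 : (1 + 1 / (4 * (q : ℝ))) * ((q - 1 : ℕ) : ℝ) ≤ (1 - 1 / (8 * q)) ^ (1 + γ) * q := by
    have h6 : (1 - 1 / (8 * (q : ℝ))) ^ (2 : ℝ) ≤ (1 - 1 / (8 * q)) ^ (1 + γ) :=
      Real.rpow_le_rpow_of_exponent_ge (by linarith) (by
        have : 0 < 1 / (8 * (q : ℝ)) := by positivity
        linarith) (by linarith)
    have h7 : 1 - 1 / (4 * (q : ℝ)) ≤ (1 - 1 / (8 * (q : ℝ))) ^ (2 : ℝ) := by
      rw [Real.rpow_two]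
      have : 1 / (4 * (q : ℝ)) = 2 * (1 / (8 * q)) := by field_simp; norm_num
      nlinarith [sq_nonneg (1 / (8 * (q : ℝ)))]
    have h8 : (1 - 1 / (4 * (q : ℝ))) * q ≤ (1 - 1 / (8 * q)) ^ (1 + γ) * q := by
      gcongr
      exact h7.trans h6
    refine le_trans ?_ h8
    rw [Nat.cast_sub hq]
    push_cast
    have h9 : 1 / (4 * (q : ℝ)) * q = 1 / 4 := by field_simp
    have h10 : 0 < 1 / (4 * (q : ℝ)) := by positivity
    nlinarith
  calc (C ^ 2) ^ (1 + γ - 1) * ((q - 1 : ℕ) : ℝ≥0∞)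
      ≤ ENNReal.ofReal (1 + 1 / (4 * q)) * ((q - 1 : ℕ) : ℝ≥0∞) := by gcongr
    _ = ENNReal.ofReal ((1 + 1 / (4 * (q : ℝ))) * ((q - 1 : ℕ) : ℝ)) := by
        rw [ENNReal.ofReal_mul (by positivity), ENNReal.ofReal_natCast]
    _ ≤ ENNReal.ofReal ((1 - 1 / (8 * q)) ^ (1 + γ) * q) := ENNReal.ofReal_le_ofReal h5
    _ = ENNReal.ofReal ((1 - 1 / (8 * (q : ℝ))) ^ (1 + γ)) * q := by
        rw [ENNReal.ofReal_mul (by
          refine Real.rpow_nonneg ?_ _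
          linarith), ENNReal.ofReal_natCast]

theorem shrink {lam c1 p : ℝ} {j : ℝ≥0∞} (hl : 0 < lam) (hc : 0 < c1) (hc1 : c1 < 1)
    (hp : 0 ≤ p) (h : ENNReal.ofReal (lam / c1) ≤ j) :
    ENNReal.ofReal lam < j ∧
    ENNReal.ofReal ((1 - c1) ^ p) * j ^ p ≤ (j - ENNReal.ofReal lam) ^ p := by
  constructor
  · refine lt_of_lt_of_le ?_ h
    rw [ENNReal.ofReal_lt_ofReal_iff (by positivity), lt_div_iff₀ hc]
    nlinarith
  · rw [← ENNReal.ofReal_rpow_of_nonneg (by linarith) hp, ← ENNReal.mul_rpow_of_nonneg _ _ hp]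
    refine ENNReal.rpow_le_rpow ?_ hp
    refine ENNReal.le_sub_of_add_le_right ENNReal.ofReal_ne_top ?_
    have h2 : ENNReal.ofReal lam ≤ ENNReal.ofReal c1 * j := by
      have : ENNReal.ofReal lam = ENNReal.ofReal c1 * ENNReal.ofReal (lam / c1) := by
        rw [← ENNReal.ofReal_mul hc.le]
        congr 1
        field_simp
      rw [this]
      gcongr
    calc ENNReal.ofReal (1 - c1) * j + ENNReal.ofReal lam
        ≤ ENNReal.ofReal (1 - c1) * j + ENNReal.ofReal c1 * j := by gcongr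
      _ = j := by
        rw [← add_mul, ← ENNReal.ofReal_add (by linarith) hc.le]
        simp

end POT_

open POT_

theorem pPOT (hROW : tROW.{u}) (hCOL : tCOL.{u}) (hONE : tONE.{u}) (hJPR : tJPR.{u})
    (hMEA : tMEA.{u}) : tPOT.{u} := by
  intro q C hq hC
  obtain ⟨p, c1, hp, hc0, hc1, hconst⟩ := consts q C hq hC
  refine ⟨p, c1, hp, hc0, hc1, ?_⟩
  intro V _ _ G Δ g P c ν _ lam hQ hl hlc hopt
  have hp0 : 0 ≤ p := by linarith
  set L : ℝ≥0∞ := ENNReal.ofReal lam with hL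
  have hL0 : 0 < L := ENNReal.ofReal_pos.2 hl
  have hLt : L ≠ ⊤ := ENNReal.ofReal_ne_top
  obtain ⟨hj1, -, -⟩ := hJPR V G Δ g q P c ν L hL0 hLt
  obtain ⟨-, -, hjm, -, hUm⟩ := hMEA V G Δ g q P c ν L
  set j : V → ℝ≥0∞ := jj ν L c with hj
  have hgm : Measurable (fun z => j z ^ p) := hjm.pow_const p
  -- on the unassigned tails `j ≥ 1`
  have hU1 : ∀ᵐ x ∂ν, x ∈ Una c → 1 ≤ j x := by
    have h1 : ∀ᵐ x ∂ν, ∀ (w : List (ℕ × ℕ)) (e : Option ℕ), x ∈ Una c → 1 ≤ val ν L c w e x := by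
      rw [ae_all_iff]
      intro w
      rw [ae_all_iff]
      intro e
      exact hONE V G Δ g q P c ν C lam w e hQ hl.le hopt
    filter_upwards [h1] with x hx hxU
    rw [hj]
    unfold jj
    exact le_iInf fun w => le_iInf fun e => hx w e hxU
  have hrow := hROW V G Δ g q P c ν C L p hQ hL0 hLt hp.le
  have hcol := hCOL V G Δ g q P c ν C (fun z => j z ^ p) hQ hgm hq
  set Th : ℝ≥0∞ := (C ^ 2) ^ (p - 1) with hTh
  set k1 : ℝ≥0∞ := ENNReal.ofReal ((1 - c1) ^ p) with hk1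
  have hk0 : k1 ≠ 0 := by
    rw [hk1, ne_eq, ENNReal.ofReal_eq_zero, not_le]
    exact Real.rpow_pos_of_pos (by linarith) _
  have hkt : k1 ≠ ⊤ := ENNReal.ofReal_ne_top
  set F : V → ℝ≥0∞ := FF ν c (fun z => j z ^ p) with hF
  have hTht : Th ≠ ⊤ := by
    rw [hTh]
    exact ENNReal.rpow_ne_top_of_nonneg (by linarith) (ENNReal.pow_ne_top hC)
  -- the sets
  have haM : MeasurableSet {x | c.a x ≠ 0} := (c.meas (measurableSet_singleton 0)).compl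
  set A1 : Set V := {x | c.a x ≠ 0 ∧ ENNReal.ofReal (lam / c1) ≤ j x} with hA1
  set A0 : Set V := {x | c.a x ≠ 0 ∧ ¬ ENNReal.ofReal (lam / c1) ≤ j x} with hA0
  have hA1m : MeasurableSet A1 := haM.inter (measurableSet_le measurable_const hjm)
  have hA0m : MeasurableSet A0 := haM.inter (measurableSet_le measurable_const hjm).compl
  have hsplit : ∫⁻ x in {x | c.a x ≠ 0}, j x ^ p ∂ν =
      ∫⁻ x in A1, j x ^ p ∂ν + ∫⁻ x in A0, j x ^ p ∂ν := by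
    rw [← lintegral_union hA0m]
    · congr 2
      ext x
      simp only [hA1, hA0, Set.mem_ofPred_eq, Set.mem_union]
      tauto
    · rw [Set.disjoint_left]
      rintro x ⟨_, h1⟩ ⟨_, h2⟩
      exact h2 h1
  have hlam1 : ENNReal.ofReal (lam / c1) ≤ 1 := by
    rw [ENNReal.ofReal_le_one, div_le_one hc0]
    exact hlc
  -- pointwise inequalities
  have hpU : ∀ᵐ x ∂ν, x ∈ Una c → k1 * ((q + 1 : ℕ) * j x ^ p) ≤ Th * F x := by
    filter_upwards [hrow, hU1] with x hx hx1 hxU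
    have h2 := shrink hl hc0 hc1 hp0 (hlam1.trans (hx1 hxU))
    have h3 := hx h2.1 hxU.1
    rw [if_pos hxU.2] at h3
    calc k1 * ((q + 1 : ℕ) * j x ^ p) = (q + 1 : ℕ) * (k1 * j x ^ p) := by ring
      _ ≤ (q + 1 : ℕ) * (j x - L) ^ p := by gcongr; exact h2.2
      _ ≤ _ := h3
  have hpA : ∀ᵐ x ∂ν, x ∈ A1 → k1 * (q * j x ^ p) ≤ Th * F x := by
    filter_upwards [hrow] with x hx hxA
    have h2 := shrink hl hc0 hc1 hp0 hxA.2
    obtain ⟨i, hi⟩ : ∃ i, c.a x = i + 1 := ⟨c.a x - 1, by have := hxA.1; omega⟩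
    have h3 := hx h2.1 ⟨i, c.mem x i hi⟩
    rw [if_neg hxA.1] at h3
    calc k1 * (q * j x ^ p) = q * (k1 * j x ^ p) := by ring
      _ ≤ q * (j x - L) ^ p := by gcongr; exact h2.2
      _ ≤ _ := h3
  have hdisj : Disjoint (Una c) A1 := by
    rw [Set.disjoint_left]
    rintro x ⟨_, h1⟩ ⟨h2, _⟩
    exact h2 h1
  have hI : k1 * ((q + 1 : ℕ) * ∫⁻ x in Una c, j x ^ p ∂ν) + k1 * (q * ∫⁻ x in A1, j x ^ p ∂ν) ≤
      Th * ∫⁻ x, F x ∂ν := by
    have e1 : k1 * ((q + 1 : ℕ) * ∫⁻ x in Una c, j x ^ p ∂ν) =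
        ∫⁻ x in Una c, k1 * ((q + 1 : ℕ) * j x ^ p) ∂ν := by
      rw [lintegral_const_mul _ (hgm.const_mul _), lintegral_const_mul _ hgm]
    have e2 : k1 * (q * ∫⁻ x in A1, j x ^ p ∂ν) = ∫⁻ x in A1, k1 * (q * j x ^ p) ∂ν := by
      rw [lintegral_const_mul _ (hgm.const_mul _), lintegral_const_mul _ hgm]
    rw [e1, e2]
    calc ∫⁻ x in Una c, k1 * ((q + 1 : ℕ) * j x ^ p) ∂ν + ∫⁻ x in A1, k1 * (q * j x ^ p) ∂ν
        ≤ ∫⁻ x in Una c, Th * F x ∂ν + ∫⁻ x in A1, Th * F x ∂ν := by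
          refine add_le_add (setLIntegral_mono_ae' hUm hpU) (setLIntegral_mono_ae' hA1m hpA)
      _ = ∫⁻ x in Una c ∪ A1, Th * F x ∂ν := (lintegral_union hA1m hdisj).symm
      _ ≤ ∫⁻ x, Th * F x ∂ν := setLIntegral_le_lintegral _ _
      _ = Th * ∫⁻ x, F x ∂ν := lintegral_const_mul' _ _ hTht
  have hI1t : ∫⁻ x in A1, j x ^ p ∂ν ≠ ⊤ := by
    refine ne_top_of_le_ne_top ?_ (lintegral_mono (g := fun _ => (L + 1) ^ p) fun x => ?_)
    · rw [lintegral_const]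
      exact ENNReal.mul_ne_top (ENNReal.rpow_ne_top_of_nonneg hp0 (by finiteness))
        (measure_ne_top _ _)
    · exact ENNReal.rpow_le_rpow (hj1 x).2 hp0
  have hII : k1 * ((q + 1 : ℕ) * ∫⁻ x in Una c, j x ^ p ∂ν) ≤
      k1 * (q * ∫⁻ x in A0, j x ^ p ∂ν) := by
    have h1 : k1 * ((q + 1 : ℕ) * ∫⁻ x in Una c, j x ^ p ∂ν) +
        k1 * (q * ∫⁻ x in A1, j x ^ p ∂ν) ≤
        k1 * (q * ∫⁻ x in A0, j x ^ p ∂ν) + k1 * (q * ∫⁻ x in A1, j x ^ p ∂ν) := by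
      refine hI.trans ?_
      calc Th * ∫⁻ x, F x ∂ν ≤ Th * (((q - 1 : ℕ) : ℝ≥0∞) *
            ∫⁻ x in {x | c.a x ≠ 0}, j x ^ p ∂ν) := by gcongr
        _ = (Th * ((q - 1 : ℕ) : ℝ≥0∞)) *
            (∫⁻ x in A1, j x ^ p ∂ν + ∫⁻ x in A0, j x ^ p ∂ν) := by rw [hsplit]; ring
        _ ≤ (k1 * q) * (∫⁻ x in A1, j x ^ p ∂ν + ∫⁻ x in A0, j x ^ p ∂ν) := by gcongr
        _ = _ := by ring
    refine (ENNReal.add_le_add_iff_right ?_).1 h1
    exact ENNReal.mul_ne_top hkt (ENNReal.mul_ne_top (by simp) hI1t)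
  rw [ENNReal.mul_le_mul_iff_right hk0 hkt] at hII
  have hIII : ∫⁻ x in Una c, j x ^ p ∂ν ≤ ∫⁻ x in A0, j x ^ p ∂ν := by
    have h1 : ((q + 1 : ℕ) : ℝ≥0∞) * ∫⁻ x in Una c, j x ^ p ∂ν ≤
        ((q + 1 : ℕ) : ℝ≥0∞) * ∫⁻ x in A0, j x ^ p ∂ν := by
      refine hII.trans ?_
      gcongr
      omega
    rwa [ENNReal.mul_le_mul_iff_right (by simp) (by simp)] at h1
  have hIV : ν (Una c) ≤ ENNReal.ofReal ((lam / c1) ^ p) * ν univ := by
    calc ν (Una c) = ∫⁻ x in Una c, 1 ∂ν := by simp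
      _ ≤ ∫⁻ x in Una c, j x ^ p ∂ν := by
          refine setLIntegral_mono_ae' hUm ?_
          filter_upwards [hU1] with x hx hxU
          calc (1 : ℝ≥0∞) = 1 ^ p := (ENNReal.one_rpow p).symm
            _ ≤ j x ^ p := ENNReal.rpow_le_rpow (hx hxU) hp0
      _ ≤ ∫⁻ x in A0, j x ^ p ∂ν := hIII
      _ ≤ ∫⁻ x in A0, ENNReal.ofReal ((lam / c1) ^ p) ∂ν := by
          refine setLIntegral_mono' hA0m fun x hx => ?_
          rw [← ENNReal.ofReal_rpow_of_nonneg (by positivity) hp0]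
          exact ENNReal.rpow_le_rpow (not_le.1 hx.2).le hp0
      _ = ENNReal.ofReal ((lam / c1) ^ p) * ν A0 := by rw [setLIntegral_const]
      _ ≤ _ := by gcongr; exact subset_univ _
  calc ν.real (Una c) = (ν (Una c)).toReal := rfl
    _ ≤ (ENNReal.ofReal ((lam / c1) ^ p) * ν univ).toReal :=
        ENNReal.toReal_mono (ENNReal.mul_ne_top ENNReal.ofReal_ne_top (measure_ne_top _ _)) hIV
    _ = (lam / c1) ^ p * ν.real univ := by
        rw [ENNReal.toReal_mul, ENNReal.toReal_ofReal (by positivity)]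
        rfl

end Pool.Agent.BGL
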