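import Pool.Agent.BGL.Targets

set_option autoImplicit false

/-! MP_fff3e1_lc: ranks of the edges from the nested sets. -/

namespace Pool.Agent.BGL

open MeasureTheory Set Filter
open scoped ENNReal
open Pool.Agent.MEC

universe u

namespace RNK_

variable {V : Type u}

open Classical in
/-- the number of `s` in `[1, Δ - 1]` with `x ∈ E s i` -/
noncomputable def rk (E : ℕ → ℕ → Set V) (Δ : ℕ) (i : ℕ) (x : V) : ℕ :=
  ∑ s ∈ Finset.Ico 1 Δ, (E s i).indicator (fun _ => 1) x

lemma nested {E : ℕ → ℕ → Set V} (hn : ∀ s i, 1 ≤ s → E (s + 1) i ⊆ E s i) (i s t : ℕ)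
    (hs : 1 ≤ s) (hst : s ≤ t) : E t i ⊆ E s i := by
  induction t, hst using Nat.le_induction with
  | base => exact Subset.rfl
  | succ t ht ih => exact (hn t i (hs.trans ht)).trans ih

lemma rk_ge {E : ℕ → ℕ → Set V} (hn : ∀ s i, 1 ≤ s → E (s + 1) i ⊆ E s i) {Δ i s : ℕ} {x : V}
    (_hs : 1 ≤ s) (hsd : s < Δ) (hx : x ∈ E s i) : s ≤ rk E Δ i x := by
  have h1 : ∑ t ∈ Finset.Ico 1 (s + 1), (E t i).indicator (fun _ => 1) x ≤ rk E Δ i x :=
    Finset.sum_le_sum_of_subset (Finset.Ico_subset_Ico le_rfl (by omega))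
  have h2 : ∑ t ∈ Finset.Ico 1 (s + 1), (E t i).indicator (fun _ => 1) x = s := by
    rw [Finset.sum_congr rfl (g := fun _ => 1)]
    · simp
    · intro t ht
      rw [Finset.mem_Ico] at ht
      exact indicator_of_mem (nested hn i t s ht.1 (by omega) hx) _
  omega

lemma rk_lt {E : ℕ → ℕ → Set V} (hn : ∀ s i, 1 ≤ s → E (s + 1) i ⊆ E s i) {Δ i s : ℕ} {x : V}
    (hs : 1 ≤ s) (hx : x ∉ E s i) : rk E Δ i x < s := by
  have h1 : rk E Δ i x ≤ ∑ t ∈ Finset.Ico 1 s, (E t i).indicator (fun _ => 1) x := by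
    unfold rk
    rw [← Finset.sum_filter_add_sum_filter_not (Finset.Ico 1 Δ) (fun t => t < s)]
    have h0 : ∑ t ∈ (Finset.Ico 1 Δ).filter (fun t => ¬ t < s),
        (E t i).indicator (fun _ => 1) x = 0 := by
      refine Finset.sum_eq_zero fun t ht => ?_
      rw [Finset.mem_filter] at ht
      exact indicator_of_notMem (fun h => hx (nested hn i s t hs (by omega) h)) _
    rw [h0, add_zero]
    refine Finset.sum_le_sum_of_subset fun t ht => ?_
    rw [Finset.mem_filter, Finset.mem_Ico] at ht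
    rw [Finset.mem_Ico]
    exact ⟨ht.1.1, ht.2⟩
  have h2 : ∑ t ∈ Finset.Ico 1 s, (E t i).indicator (fun _ => 1) x ≤ s - 1 := by
    calc ∑ t ∈ Finset.Ico 1 s, (E t i).indicator (fun _ => 1) x ≤ ∑ t ∈ Finset.Ico 1 s, 1 :=
          Finset.sum_le_sum fun t _ => indicator_le_self' (fun _ _ => Nat.zero_le _) x
      _ = s - 1 := by simp
  omega

lemma rk_le (E : ℕ → ℕ → Set V) (Δ i : ℕ) (x : V) : rk E Δ i x ≤ Δ - 1 := by
  calc rk E Δ i x ≤ ∑ t ∈ Finset.Ico 1 Δ, 1 :=
        Finset.sum_le_sum fun t _ => indicator_le_self' (fun _ _ => Nat.zero_le _) x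
    _ = Δ - 1 := by simp

end RNK_

open RNK_ in
theorem pRNK (h1 : tNES.{u}) (h2 : tDEG.{u}) (_h3 : tCNT.{u}) : tRNK.{u} := by
  intro V _ _ G Δ g ν _ C U hq hC hU
  obtain ⟨E, hm, hH, hn, ha, hd⟩ := h1 V G Δ g ν C U hq hC hU
  refine ⟨rk E Δ, ?_, ?_, ?_⟩
  · intro i
    exact Finset.measurable_sum _ fun s _ => measurable_const.indicator (hm s i)
  · filter_upwards [ha] with x hx i hi
    have hfin := (h2 V G Δ g x).1
    have hdeg := (h2 V G Δ g x).2.1
    set A : Set ℕ := {k | x ∈ HH g U k ∧ bt (rk E Δ) x k i} with hA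
    set B : Set ℕ := {k | x ∈ HH g U k ∧ rk E Δ k x ≤ rk E Δ i x} with hB
    have hBf : B.Finite := hfin.subset fun k hk => hk.1.2
    have hAB : insert i A ⊆ B := by
      intro k hk
      rcases hk with rfl | hk
      · exact ⟨hi, le_rfl⟩
      · refine ⟨hk.1, ?_⟩
        rcases hk.2 with h | h
        · exact h.le
        · exact h.1.le
    have hiA : i ∉ A := by
      intro h
      rcases h.2 with h | h
      · exact lt_irrefl _ h
      · exact lt_irrefl _ h.2
    have hc : A.ncard + 1 ≤ B.ncard := by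
      rw [← ncard_insert_of_notMem hiA (hBf.subset ((subset_insert _ _).trans hAB))]
      exact ncard_le_ncard hAB hBf
    have hBr : B.ncard ≤ rk E Δ i x + 1 := by
      by_cases hlt : rk E Δ i x + 1 < Δ
      · refine le_trans (ncard_le_ncard (t := {k | x ∈ HH g U k ∧ x ∉ E (rk E Δ i x + 1) k}) ?_
          (hfin.subset fun k hk => hk.1.2)) (hx _ (by omega) hlt.le)
        intro k hk
        refine ⟨hk.1, fun h => ?_⟩
        have := rk_ge hn (by omega) hlt h
        have := hk.2
        omega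
      · refine le_trans (ncard_le_ncard (t := {k | g.T k x ≠ x}) (fun k hk => hk.1.2) hfin) ?_
        omega
    omega
  · intro x i hi
    have hinv : g.T i (g.T i x) = x := g.invol i x
    have hy : g.T i x ∉ U := fun h => hU.2.1 x hi.1 _ h (g.adj i x hi.2)
    have hdeg := hU.2.2 _ hy
    have hfin := (h2 V G Δ g (g.T i x)).1
    set y := g.T i x with hyd
    have hmem : ∀ k, g.T k y ∈ HH g U k → g.T k y ≠ y := by
      intro k hk h
      apply hk.2
      rw [g.invol, h]
    set A : Set ℕ := {k | g.T k y ∈ HH g U k ∧ bh g (rk E Δ) y k i} with hA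
    set B : Set ℕ := {k | g.T k y ∈ HH g U k ∧ rk E Δ i x ≤ rk E Δ k (g.T k y)} with hB
    have hBf : B.Finite := hfin.subset fun k hk => hmem k hk.1
    have hAB : insert i A ⊆ B := by
      intro k hk
      rcases hk with rfl | hk
      · refine ⟨?_, ?_⟩
        · rw [hinv]; exact hi
        · rw [hinv]
      · refine ⟨hk.1, ?_⟩
        have h := hk.2
        unfold bh at h
        rw [hinv] at h
        rcases h with h | h
        · exact h.le
        · exact h.1.symm.le
    have hiA : i ∉ A := by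
      intro h
      rcases h.2 with h | h
      · exact lt_irrefl _ h
      · exact lt_irrefl _ h.2
    have hc : A.ncard + 1 ≤ B.ncard := by
      rw [← ncard_insert_of_notMem hiA (hBf.subset ((subset_insert _ _).trans hAB))]
      exact ncard_le_ncard hAB hBf
    have hrle := rk_le E Δ i x
    by_cases h0 : rk E Δ i x = 0
    · have : B.ncard ≤ {k | g.T k y ≠ y}.ncard :=
        ncard_le_ncard (fun k hk => hmem k hk.1) hfin
      omega
    · have hB2 : B.ncard ≤ {k | g.T k y ∈ E (rk E Δ i x) k}.ncard := by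
        refine ncard_le_ncard (fun k hk => ?_) (hfin.subset fun k hk => hmem k (hH _ _ hk))
        by_contra hcon
        have := rk_lt (Δ := Δ) hn (by omega) hcon
        have := hk.2
        omega
      have h3 := hd y (rk E Δ i x) (by omega) (by omega)
      omega

end Pool.Agent.BGL
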