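import Pool.Agent.BGL.Targets

set_option autoImplicit false

/-! Rows. -/

namespace Pool.Agent.BGL

open MeasureTheory Set Filter
open scoped ENNReal
open Pool.Agent.MEC

universe u

namespace ROW_

variable {V : Type u} [MeasurableSpace V] {G : SimpleGraph V} {Δ : ℕ}

theorem fin_ne (g : Gen G Δ) (y : V) : {k | g.T k y ≠ y}.Finite := by
  by_contra h
  obtain ⟨s, hs, hc⟩ := (Set.not_finite.1 h : Set.Infinite _).exists_subset_card_eq (Δ + 1)
  have := g.card y s (fun i hi => hs hi)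
  omega

theorem fin_in {g : Gen G Δ} {q : ℕ} (P : APB g q) (y : V) : {k | g.T k y ∈ P.R k}.Finite := by
  refine (fin_ne g y).subset fun k hk => ?_
  have h1 := P.mov k _ hk
  rw [g.invol] at h1
  exact fun h => h1 h.symm

theorem fin_a {g : Gen G Δ} {q : ℕ} {P : APB g q} (c : Asg P) (y : V) :
    {k | c.a (g.T k y) = k + 1}.Finite :=
  (fin_in P y).subset fun k hk => c.mem _ _ hk

theorem cap_ne {g : Gen G Δ} {q : ℕ} (P : APB g q) {x : V} {i : ℕ} (h : x ∈ P.R i) :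
    P.cap (g.T i x) ≠ 0 := by
  intro h0
  have h1 := P.inn (g.T i x)
  rw [h0, mul_zero] at h1
  have h2 : {k | g.T k (g.T i x) ∈ P.R k}.ncard ≠ 0 := by
    refine Set.ncard_ne_zero_of_mem (a := i) ?_ (fin_in P _)
    rw [mem_ofPred_eq, g.invol]
    exact h
  omega

theorem ae_rho (g : Gen G Δ) {ν : Measure V} [IsFiniteMeasure ν] {C : ℝ≥0∞} (hq : QInv G ν C) :
    ∀ᵐ x ∂ν, ∀ i, rho ν g i x ≤ C := by
  rw [ae_all_iff]
  intro i
  exact (hq.bddBy (g.T i) (g.meas i) (g.invol i) (g.adj i)).dens_le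

theorem ae_rho2 (g : Gen G Δ) {ν : Measure V} [IsFiniteMeasure ν] {C : ℝ≥0∞} (hq : QInv G ν C) :
    ∀ᵐ x ∂ν, ∀ i k, rho ν g k (g.T i x) ≤ C := by
  rw [ae_all_iff]
  intro i
  have h0 := ae_rho g hq
  rw [ae_iff] at h0
  have hm : MeasurableSet {a | ¬ ∀ i, rho ν g i a ≤ C} := by
    have : {a | ¬ ∀ i, rho ν g i a ≤ C} = ⋃ i, {a | C < rho ν g i a} := by
      ext a
      simp
    rw [this]
    exact MeasurableSet.iUnion fun i => measurableSet_lt measurable_const (measurable_dens ν _)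
  rw [ae_iff]
  have h1 := hq (g.T i) (g.meas i) (g.invol i) (g.adj i) _ hm
  rw [h0, mul_zero] at h1
  exact le_antisymm h1 bot_le

theorem pw {p : ℝ} (hp : 1 ≤ p) {C r s t : ℝ≥0∞} (hr : r ≤ C) (hs : s ≤ C) {d : ℝ≥0∞}
    (hd : d ≤ r * (s * t)) : d ^ p ≤ (C ^ 2) ^ (p - 1) * (r * (s * t ^ p)) := by
  have h1 : (r * s) ^ p = (r * s) ^ (p - 1) * (r * s) := by
    conv_lhs => rw [show p = (p - 1) + 1 by ring]
    rw [ENNReal.rpow_add_of_nonneg _ _ (by linarith) (by norm_num), ENNReal.rpow_one]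
  calc d ^ p ≤ (r * (s * t)) ^ p := ENNReal.rpow_le_rpow hd (by linarith)
    _ = (r * s) ^ p * t ^ p := by
        rw [← mul_assoc, ENNReal.mul_rpow_of_nonneg _ _ (by linarith)]
    _ = (r * s) ^ (p - 1) * (r * s) * t ^ p := by rw [h1]
    _ ≤ (C ^ 2) ^ (p - 1) * (r * s) * t ^ p := by
        have h2 : (r * s) ^ (p - 1) ≤ (C ^ 2) ^ (p - 1) := by
          refine ENNReal.rpow_le_rpow ?_ (by linarith)
          rw [sq]
          exact mul_le_mul' hr hs
        gcongr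
    _ = _ := by ring

/-- the number of heads to which the tail `x` can be moved -/
theorem card_S {g : Gen G Δ} {q : ℕ} {P : APB g q} (c : Asg P) (x : V) (hx : ∃ i, x ∈ P.R i) :
    {i | x ∈ P.R i ∧ c.a x ≠ i + 1}.Finite ∧
    {i | x ∈ P.R i ∧ c.a x ≠ i + 1}.ncard = if c.a x = 0 then q + 1 else q := by
  obtain ⟨i0, hi0⟩ := hx
  have h1 := P.out i0 x hi0
  have hf : {k | x ∈ P.R k}.Finite := Set.finite_of_ncard_ne_zero (by omega)
  refine ⟨hf.subset fun i hi => hi.1, ?_⟩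
  split_ifs with h0
  · have : {i | x ∈ P.R i ∧ c.a x ≠ i + 1} = {k | x ∈ P.R k} := by
      ext i
      simp only [mem_ofPred_eq, and_iff_left_iff_imp]
      intro _
      omega
    rw [this, h1]
  · obtain ⟨j, hj⟩ := Nat.exists_eq_succ_of_ne_zero h0
    have hj' : c.a x = j + 1 := hj
    have hxj := c.mem x j hj'
    have : {i | x ∈ P.R i ∧ c.a x ≠ i + 1} = {k | x ∈ P.R k} \ {j} := by
      ext i
      simp only [mem_ofPred_eq, Set.mem_sdiff, mem_singleton_iff, hj']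
      constructor
      · rintro ⟨h2, h3⟩
        exact ⟨h2, fun h => h3 (by rw [h])⟩
      · rintro ⟨h2, h3⟩
        exact ⟨h2, fun h => h3 (by omega)⟩
    rw [this, Set.ncard_sdiff_singleton_of_mem (by exact hxj), h1]
    rfl

end ROW_

open ROW_ in
theorem pROW (h1 : tJPR.{u}) (_h2 : tMEA.{u}) : tROW.{u} := by
  intro V _ _ G Δ g q P c ν _ C lam p hq hlam hlamt hp
  obtain ⟨-, hJ2, hJ3⟩ := h1 V G Δ g q P c ν lam hlam hlamt
  filter_upwards [ae_rho g hq, ae_rho2 g hq] with x hx1 hx2 hlt hxR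
  obtain ⟨hSf, hSc⟩ := card_S c x hxR
  set S := {i | x ∈ P.R i ∧ c.a x ≠ i + 1} with hS
  have hA : ∀ i ∈ S, x ∈ Ai c i := by
    intro i hi
    refine ⟨hi.1, hi.2, ?_⟩
    by_contra hF
    exact absurd (hJ2 x i hi.1 hi.2 hF) (not_le.2 hlt)
  -- inner sums
  have hin : ∀ i ∈ S, (jj ν lam c x - lam) ^ p ≤ (C ^ 2) ^ (p - 1) *
      ∑' k, {y | c.a (g.T k y) = k + 1}.indicator
        (fun y => (P.cap y : ℝ≥0∞)⁻¹ * (rho ν g i x * (rho ν g k y * jj ν lam c (g.T k y) ^ p)))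
        (g.T i x) := by
    intro i hi
    have hAi := hA i hi
    have hcap : ((P.cap (g.T i x) : ℕ) : ℝ≥0∞) ≠ 0 := by
      exact_mod_cast cap_ne P hi.1
    have hfull : {l | c.a (g.T l (g.T i x)) = l + 1}.ncard = P.cap (g.T i x) := hAi.2.2
    have hKf := fin_a c (g.T i x)
    set K := {l | c.a (g.T l (g.T i x)) = l + 1} with hK
    have hb : ∀ k ∈ hKf.toFinset, (P.cap (g.T i x) : ℝ≥0∞)⁻¹ * (jj ν lam c x - lam) ^ p ≤
        (C ^ 2) ^ (p - 1) * {y | c.a (g.T k y) = k + 1}.indicator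
        (fun y => (P.cap y : ℝ≥0∞)⁻¹ * (rho ν g i x * (rho ν g k y * jj ν lam c (g.T k y) ^ p)))
        (g.T i x) := by
      intro k hk
      have hk' : c.a (g.T k (g.T i x)) = k + 1 := by
        rw [Set.Finite.mem_toFinset] at hk
        exact hk
      rw [indicator_of_mem (show g.T i x ∈ {y | c.a (g.T k y) = k + 1} from hk')]
      have h3 := pw hp (hx1 i) (hx2 i k) (tsub_le_iff_left.2 (hJ3 x i k hAi hk'))
      calc (P.cap (g.T i x) : ℝ≥0∞)⁻¹ * (jj ν lam c x - lam) ^ p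
          ≤ (P.cap (g.T i x) : ℝ≥0∞)⁻¹ * ((C ^ 2) ^ (p - 1) * (rho ν g i x *
            (rho ν g k (g.T i x) * jj ν lam c (g.T k (g.T i x)) ^ p))) := by gcongr
        _ = _ := by ring
    calc (jj ν lam c x - lam) ^ p
        = ∑ _k ∈ hKf.toFinset, (P.cap (g.T i x) : ℝ≥0∞)⁻¹ * (jj ν lam c x - lam) ^ p := by
          rw [Finset.sum_const, nsmul_eq_mul, ← Set.ncard_eq_toFinset_card _ hKf, hfull,
            ← mul_assoc, ENNReal.mul_inv_cancel hcap (ENNReal.natCast_ne_top _), one_mul]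
      _ ≤ ∑ k ∈ hKf.toFinset, (C ^ 2) ^ (p - 1) * {y | c.a (g.T k y) = k + 1}.indicator
          (fun y => (P.cap y : ℝ≥0∞)⁻¹ *
            (rho ν g i x * (rho ν g k y * jj ν lam c (g.T k y) ^ p))) (g.T i x) :=
          Finset.sum_le_sum hb
      _ = (C ^ 2) ^ (p - 1) * ∑ k ∈ hKf.toFinset, {y | c.a (g.T k y) = k + 1}.indicator
          (fun y => (P.cap y : ℝ≥0∞)⁻¹ *
            (rho ν g i x * (rho ν g k y * jj ν lam c (g.T k y) ^ p))) (g.T i x) := by
          rw [Finset.mul_sum]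
      _ ≤ _ := by
          gcongr
          exact ENNReal.sum_le_tsum _
  calc ((if c.a x = 0 then q + 1 else q : ℕ) : ℝ≥0∞) * (jj ν lam c x - lam) ^ p
      = ∑ _i ∈ hSf.toFinset, (jj ν lam c x - lam) ^ p := by
        rw [Finset.sum_const, nsmul_eq_mul, ← Set.ncard_eq_toFinset_card _ hSf, hSc]
    _ ≤ ∑ i ∈ hSf.toFinset, (C ^ 2) ^ (p - 1) * (Ai c i).indicator
        (fun x => ∑' k, {y | c.a (g.T k y) = k + 1}.indicator
        (fun y => (P.cap y : ℝ≥0∞)⁻¹ * (rho ν g i x * (rho ν g k y *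
          jj ν lam c (g.T k y) ^ p))) (g.T i x)) x := by
        refine Finset.sum_le_sum fun i hi => ?_
        have hi' : i ∈ S := by rwa [Set.Finite.mem_toFinset] at hi
        rw [indicator_of_mem (hA i hi')]
        exact hin i hi'
    _ = (C ^ 2) ^ (p - 1) * ∑ i ∈ hSf.toFinset, (Ai c i).indicator
        (fun x => ∑' k, {y | c.a (g.T k y) = k + 1}.indicator
        (fun y => (P.cap y : ℝ≥0∞)⁻¹ * (rho ν g i x * (rho ν g k y *
          jj ν lam c (g.T k y) ^ p))) (g.T i x)) x := by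
        rw [Finset.mul_sum]
    _ ≤ _ := by
        gcongr
        exact ENNReal.sum_le_tsum _

end Pool.Agent.BGL
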