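import Pool.Agent.BGL.Targets

set_option autoImplicit false

/-! MP_fff3e1_lc, B3: cutting a loop out of a chain. -/

namespace Pool.Agent.BGL

open MeasureTheory Set Filter
open scoped ENNReal
open Pool.Agent.MEC

universe u

namespace SHO_

variable {V : Type u} [MeasurableSpace V] {G : SimpleGraph V} {Δ : ℕ}

lemma pt_zero (g : Gen G Δ) (w : List (ℕ × ℕ)) (x : V) : pt g w 0 x = x := by
  cases w <;> rfl

lemma pt_cons_succ (g : Gen G Δ) (p : ℕ × ℕ) (w : List (ℕ × ℕ)) (m : ℕ) (x : V) :
    pt g (p :: w) (m + 1) x = pt g w m (g.T p.2 (g.T p.1 x)) := rfl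

lemma pt_take (g : Gen G Δ) (u : List (ℕ × ℕ)) (w : List (ℕ × ℕ)) :
    ∀ (m l : ℕ) (x : V), l ≤ m → m ≤ w.length → pt g (w.take m ++ u) l x = pt g w l x := by
  induction w with
  | nil =>
    intro m l x hl hm
    have h0 : m = 0 := by simpa using hm
    have h1 : l = 0 := by omega
    subst h1
    simp [pt_zero]
  | cons p w ih =>
    intro m l x hl hm
    cases l with
    | zero => simp [pt_zero]
    | succ l =>
      cases m with
      | zero => omega
      | succ m =>
        have h1 : m ≤ w.length := by simpa using hm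
        rw [List.take_succ_cons, List.cons_append, pt_cons_succ, pt_cons_succ]
        exact ih m l _ (by omega) h1

lemma pt_add (g : Gen G Δ) (u : List (ℕ × ℕ)) (w : List (ℕ × ℕ)) :
    ∀ (l : ℕ) (x : V), pt g (w ++ u) (w.length + l) x = pt g u l (pt g w w.length x) := by
  induction w with
  | nil => intro l x; simp [pt_zero]
  | cons p w ih =>
    intro l x
    have h : (p :: w).length + l = (w.length + l) + 1 := by simp; omega
    rw [h, List.cons_append, pt_cons_succ, ih]
    rfl

/-- the points after position `m` -/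
lemma pt_drop (g : Gen G Δ) (w : List (ℕ × ℕ)) (m l : ℕ) (x : V) (hm : m ≤ w.length) :
    pt g w (m + l) x = pt g (w.drop m) l (pt g w m x) := by
  have h1 : (w.take m).length = m := by simp [hm]
  have h2 := pt_add g (w.drop m) (w.take m) l x
  rw [List.take_append_drop, h1] at h2
  rw [h2]
  congr 1
  have h3 := pt_take g [] w m m x le_rfl hm
  rwa [List.append_nil] at h3

lemma pt_new (g : Gen G Δ) (u w : List (ℕ × ℕ)) (m l : ℕ) (x : V) (hm : m ≤ w.length) :
    pt g (w.take m ++ u) (m + l) x = pt g u l (pt g w m x) := by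
  have h1 : (w.take m).length = m := by simp [hm]
  have h2 := pt_add g u (w.take m) l x
  rw [h1] at h2
  rw [h2]
  congr 1
  have h3 := pt_take g [] w m m x le_rfl hm
  rwa [List.append_nil] at h3

lemma adm_drop {g : Gen G Δ} {q : ℕ} {P : APB g q} (c : Asg P) (e : Option ℕ)
    (w : List (ℕ × ℕ)) : ∀ (m : ℕ) (x : V), m ≤ w.length → Adm c w e x →
    Adm c (w.drop m) e (pt g w m x) := by
  induction w with
  | nil =>
    intro m x hm h
    have h0 : m = 0 := by simpa using hm
    subst h0
    simpa [pt_zero] using h
  | cons p w ih =>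
    intro m x hm h
    cases m with
    | zero => simpa [pt_zero] using h
    | succ m =>
      rw [List.drop_succ_cons, pt_cons_succ]
      exact ih m _ (by simpa using hm) h.2.2.2.2

lemma adm_replace {g : Gen G Δ} {q : ℕ} {P : APB g q} (c : Asg P) (e : Option ℕ)
    (u : List (ℕ × ℕ)) (w : List (ℕ × ℕ)) : ∀ (m : ℕ) (x : V), m ≤ w.length → Adm c w e x →
    Adm c u e (pt g w m x) → Adm c (w.take m ++ u) e x := by
  induction w with
  | nil =>
    intro m x hm h hu
    have h0 : m = 0 := by simpa using hm
    subst h0
    simpa [pt_zero] using hu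
  | cons p w ih =>
    intro m x hm h hu
    cases m with
    | zero => simpa [pt_zero] using hu
    | succ m =>
      rw [List.take_succ_cons, List.cons_append]
      rw [pt_cons_succ] at hu
      exact ⟨h.1, h.2.1, h.2.2.1, h.2.2.2.1, ih m _ (by simpa using hm) h.2.2.2.2 hu⟩

end SHO_

open SHO_

theorem pSHO (h1 : tCST.{u}) (h2 : tMEA.{u}) : tSHO.{u} := by
  intro V _ _ G Δ g q P c ν _ C lam w e m m' hq hmm hm'
  have hm : m ≤ w.length := by omega
  set w' : List (ℕ × ℕ) := w.take m ++ w.drop m' with hw'
  obtain ⟨k, hk⟩ : ∃ k, w.length = m' + k := ⟨w.length - m', by omega⟩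
  have hlen : w'.length = m + k := by
    rw [hw', List.length_append, List.length_take, List.length_drop]
    omega
  obtain ⟨-, hM, -, -, -⟩ := h2 V G Δ g q P c ν lam
  set E : Set V := {x | pt g w m x = pt g w m' x} with hE
  have hEm : MeasurableSet E := measurableSet_eq_fun (pt g w m).measurable (pt g w m').measurable
  set D : Set V := E ∩ {x | Adm c w e x} with hD
  have hDm : MeasurableSet D := hEm.inter (hM w e).1
  -- images
  have him1 : ∀ B : Set V, ∀ l, l ≤ m → pt g w' l '' B = pt g w l '' B := by
    intro B l hl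
    apply image_congr
    intro x _
    exact pt_take g _ w m l x hl hm
  have him2 : ∀ B : Set V, B ⊆ E → ∀ l, pt g w' (m + l) '' B = pt g w (m' + l) '' B := by
    intro B hB l
    apply image_congr
    intro x hx
    have hx' : pt g w m x = pt g w m' x := hB hx
    rw [hw', pt_new g _ w m l x hm, pt_drop g w m' l x hm', hx']
  have hcost : ∀ B : Set V, MeasurableSet B → B ⊆ E →
      ∫⁻ x in B, wt ν g lam w' e x ∂ν ≤ ∫⁻ x in B, wt ν g lam w e x ∂ν := by
    intro B hB hBE
    rw [h1 V G Δ g ν C lam w' e B hq hB, h1 V G Δ g ν C lam w e B hq hB, hlen, hk]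
    apply add_le_add
    · apply mul_le_mul_right
      rw [show m + k + 1 = m + (k + 1) by ring, show m' + k + 1 = m' + (k + 1) by ring,
        Finset.sum_range_add _ m (k + 1), Finset.sum_range_add _ m' (k + 1)]
      apply add_le_add
      · calc ∑ l ∈ Finset.range m, ν (pt g w' l '' B)
            = ∑ l ∈ Finset.range m, ν (pt g w l '' B) := by
              apply Finset.sum_congr rfl
              intro l hl
              rw [him1 B l (Finset.mem_range.1 hl).le]
          _ ≤ ∑ l ∈ Finset.range m', ν (pt g w l '' B) :=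
              Finset.sum_le_sum_of_subset (Finset.range_subset_range.2 hmm.le)
      · apply le_of_eq
        apply Finset.sum_congr rfl
        intro l _
        rw [him2 B hBE l]
    · rw [him2 B hBE k]
  have hae : wt ν g lam w' e ≤ᵐ[ν.restrict D] wt ν g lam w e := by
    apply ae_le_of_forall_setLIntegral_le_of_sigmaFinite (hM w' e).2.1
    intro s hs _
    rw [Measure.restrict_restrict hs]
    exact hcost _ (hs.inter hDm) (fun x hx => hx.2.1)
  rw [Filter.EventuallyLE, ae_restrict_iff' hDm] at hae
  filter_upwards [hae] with x hx hxE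
  by_cases hA : Adm c w e x
  · have hA' : Adm c w' e x := by
      apply adm_replace c e _ w m x hm hA
      have h3 := adm_drop c e w m' x hm' hA
      rwa [hxE]
    rw [val, val, if_pos hA, if_pos hA']
    exact hx ⟨hxE, hA⟩
  · rw [val, val, if_neg hA]
    exact le_top

end Pool.Agent.BGL
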