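import Pool.Agent.BGL.Targets

set_option autoImplicit false

/-! BGL-SPL: splitting into pieces with disjoint images. -/

namespace Pool.Agent.BGL

open MeasureTheory Set Filter
open scoped ENNReal

universe u

namespace SPL_

/-- The pieces. -/
def QQ {V : Type u} (e : V → ℝ) (n : ℕ) (f : ℕ → V → V) (i : ℕ × (Fin (n + 1) → ℤ)) : Set V :=
  {x | (∀ m m', m < m' → m' ≤ n → 1 / ((i.1 : ℝ) + 1) < |e (f m x) - e (f m' x)|) ∧
    ∀ m : Fin (n + 1), ⌊((i.1 : ℝ) + 1) * e (f m x)⌋ = i.2 m}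

lemma measurable_QQ {V : Type u} [MeasurableSpace V] (e : V → ℝ) (he : Measurable e) (n : ℕ)
    (f : ℕ → V → V) (hf : ∀ m, Measurable (f m)) (i : ℕ × (Fin (n + 1) → ℤ)) :
    MeasurableSet (QQ e n f i) := by
  have hset : QQ e n f i = (⋂ m : ℕ, ⋂ m' : ℕ, ⋂ _ : m < m', ⋂ _ : m' ≤ n,
      {x | 1 / ((i.1 : ℝ) + 1) < |e (f m x) - e (f m' x)|}) ∩
      ⋂ m : Fin (n + 1), {x | ⌊((i.1 : ℝ) + 1) * e (f m x)⌋ = i.2 m} := by
    ext x
    simp only [QQ, mem_ofPred_eq, mem_inter_iff, mem_iInter]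
  rw [hset]
  refine MeasurableSet.inter ?_ ?_
  · refine MeasurableSet.iInter fun m => MeasurableSet.iInter fun m' =>
      MeasurableSet.iInter fun _ => MeasurableSet.iInter fun _ => ?_
    refine measurableSet_lt measurable_const ?_
    exact measurable_norm.comp ((he.comp (hf m)).sub (he.comp (hf m')))
  · refine MeasurableSet.iInter fun m => ?_
    have h1 : Measurable fun x => ⌊((i.1 : ℝ) + 1) * e (f m x)⌋ :=
      Int.measurable_floor.comp ((he.comp (hf m)).const_mul _)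
    exact h1 (measurableSet_singleton (i.2 m))

lemma exists_QQ {V : Type u} (e : V → ℝ) (he : Function.Injective e) (n : ℕ) (f : ℕ → V → V)
    (x : V) (hx : ∀ m m', m < m' → m' ≤ n → f m x ≠ f m' x) : ∃ i, x ∈ QQ e n f i := by
  have h1 : ∀ᶠ j : ℕ in atTop, ∀ p ∈ (Finset.range (n + 1) ×ˢ Finset.range (n + 1)).filter
      (fun p => p.1 < p.2), 1 / ((j : ℝ) + 1) < |e (f p.1 x) - e (f p.2 x)| := by
    rw [Filter.eventually_all_finset]
    intro p hp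
    obtain ⟨hp1, hp2⟩ := Finset.mem_filter.1 hp
    have h2 := (Finset.mem_product.1 hp1).2
    have h3 : f p.1 x ≠ f p.2 x := hx p.1 p.2 hp2 (by
      have := Finset.mem_range.1 h2
      omega)
    have h4 : 0 < |e (f p.1 x) - e (f p.2 x)| :=
      abs_pos.2 (sub_ne_zero.2 fun h => h3 (he h))
    exact (tendsto_one_div_add_atTop_nhds_zero_nat (𝕜 := ℝ)).eventually (gt_mem_nhds h4)
  obtain ⟨j, hj⟩ := h1.exists
  refine ⟨(j, fun m => ⌊((j : ℝ) + 1) * e (f m x)⌋), fun m m' hm hm' => ?_, fun m => rfl⟩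
  refine hj (m, m') (Finset.mem_filter.2 ⟨Finset.mem_product.2 ⟨?_, ?_⟩, hm⟩)
  · exact Finset.mem_range.2 (by change m < n + 1; omega)
  · exact Finset.mem_range.2 (by change m' < n + 1; omega)

lemma disjoint_QQ {V : Type u} (e : V → ℝ) (n : ℕ) (f : ℕ → V → V)
    (i : ℕ × (Fin (n + 1) → ℤ)) (m m' : ℕ) (hm : m < m') (hm' : m' ≤ n) :
    Disjoint (f m '' QQ e n f i) (f m' '' QQ e n f i) := by
  rw [Set.disjoint_left]
  rintro _ ⟨x, hx, rfl⟩ ⟨x', hx', hxx⟩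
  have hj : (0 : ℝ) < (i.1 : ℝ) + 1 := by positivity
  have a1 : ⌊((i.1 : ℝ) + 1) * e (f m x)⌋ = i.2 ⟨m, by omega⟩ := hx.2 ⟨m, by omega⟩
  have a2 : ⌊((i.1 : ℝ) + 1) * e (f m' x)⌋ = i.2 ⟨m', by omega⟩ := hx.2 ⟨m', by omega⟩
  have a3 : ⌊((i.1 : ℝ) + 1) * e (f m' x')⌋ = i.2 ⟨m', by omega⟩ := hx'.2 ⟨m', by omega⟩
  have a4 : ⌊((i.1 : ℝ) + 1) * e (f m x)⌋ = ⌊((i.1 : ℝ) + 1) * e (f m' x)⌋ := by
    rw [a2, ← a3, hxx]
  have a5 := Int.abs_sub_lt_one_of_floor_eq_floor a4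
  rw [← mul_sub, abs_mul, abs_of_pos hj] at a5
  have a6 := hx.1 m m' hm hm'
  rw [div_lt_iff₀ hj] at a6
  linarith

end SPL_

open SPL_

theorem pSPL : tSPL.{u} := by
  intro V _ _ n f hf
  obtain ⟨s, hs⟩ := exists_surjective_nat (ℕ × (Fin (n + 1) → ℤ))
  have he : MeasurableEmbedding (embeddingReal V) := measurableEmbedding_embeddingReal V
  refine ⟨fun j => QQ (embeddingReal V) n f (s j), fun j => ?_, fun x hx => ?_,
    fun j m m' hm hm' => ?_⟩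
  · exact measurable_QQ _ he.measurable n f hf _
  · obtain ⟨i, hi⟩ := exists_QQ _ he.injective n f x hx
    obtain ⟨j, rfl⟩ := hs i
    exact ⟨j, hi⟩
  · exact disjoint_QQ _ n f _ m m' hm hm'

end Pool.Agent.BGL
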