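import Pool.Agent.BGL.Targets

set_option autoImplicit false
set_option linter.unusedSectionVars false

/-! MP_fff3e1_lc, target STM: measurable stable matchings by deferred acceptance. -/

namespace Pool.Agent.BGL

open MeasureTheory Set Filter
open scoped ENNReal
open Pool.Agent.MEC

universe u

namespace STM_

/-- a finite nonempty set of indices has a best element -/
lemma best {lt : ℕ → ℕ → Prop} (htr : ∀ a b c, lt a b → lt b c → lt a c)
    (htot : ∀ a b, a ≠ b → lt a b ∨ lt b a) {S : Set ℕ} (hS : S.Finite) (hne : S.Nonempty) :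
    ∃ m ∈ S, ∀ k ∈ S, k ≠ m → lt m k := by
  induction S, hS using Set.Finite.induction_on with
  | empty => exact absurd hne (by simp)
  | @insert a S ha hS ih =>
    by_cases hSn : S.Nonempty
    · obtain ⟨m, hm, hb⟩ := ih hSn
      have hne : a ≠ m := fun h => ha (h ▸ hm)
      rcases htot a m hne with h | h
      · refine ⟨a, mem_insert _ _, fun k hk hka => ?_⟩
        rcases mem_insert_iff.1 hk with rfl | hk
        · exact absurd rfl hka
        · by_cases hkm : k = m
          · rw [hkm]; exact h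
          · exact htr _ _ _ h (hb k hk hkm)
      · refine ⟨m, mem_insert_of_mem _ hm, fun k hk hkm => ?_⟩
        rcases mem_insert_iff.1 hk with rfl | hk
        · exact h
        · exact hb k hk hkm
    · rw [Set.not_nonempty_iff_eq_empty] at hSn
      refine ⟨a, mem_insert _ _, fun k hk hka => ?_⟩
      rcases mem_insert_iff.1 hk with rfl | hk
      · exact absurd rfl hka
      · rw [hSn] at hk; exact absurd hk (by simp)

variable {V : Type u} [MeasurableSpace V] {G : SimpleGraph V} {Δ : ℕ}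

lemma bt_trans (r : ℕ → V → ℕ) (x : V) (a b c : ℕ) : bt r x a b → bt r x b c → bt r x a c := by
  unfold bt; omega

lemma bt_total (r : ℕ → V → ℕ) (x : V) (a b : ℕ) : a ≠ b → bt r x a b ∨ bt r x b a := by
  unfold bt; omega

lemma bt_asymm (r : ℕ → V → ℕ) (x : V) (a b : ℕ) : bt r x a b → ¬ bt r x b a := by
  unfold bt; omega

lemma bh_trans (g : Gen G Δ) (r : ℕ → V → ℕ) (y : V) (a b c : ℕ) :
    bh g r y a b → bh g r y b c → bh g r y a c := by
  unfold bh; omega

lemma bh_total (g : Gen G Δ) (r : ℕ → V → ℕ) (y : V) (a b : ℕ) :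
    a ≠ b → bh g r y a b ∨ bh g r y b a := by
  unfold bh; omega

lemma bh_asymm (g : Gen G Δ) (r : ℕ → V → ℕ) (y : V) (a b : ℕ) :
    bh g r y a b → ¬ bh g r y b a := by
  unfold bh; omega

/-- the tail `x` proposes along the edge `i`, the edges in `D` being rejected -/
def Pr (L : ℕ → Set V) (r : ℕ → V → ℕ) (D : ℕ → Set V) (x : V) (i : ℕ) : Prop :=
  x ∈ L i ∧ x ∉ D i ∧ ∀ k, x ∈ L k → x ∉ D k → k ≠ i → bt r x i k

lemma Pr_unique {L : ℕ → Set V} {r : ℕ → V → ℕ} {D : ℕ → Set V} {x : V} {i k : ℕ}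
    (hi : Pr L r D x i) (hk : Pr L r D x k) : i = k := by
  by_contra hne
  have h1 := hi.2.2 k hk.1 hk.2.1 (Ne.symm hne)
  have h2 := hk.2.2 i hi.1 hi.2.1 hne
  exact bt_asymm r x i k h1 h2

/-- the next rejected sets -/
def nx (g : Gen G Δ) (L : ℕ → Set V) (r : ℕ → V → ℕ) (D : ℕ → Set V) (i : ℕ) : Set V :=
  D i ∪ {x | Pr L r D x i ∧ ∃ k, Pr L r D (g.T k (g.T i x)) k ∧ bh g r (g.T i x) k i}

/-- the rejected sets -/
def Rj (g : Gen G Δ) (L : ℕ → Set V) (r : ℕ → V → ℕ) : ℕ → ℕ → Set V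
  | 0 => fun _ => ∅
  | n + 1 => nx g L r (Rj g L r n)

/-- all rejections -/
def RU (g : Gen G Δ) (L : ℕ → Set V) (r : ℕ → V → ℕ) (i : ℕ) : Set V := ⋃ n, Rj g L r n i

lemma Rj_mono (g : Gen G Δ) (L : ℕ → Set V) (r : ℕ → V → ℕ) {n n' : ℕ} (h : n ≤ n') (i : ℕ) :
    Rj g L r n i ⊆ Rj g L r n' i := by
  induction h with
  | refl => exact Subset.rfl
  | step _ ih => exact ih.trans subset_union_left

lemma meas_bt {r : ℕ → V → ℕ} (hr : ∀ i, Measurable (r i)) (i k : ℕ) :
    MeasurableSet {x | bt r x i k} := by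
  unfold bt
  exact (measurableSet_lt (hr i) (hr k)).union
    ((measurableSet_eq_fun (hr i) (hr k)).inter (MeasurableSet.const _))

lemma meas_Pr {L : ℕ → Set V} {r : ℕ → V → ℕ} {D : ℕ → Set V} (hL : ∀ i, MeasurableSet (L i))
    (hr : ∀ i, Measurable (r i)) (hD : ∀ i, MeasurableSet (D i)) (i : ℕ) :
    MeasurableSet {x | Pr L r D x i} := by
  have h : {x | Pr L r D x i} = L i ∩ ((D i)ᶜ ∩ ⋂ k, ((L k)ᶜ ∪ (D k ∪ ({x | k = i} ∪
      {x | bt r x i k})))) := by
    ext x
    simp only [Pr, mem_ofPred_eq, mem_inter_iff, mem_compl_iff, mem_iInter, mem_union]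
    constructor
    · rintro ⟨h1, h2, h3⟩
      refine ⟨h1, h2, fun k => ?_⟩
      by_cases hk1 : x ∈ L k
      · by_cases hk2 : x ∈ D k
        · exact Or.inr (Or.inl hk2)
        · by_cases hk3 : k = i
          · exact Or.inr (Or.inr (Or.inl hk3))
          · exact Or.inr (Or.inr (Or.inr (h3 k hk1 hk2 hk3)))
      · exact Or.inl hk1
    · rintro ⟨h1, h2, h3⟩
      refine ⟨h1, h2, fun k hk1 hk2 hk3 => ?_⟩
      rcases h3 k with h | h | h | h
      · exact absurd hk1 h
      · exact absurd h hk2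
      · exact absurd h hk3
      · exact h
  rw [h]
  refine (hL i).inter ((hD i).compl.inter (MeasurableSet.iInter fun k => ?_))
  exact (hL k).compl.union ((hD k).union ((MeasurableSet.const _).union (meas_bt hr i k)))

lemma meas_bh (g : Gen G Δ) {r : ℕ → V → ℕ} (hr : ∀ i, Measurable (r i)) (k i : ℕ) :
    MeasurableSet {y | bh g r y k i} := by
  unfold bh
  have h1 : ∀ j, Measurable fun y => r j (g.T j y) := fun j => (hr j).comp (g.meas j)
  exact (measurableSet_lt (h1 i) (h1 k)).union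
    ((measurableSet_eq_fun (h1 k) (h1 i)).inter (MeasurableSet.const _))

lemma meas_nx (g : Gen G Δ) {L : ℕ → Set V} {r : ℕ → V → ℕ} {D : ℕ → Set V}
    (hL : ∀ i, MeasurableSet (L i)) (hr : ∀ i, Measurable (r i)) (hD : ∀ i, MeasurableSet (D i))
    (i : ℕ) : MeasurableSet (nx g L r D i) := by
  have h : nx g L r D i = D i ∪ ({x | Pr L r D x i} ∩ ⋃ k, (g.T i ⁻¹' (g.T k ⁻¹'
      {z | Pr L r D z k} ∩ {y | bh g r y k i}))) := by
    ext x
    simp only [nx, mem_union, mem_ofPred_eq, mem_inter_iff, mem_iUnion, mem_preimage]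
  rw [h]
  refine (hD i).union ((meas_Pr hL hr hD i).inter (MeasurableSet.iUnion fun k => ?_))
  exact g.meas i ((g.meas k (meas_Pr hL hr hD k)).inter (meas_bh g hr k i))

lemma meas_Rj (g : Gen G Δ) {L : ℕ → Set V} {r : ℕ → V → ℕ}
    (hL : ∀ i, MeasurableSet (L i)) (hr : ∀ i, Measurable (r i)) (n : ℕ) :
    ∀ i, MeasurableSet (Rj g L r n i) := by
  induction n with
  | zero => intro i; exact MeasurableSet.empty
  | succ n ih => intro i; exact meas_nx g hL hr ih i

lemma fin_ne (g : Gen G Δ) (x : V) : {i | g.T i x ≠ x}.Finite := by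
  by_contra hinf
  obtain ⟨s, hs1, hs2⟩ := Set.Infinite.exists_subset_card_eq hinf (Δ + 1)
  have := g.card x s (fun i hi => hs1 hi)
  omega

/-- late stages agree with the union on finitely many points -/
lemma late (g : Gen G Δ) {L : ℕ → Set V} (r : ℕ → V → ℕ)
    (hne : ∀ i x, x ∈ L i → g.T i x ≠ x) (x : V) :
    ∃ N, ∀ n, N ≤ n → ∀ i, Pr L r (Rj g L r n) x i ↔ Pr L r (RU g L r) x i := by
  have hfin : {i | g.T i x ≠ x}.Finite := fin_ne g x
  have h1 : ∀ i, ∃ N, ∀ n, N ≤ n → (x ∈ Rj g L r n i ↔ x ∈ RU g L r i) := by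
    intro i
    by_cases hx : x ∈ RU g L r i
    · obtain ⟨N, hN⟩ := mem_iUnion.1 hx
      exact ⟨N, fun n hn => ⟨fun _ => hx, fun _ => Rj_mono g L r hn i hN⟩⟩
    · exact ⟨0, fun n _ => ⟨fun h => mem_iUnion.2 ⟨n, h⟩, fun h => absurd h hx⟩⟩
  choose N hN using h1
  refine ⟨hfin.toFinset.sup N, fun n hn i => ?_⟩
  have h2 : ∀ k, x ∈ L k → (x ∈ Rj g L r n k ↔ x ∈ RU g L r k) := by
    intro k hk
    apply hN k n
    refine le_trans ?_ hn
    exact Finset.le_sup (f := N) (hfin.mem_toFinset.2 (hne k x hk))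
  unfold Pr
  constructor
  · rintro ⟨ha, hb, hc⟩
    exact ⟨ha, fun h => hb ((h2 i ha).2 h), fun k hk1 hk2 hk3 => hc k hk1
      (fun h => hk2 ((h2 k hk1).1 h)) hk3⟩
  · rintro ⟨ha, hb, hc⟩
    exact ⟨ha, fun h => hb ((h2 i ha).1 h), fun k hk1 hk2 hk3 => hc k hk1
      (fun h => hk2 ((h2 k hk1).2 h)) hk3⟩

/-- a head which has a proposal better than `i` keeps one -/
lemma keep (g : Gen G Δ) {L : ℕ → Set V} (r : ℕ → V → ℕ)
    (hne : ∀ i x, x ∈ L i → g.T i x ≠ x) (y : V) (i n : ℕ)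
    (h : ∃ k, Pr L r (Rj g L r n) (g.T k y) k ∧ bh g r y k i) :
    ∃ k, Pr L r (Rj g L r (n + 1)) (g.T k y) k ∧ bh g r y k i := by
  have hS : {k | Pr L r (Rj g L r n) (g.T k y) k}.Finite := by
    refine (fin_ne g y).subset fun k hk => ?_
    have h1 := hne k _ hk.1
    rw [g.invol] at h1
    exact h1.symm
  obtain ⟨k, hk1, hk2⟩ := h
  obtain ⟨k', hk', hb⟩ := best (bh_trans g r y) (bh_total g r y) hS ⟨k, hk1⟩
  have hbi : bh g r y k' i := by
    by_cases hkk : k = k'
    · rw [← hkk]; exact hk2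
    · exact bh_trans g r y _ _ _ (hb k hk1 hkk) hk2
  refine ⟨k', ?_, hbi⟩
  have hk'' : Pr L r (Rj g L r n) (g.T k' y) k' := hk'
  refine ⟨hk''.1, ?_, fun l hl1 hl2 hl3 => ?_⟩
  · intro hrej
    rcases hrej with hrej | ⟨-, l, hl1, hl2⟩
    · exact hk''.2.1 hrej
    · rw [g.invol] at hl1 hl2
      have hlk : l ≠ k' := by
        rintro rfl
        exact bh_asymm g r y _ _ hl2 hl2
      exact bh_asymm g r y _ _ hl2 (hb l hl1 hlk)
  · exact hk''.2.2 l hl1 (fun h => hl2 (Rj_mono g L r (Nat.le_succ n) l h)) hl3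

lemma keep' (g : Gen G Δ) {L : ℕ → Set V} (r : ℕ → V → ℕ)
    (hne : ∀ i x, x ∈ L i → g.T i x ≠ x) (y : V) (i : ℕ) {n n' : ℕ} (hn : n ≤ n')
    (h : ∃ k, Pr L r (Rj g L r n) (g.T k y) k ∧ bh g r y k i) :
    ∃ k, Pr L r (Rj g L r n') (g.T k y) k ∧ bh g r y k i := by
  induction hn with
  | refl => exact h
  | step _ ih => exact keep g r hne y i _ ih

open Classical in
/-- the matching -/
noncomputable def mm (g : Gen G Δ) (L : ℕ → Set V) (r : ℕ → V → ℕ) (x : V) : ℕ :=
  if h : ∃ i, Pr L r (RU g L r) x i then h.choose + 1 else 0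

lemma mm_iff (g : Gen G Δ) (L : ℕ → Set V) (r : ℕ → V → ℕ) (x : V) (i : ℕ) :
    mm g L r x = i + 1 ↔ Pr L r (RU g L r) x i := by
  unfold mm
  by_cases h : ∃ i, Pr L r (RU g L r) x i
  · rw [dif_pos h]
    constructor
    · intro he
      have : h.choose = i := by omega
      rw [← this]; exact h.choose_spec
    · intro hi
      have := Pr_unique h.choose_spec hi
      omega
  · rw [dif_neg h]
    constructor
    · intro he; omega
    · intro hi; exact absurd ⟨i, hi⟩ h

lemma mm_meas (g : Gen G Δ) {L : ℕ → Set V} {r : ℕ → V → ℕ}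
    (hL : ∀ i, MeasurableSet (L i)) (hr : ∀ i, Measurable (r i)) : Measurable (mm g L r) := by
  have hRU : ∀ i, MeasurableSet (RU g L r i) := fun i =>
    MeasurableSet.iUnion fun n => meas_Rj g hL hr n i
  have h1 : ∀ i, MeasurableSet (mm g L r ⁻¹' {i + 1}) := by
    intro i
    have : mm g L r ⁻¹' {i + 1} = {x | Pr L r (RU g L r) x i} := by
      ext x
      simp only [mem_preimage, mem_singleton_iff, mem_ofPred_eq]
      exact mm_iff g L r x i
    rw [this]
    exact meas_Pr hL hr hRU i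
  refine measurable_to_countable' fun n => ?_
  cases n with
  | zero =>
    have : mm g L r ⁻¹' {0} = (⋃ i, mm g L r ⁻¹' {i + 1})ᶜ := by
      ext x
      simp only [mem_preimage, mem_singleton_iff, mem_compl_iff, mem_iUnion, not_exists]
      constructor
      · intro h i; omega
      · intro h
        by_contra h0
        obtain ⟨j, hj⟩ := Nat.exists_eq_succ_of_ne_zero h0
        exact h j hj
    rw [this]
    exact (MeasurableSet.iUnion h1).compl
  | succ i => exact h1 i

end STM_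

open STM_ in
/-- F1 stable matchings -/
theorem pSTM : tSTM.{u} := by
  intro V _ _ G Δ g L r hL hne hr
  refine ⟨mm g L r, mm_meas g hL hr, fun x i h => ((mm_iff g L r x i).1 h).1, ?_, ?_⟩
  · -- injectivity
    have key : ∀ y i k, mm g L r (g.T i y) = i + 1 → mm g L r (g.T k y) = k + 1 →
        ¬ bh g r y k i := by
      intro y i k hi hk hb
      rw [mm_iff] at hi hk
      obtain ⟨N1, hN1⟩ := late g r hne (g.T i y)
      obtain ⟨N2, hN2⟩ := late g r hne (g.T k y)
      have h1 := (hN1 (max N1 N2) (le_max_left _ _) i).2 hi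
      have h2 := (hN2 (max N1 N2) (le_max_right _ _) k).2 hk
      have h3 : g.T i y ∈ Rj g L r (max N1 N2 + 1) i := by
        refine Or.inr ⟨h1, k, ?_, ?_⟩
        · rw [g.invol]; exact h2
        · rw [g.invol]; exact hb
      exact hi.2.1 (mem_iUnion.2 ⟨_, h3⟩)
    intro y i k hi hk
    by_contra hik
    rcases bh_total g r y i k hik with h | h
    · exact key y k i hk hi h
    · exact key y i k hi hk h
  · -- stability
    intro x i hx
    by_cases hrej : x ∈ RU g L r i
    · right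
      obtain ⟨n, hn⟩ := mem_iUnion.1 hrej
      have hex : ∃ n, ∃ k, Pr L r (Rj g L r n) (g.T k (g.T i x)) k ∧ bh g r (g.T i x) k i := by
        clear hrej
        induction n with
        | zero => exact absurd hn (by simp [Rj])
        | succ n ih =>
          rcases hn with hn | ⟨-, hn⟩
          · exact ih hn
          · exact ⟨n, hn⟩
      obtain ⟨n, hn⟩ := hex
      -- late stages
      have hfin : {k | g.T k (g.T i x) ≠ g.T i x}.Finite := fin_ne g (g.T i x)
      choose N hN using fun k => late g r hne (g.T k (g.T i x))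
      obtain ⟨k, hk1, hk2⟩ := keep' g r hne (g.T i x) i
        (le_max_left n (hfin.toFinset.sup N)) hn
      refine ⟨k, ?_, hk2⟩
      rw [mm_iff]
      refine (hN k _ ?_ k).1 hk1
      refine le_trans ?_ (le_max_right _ _)
      refine Finset.le_sup (f := N) (hfin.mem_toFinset.2 ?_)
      have h1 := hne k _ hk1.1
      rw [g.invol] at h1
      exact h1.symm
    · left
      have hS : {k | x ∈ L k ∧ x ∉ RU g L r k}.Finite :=
        (fin_ne g x).subset fun k hk => hne k x hk.1
      obtain ⟨k, hk, hb⟩ := best (bt_trans r x) (bt_total r x) hS ⟨i, hx, hrej⟩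
      refine ⟨k, (mm_iff g L r x k).2 ⟨hk.1, hk.2, fun l h1 h2 h3 => hb l ⟨h1, h2⟩ h3⟩, ?_⟩
      by_cases hki : k = i
      · exact Or.inl hki
      · exact Or.inr (hb i ⟨hx, hrej⟩ (Ne.symm hki))

end Pool.Agent.BGL
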