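import Pool.Agent.BGL.Targets

set_option autoImplicit false

/-! MP_fff3e1_lc: one step of a chain. -/

namespace Pool.Agent.BGL

open MeasureTheory Set Filter
open scoped ENNReal
open Pool.Agent.MEC

universe u

namespace STP_

variable {V : Type u} [MeasurableSpace V] {G : SimpleGraph V} {Δ : ℕ}

lemma fin_moved (g : Gen G Δ) (y : V) : {l | g.T l y ≠ y}.Finite := by
  by_contra h
  have h' : {l | g.T l y ≠ y}.Infinite := h
  obtain ⟨s, hs, hc⟩ := h'.exists_subset_card_eq (Δ + 1)
  have := g.card y s (fun i hi => hs hi)
  omega

lemma fin_load {g : Gen G Δ} {q : ℕ} {P : APB g q} (c : Asg P) (y : V) :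
    {l | c.a (g.T l y) = l + 1}.Finite := by
  refine (fin_moved g y).subset fun l hl => ?_
  have h1 := P.mov l _ (c.mem _ l hl)
  rw [g.invol] at h1
  exact fun h => h1 h.symm

open Classical in
/-- the changed assignment function, first part -/
noncomputable def a1 {g : Gen G Δ} {q : ℕ} {P : APB g q} (c : Asg P) (B : Set V) (i k : ℕ) :
    V → ℕ :=
  fun x => if x ∈ B then i + 1 else if g.T i (g.T k x) ∈ B then 0 else c.a x

open Classical in
/-- the changed assignment function, second part -/
noncomputable def a2 {g : Gen G Δ} {q : ℕ} {P : APB g q} (c : Asg P) (B : Set V) (i : ℕ) :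
    V → ℕ :=
  fun x => if x ∈ B then i + 1 else c.a x

lemma load1 {g : Gen G Δ} {q : ℕ} {P : APB g q} (c : Asg P) (B : Set V) (i k : ℕ)
    (hB : ∀ x ∈ B, c.a x = 0 ∧ x ∈ P.R i) (hk : ∀ x ∈ B, c.a (g.T k (g.T i x)) = k + 1) (y : V) :
    {l | a1 c B i k (g.T l y) = l + 1}.ncard = {l | c.a (g.T l y) = l + 1}.ncard := by
  have key : ∀ l, g.T i (g.T k (g.T l y)) ∈ B → c.a (g.T l y) = k + 1 := by
    intro l hl
    have := hk _ hl
    rwa [g.invol, g.invol] at this
  by_cases hy : g.T i y ∈ B
  · have hkO : k ∈ {l | c.a (g.T l y) = l + 1} := by
      have := hk _ hy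
      rwa [g.invol] at this
    have hiO : i ∉ {l | c.a (g.T l y) = l + 1} := by
      intro h
      have h' : c.a (g.T i y) = i + 1 := h
      rw [(hB _ hy).1] at h'
      omega
    have hN : {l | a1 c B i k (g.T l y) = l + 1} =
        insert i ({l | c.a (g.T l y) = l + 1} \ {k}) := by
      ext l
      simp only [mem_setOf_eq, mem_insert_iff, mem_diff, mem_singleton_iff]
      unfold a1
      constructor
      · intro h
        split_ifs at h with h1 h2
        · left; omega
        · right
          refine ⟨h, ?_⟩
          rintro rfl
          apply h2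
          rwa [g.invol]
      · rintro (rfl | ⟨h, hlk⟩)
        · rw [if_pos hy]
        · have h1 : g.T l y ∉ B := by
            intro h1
            rw [(hB _ h1).1] at h
            omega
          have h2 : g.T i (g.T k (g.T l y)) ∉ B := by
            intro h2
            have := key l h2
            omega
          rw [if_neg h1, if_neg h2, h]
    rw [hN, ncard_insert_of_notMem (fun h => hiO h.1) ((fin_load c y).subset diff_subset),
      ncard_diff_singleton_add_one hkO (fin_load c y)]
  · congr 1
    ext l
    simp only [mem_setOf_eq]
    unfold a1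
    constructor
    · intro h
      split_ifs at h with h1 h2
      · exfalso
        have : l = i := by omega
        subst this
        exact hy h1
      · exact h
    · intro h
      have h1 : g.T l y ∉ B := by
        intro h1
        rw [(hB _ h1).1] at h
        omega
      have h2 : g.T i (g.T k (g.T l y)) ∉ B := by
        intro h2
        have h3 := key l h2
        have : l = k := by omega
        subst this
        rw [g.invol] at h2
        exact hy h2
      rw [if_neg h1, if_neg h2, h]

lemma load2 {g : Gen G Δ} {q : ℕ} {P : APB g q} (c : Asg P) (B : Set V) (i : ℕ)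
    (hB : ∀ x ∈ B, c.a x = 0 ∧ x ∈ P.R i) (hF : ∀ x ∈ B, ¬ Full c (g.T i x)) (y : V) :
    {l | a2 c B i (g.T l y) = l + 1}.ncard ≤ P.cap y := by
  by_cases hy : g.T i y ∈ B
  · have hN : {l | a2 c B i (g.T l y) = l + 1} ⊆ insert i {l | c.a (g.T l y) = l + 1} := by
      intro l h
      simp only [mem_setOf_eq] at h
      unfold a2 at h
      split_ifs at h with h1
      · left; omega
      · right; exact h
    have h1 := hF _ hy
    rw [g.invol] at h1
    have h2 := c.load y
    unfold Full at h1
    have h3 := ncard_le_ncard hN ((fin_load c y).insert i)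
    have h4 := ncard_insert_le i {l | c.a (g.T l y) = l + 1}
    omega
  · have hN : {l | a2 c B i (g.T l y) = l + 1} ⊆ {l | c.a (g.T l y) = l + 1} := by
      intro l h
      simp only [mem_setOf_eq] at h
      unfold a2 at h
      split_ifs at h with h1
      · exfalso
        have : l = i := by omega
        subst this
        exact hy h1
      · exact h
    exact (ncard_le_ncard hN (fin_load c y)).trans (c.load y)

end STP_

open STP_ in
theorem pSTP : tSTP.{u} := by
  intro V _ _ G Δ g q P c B i hBm hB
  constructor
  · intro k hk
    have hm : MeasurableSet {x | g.T i (g.T k x) ∈ B} := (g.meas i).comp (g.meas k) hBm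
    refine ⟨⟨a1 c B i k, ?_, ?_, ?_⟩, ?_, ?_, ?_, ?_⟩
    · unfold a1
      exact Measurable.ite hBm measurable_const (Measurable.ite hm measurable_const c.meas)
    · intro x l h
      unfold a1 at h
      split_ifs at h with h1 h2
      · have : l = i := by omega
        subst this
        exact (hB x h1).2
      · exact c.mem x l h
    · intro y
      rw [load1 c B i k hB hk y]
      exact c.load y
    · intro x hx
      change a1 c B i k x = i + 1
      unfold a1
      rw [if_pos hx]
    · intro x hx
      change a1 c B i k _ = 0
      unfold a1
      have h1 : g.T k (g.T i x) ∉ B := by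
        intro h1
        have h2 := (hB _ h1).1
        rw [hk x hx] at h2
        omega
      rw [if_neg h1, if_pos (by rw [g.invol, g.invol]; exact hx)]
    · intro x hx hx'
      change a1 c B i k x = c.a x
      unfold a1
      rw [if_neg hx, if_neg]
      intro h
      exact hx' ⟨_, h, by simp only [g.invol]⟩
    · intro y
      exact load1 c B i k hB hk y
  · intro hF
    refine ⟨⟨a2 c B i, ?_, ?_, ?_⟩, ?_, ?_⟩
    · unfold a2
      exact Measurable.ite hBm measurable_const c.meas
    · intro x l h
      unfold a2 at h
      split_ifs at h with h1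
      · have : l = i := by omega
        subst this
        exact (hB x h1).2
      · exact c.mem x l h
    · exact load2 c B i hB hF
    · intro x hx
      change a2 c B i x = i + 1
      unfold a2
      rw [if_pos hx]
    · intro x hx
      change a2 c B i x = c.a x
      unfold a2
      rw [if_neg hx]

end Pool.Agent.BGL
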