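import Pool.Agent.BGL.CNT
import Pool.Agent.BGL.CHV
import Pool.Agent.BGL.CST
import Pool.Agent.BGL.SPL
import Pool.Agent.BGL.MEA
import Pool.Agent.BGL.DEG
import Pool.Agent.BGL.STP
import Pool.Agent.BGL.MOD
import Pool.Agent.BGL.SHO
import Pool.Agent.BGL.IMP
import Pool.Agent.BGL.ONE
import Pool.Agent.BGL.JPR
import Pool.Agent.BGL.ROW
import Pool.Agent.BGL.COL
import Pool.Agent.BGL.POT
import Pool.Agent.BGL.EKA
import Pool.Agent.BGL.LIM
import Pool.Agent.BGL.ASG
import Pool.Agent.BGL.STE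
import Pool.Agent.BGL.NES
import Pool.Agent.BGL.RNK
import Pool.Agent.BGL.STM
import Pool.Agent.BGL.GAL
import Pool.Agent.BGL.PCO
import Pool.Agent.BGL.GRD
import Pool.Agent.BGL.FIN

set_option autoImplicit false

/-! MP_fff3e1_lc: assembly. -/

namespace Pool.Agent.BGL

universe u

theorem allCNT : tCNT.{u} := pCNT
theorem allDEG : tDEG.{u} := pDEG
theorem allMEA : tMEA.{u} := pMEA allCNT
theorem allCST : tCST.{u} := pCST pCHV
theorem allIMP : tIMP.{u} := pIMP (pMOD pSTP) allCST allMEA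
theorem allONE : tONE.{u} := pONE allIMP pSPL (pSHO allCST allMEA) allMEA
theorem allPOT : tPOT.{u} :=
  pPOT (pROW pJPR allMEA) (pCOL pCHV allMEA allCNT) allONE pJPR allMEA
theorem allASG : tASG.{u} := pASG allPOT pEKA pLIM
theorem allRNK : tRNK.{u} := pRNK (pNES (pSTE allASG allCNT allDEG) allDEG) allDEG allCNT
theorem allFIN : tFIN.{u} := pFIN allRNK (pGAL pSTM allDEG) pPCO (pGRD allDEG) allDEG

end Pool.Agent.BGL
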