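import Pool.Agent.BGL.Targets

set_option autoImplicit false

/-! Numbers of indices are measurable. -/

namespace Pool.Agent.BGL

open MeasureTheory Set Filter
open scoped ENNReal

universe u

namespace CNT_

theorem ncard_eq {V : Type u} (A : ℕ → Set V) (y : V) (h : {i | y ∈ A i}.Finite) :
    (({i | y ∈ A i}.ncard : ℕ) : ℝ≥0∞) = ∑' i, (A i).indicator (fun _ => (1 : ℝ≥0∞)) y := by
  rw [tsum_eq_sum (s := h.toFinset)]
  · rw [Finset.sum_congr rfl (g := fun _ => (1 : ℝ≥0∞))]
    · rw [Set.ncard_eq_toFinset_card _ h]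
      simp
    · intro i hi
      have hi' : y ∈ A i := by simpa using hi
      exact indicator_of_mem hi' _
  · intro i hi
    have hi' : y ∉ A i := by simpa using hi
    exact indicator_of_notMem hi' _

end CNT_

theorem pCNT : tCNT.{u} := by
  intro V _ A hA hfin
  have h1 : Measurable (fun y => (({i | y ∈ A i}.ncard : ℕ) : ℝ≥0∞)) := by
    have h2 : (fun y => (({i | y ∈ A i}.ncard : ℕ) : ℝ≥0∞)) =
        fun y => ∑' i, (A i).indicator (fun _ => (1 : ℝ≥0∞)) y :=
      funext fun y => CNT_.ncard_eq A y (hfin y)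
    rw [h2]
    exact Measurable.ennreal_tsum fun i => measurable_const.indicator (hA i)
  refine measurable_to_countable' fun n => ?_
  have h3 : (fun y => {i | y ∈ A i}.ncard) ⁻¹' {n} =
      (fun y => (({i | y ∈ A i}.ncard : ℕ) : ℝ≥0∞)) ⁻¹' {(n : ℝ≥0∞)} := by
    ext y
    simp only [mem_preimage, mem_singleton_iff, Nat.cast_inj]
  rw [h3]
  exact h1 (measurableSet_singleton _)

end Pool.Agent.BGL
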