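import Pool.Agent.MEC.Dens
import Pool.Agent.MEC.Complete
import Pool.Agent.MEC.Generators

set_option autoImplicit false

/-! MP_fff3e1_lc: Borel graphs whose vertices of degree `Δ` lie in an independent set.
Definitions.  Proofs: Blueprint.lean.txt. -/

namespace Pool.Agent.BGL

open MeasureTheory Set Filter
open scoped ENNReal
open Pool.Agent.MEC

universe u

variable {V : Type u} [MeasurableSpace V] {G : SimpleGraph V} {Δ : ℕ}

/-- An assignment problem on the edges listed by `g`.  The pair `(x, i)` with `x ∈ R i` is a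
candidate edge from the tail `x` to the head `g.T i x`.  Each tail has exactly `q + 1` candidates,
the head `y` is in at most `q * cap y` candidates. -/
structure APB (g : Gen G Δ) (q : ℕ) where
  R : ℕ → Set V
  cap : V → ℕ
  mR : ∀ i, MeasurableSet (R i)
  mcap : Measurable cap
  mov : ∀ i x, x ∈ R i → g.T i x ≠ x
  out : ∀ i x, x ∈ R i → {k | x ∈ R k}.ncard = q + 1
  inn : ∀ y, {k | g.T k y ∈ R k}.ncard ≤ q * cap y

/-- A measurable assignment: `a x = i + 1` means that the tail `x` uses its candidate `i`,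
`a x = 0` that it uses none. -/
structure Asg {g : Gen G Δ} {q : ℕ} (P : APB g q) where
  a : V → ℕ
  meas : Measurable a
  mem : ∀ x i, a x = i + 1 → x ∈ P.R i
  load : ∀ y, {i | a (g.T i y) = i + 1}.ncard ≤ P.cap y

/-- the tails which are not assigned -/
def Una {g : Gen G Δ} {q : ℕ} {P : APB g q} (c : Asg P) : Set V :=
  {x | (∃ i, x ∈ P.R i) ∧ c.a x = 0}

/-- `c` cannot be improved by a modification whose gain exceeds `lam` times its cost -/
def Opt (ν : Measure V) (lam : ℝ) {g : Gen G Δ} {q : ℕ} {P : APB g q} (c : Asg P) : Prop :=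
  ∀ c' : Asg P, ν.real (Una c) ≤ ν.real (Una c') + lam * ν.real {x | c.a x ≠ c'.a x}

/-- the head `y` uses its whole capacity -/
def Full {g : Gen G Δ} {q : ℕ} {P : APB g q} (c : Asg P) (y : V) : Prop :=
  {i | c.a (g.T i y) = i + 1}.ncard = P.cap y

/-- involution number `i` as an equivalence -/
noncomputable def Te (g : Gen G Δ) (i : ℕ) : V ≃ᵐ V := ofInvol (g.T i) (g.meas i) (g.invol i)

/-- density of `B ↦ ν (T i '' B)` -/
noncomputable def rho (ν : Measure V) (g : Gen G Δ) (i : ℕ) : V → ℝ≥0∞ := dens ν (Te g i)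

/-- the tails visited by a chain: `x, T k (T i x), …` -/
noncomputable def pt (g : Gen G Δ) : List (ℕ × ℕ) → ℕ → (V ≃ᵐ V)
  | [], _ => MeasurableEquiv.refl V
  | _ :: _, 0 => MeasurableEquiv.refl V
  | p :: w, m + 1 => ((Te g p.1).trans (Te g p.2)).trans (pt g w m)

/-- `(w, e)` is a chain of changes which starts at `x`: the tail `x` is moved to its candidate `i`,
whose head `y` is full, the tail `T k y` which was assigned to `y` is displaced, and so on; at the
end the last tail is moved to a head which is not full (`some i`) or is not assigned (`none`) -/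
def Adm {g : Gen G Δ} {q : ℕ} {P : APB g q} (c : Asg P) : List (ℕ × ℕ) → Option ℕ → V → Prop
  | [], none, _ => True
  | [], some i, x => x ∈ P.R i ∧ c.a x ≠ i + 1 ∧ ¬ Full c (g.T i x)
  | p :: w, e, x => x ∈ P.R p.1 ∧ c.a x ≠ p.1 + 1 ∧ Full c (g.T p.1 x) ∧
      c.a (g.T p.2 (g.T p.1 x)) = p.2 + 1 ∧ Adm c w e (g.T p.2 (g.T p.1 x))

/-- relative cost of the chain at `x` -/
noncomputable def wt (ν : Measure V) (g : Gen G Δ) (lam : ℝ≥0∞) :
    List (ℕ × ℕ) → Option ℕ → V → ℝ≥0∞
  | [], none, _ => lam + 1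
  | [], some _, _ => lam
  | p :: w, e, x => lam + rho ν g p.1 x * rho ν g p.2 (g.T p.1 x) *
      wt ν g lam w e (g.T p.2 (g.T p.1 x))

open Classical in
/-- cost of a chain, `⊤` if it is not admissible -/
noncomputable def val (ν : Measure V) (lam : ℝ≥0∞) {g : Gen G Δ} {q : ℕ} {P : APB g q}
    (c : Asg P) (w : List (ℕ × ℕ)) (e : Option ℕ) (x : V) : ℝ≥0∞ :=
  if Adm c w e x then wt ν g lam w e x else ⊤

/-- least cost -/
noncomputable def jj (ν : Measure V) (lam : ℝ≥0∞) {g : Gen G Δ} {q : ℕ} {P : APB g q}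
    (c : Asg P) (x : V) : ℝ≥0∞ :=
  ⨅ (w : List (ℕ × ℕ)) (e : Option ℕ), val ν lam c w e x

/-- the tails which can be moved to the full head `T i x` -/
def Ai {g : Gen G Δ} {q : ℕ} {P : APB g q} (c : Asg P) (i : ℕ) : Set V :=
  {x | x ∈ P.R i ∧ c.a x ≠ i + 1 ∧ Full c (g.T i x)}

/-- the sum over all neighbouring tails -/
noncomputable def FF (ν : Measure V) {g : Gen G Δ} {q : ℕ} {P : APB g q} (c : Asg P)
    (h : V → ℝ≥0∞) (x : V) : ℝ≥0∞ :=
  ∑' i, (Ai c i).indicator (fun x => ∑' k, {y | c.a (g.T k y) = k + 1}.indicator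
    (fun y => (P.cap y : ℝ≥0∞)⁻¹ * (rho ν g i x * (rho ν g k y * h (g.T k y)))) (g.T i x)) x

/-! ### Nested sets, ranks -/

/-- edges at the vertices of `U` -/
def HH (g : Gen G Δ) (U : Set V) (i : ℕ) : Set V := {x | x ∈ U ∧ g.T i x ≠ x}

/-- `U` is a measurable independent set, all other vertices have degree less than `Δ` -/
def OK (g : Gen G Δ) (U : Set V) : Prop :=
  MeasurableSet U ∧ (∀ x ∈ U, ∀ y ∈ U, ¬ G.Adj x y) ∧ ∀ y ∉ U, {i | g.T i y ≠ y}.ncard < Δ

/-- at the tail `x`, the edge `k` is better than the edge `i`: smaller rank, or equal rank and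
smaller index -/
def bt (r : ℕ → V → ℕ) (x : V) (k i : ℕ) : Prop := r k x < r i x ∨ (r k x = r i x ∧ k < i)

/-- at the head `y`, the edge `k` is better than the edge `i`: larger rank, or equal rank and
smaller index -/
def bh (g : Gen G Δ) (r : ℕ → V → ℕ) (y : V) (k i : ℕ) : Prop :=
  r i (g.T i y) < r k (g.T k y) ∨ (r k (g.T k y) = r i (g.T i y) ∧ k < i)

/-- `m x = i + 1` if `x` is matched to `T i x`: a stable matching of the edges `(x, i)`,
`x ∈ L i` -/
structure Stb (g : Gen G Δ) (L : ℕ → Set V) (r : ℕ → V → ℕ) (m : V → ℕ) : Prop where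
  meas : Measurable m
  mem : ∀ x i, m x = i + 1 → x ∈ L i
  inj : ∀ y i k, m (g.T i y) = i + 1 → m (g.T k y) = k + 1 → i = k
  stable : ∀ x i, x ∈ L i → (∃ k, m x = k + 1 ∧ (k = i ∨ bt r x k i)) ∨
    ∃ k, m (g.T k (g.T i x)) = k + 1 ∧ bh g r (g.T i x) k i

end Pool.Agent.BGL
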