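import Pool.Agent.BGL.Targets

set_option autoImplicit false

namespace Pool.Agent.BGL

open MeasureTheory Set Filter
open scoped ENNReal
open Pool.Agent.MEC

universe u

namespace STE_

variable {V : Type u} [MeasurableSpace V] {G : SimpleGraph V} {Δ : ℕ}

/-- the remaining candidates at `x` -/
def rem (g : Gen G Δ) (U : Set V) (E : ℕ → Set V) (x : V) : Set ℕ :=
  {i | x ∈ HH g U i ∧ x ∉ E i}

lemma rem_finite (h3 : tDEG.{u}) (g : Gen G Δ) (U : Set V) (E : ℕ → Set V) (x : V) :
    (rem g U E x).Finite :=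
  (h3 V G Δ g x).1.subset fun _ hi => hi.1.2

lemma into_sub (g : Gen G Δ) (U : Set V) (E : ℕ → Set V) (hE : ∀ i, E i ⊆ HH g U i) (y : V) :
    {i | g.T i y ∈ E i} ⊆ {i | g.T i y ≠ y} := by
  intro i hi
  have h := (hE i hi).2
  rw [g.invol] at h
  exact fun h' => h h'.symm

lemma into_finite (h3 : tDEG.{u}) (g : Gen G Δ) (U : Set V) (E : ℕ → Set V)
    (hE : ∀ i, E i ⊆ HH g U i) (y : V) : {i | g.T i y ∈ E i}.Finite :=
  (h3 V G Δ g y).1.subset (into_sub g U E hE y)

lemma arith (s D d n : ℕ) (hs : 1 ≤ s) (hd : d ≤ D - (s + 1)) (hsD : s + 1 ≤ D)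
    (hn : n + d ≤ D - 1) : n ≤ s * (D - s - d) := by
  obtain ⟨a, rfl⟩ : ∃ a, s = a + 1 := ⟨s - 1, by omega⟩
  obtain ⟨b, hb⟩ : ∃ b, D - (a + 1) - d = b + 1 := ⟨D - (a + 1) - d - 1, by omega⟩
  rw [hb]
  have : n ≤ a + b + 1 := by omega
  nlinarith [Nat.zero_le (a * b)]

/-- the assignment problem -/
noncomputable def prob [StandardBorelSpace V] (h2 : tCNT.{u}) (h3 : tDEG.{u}) (g : Gen G Δ) (U : Set V) (s : ℕ)
    (E : ℕ → Set V) (hOK : OK g U) (hs : 1 ≤ s) (hsD : s + 1 ≤ Δ)
    (hm : ∀ i, MeasurableSet (E i)) (hE : ∀ i, E i ⊆ HH g U i)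
    (hin : ∀ y, {i | g.T i y ∈ E i}.ncard ≤ Δ - (s + 1)) : APB g s where
  R := fun i => {x | (x ∈ HH g U i ∧ x ∉ E i) ∧ (rem g U E x).ncard = s + 1}
  cap := fun y => (Δ - s) - {i | g.T i y ∈ E i}.ncard
  mR := by
    have hHH : ∀ i, MeasurableSet (HH g U i) := fun i =>
      hOK.1.inter (measurableSet_eq_fun (g.meas i) measurable_id).compl
    intro i
    refine ((hHH i).inter (hm i).compl).inter ?_
    have := h2 V (fun k => {x | x ∈ HH g U k ∧ x ∉ E k})
      (fun k => (hHH k).inter (hm k).compl) (fun x => rem_finite h3 g U E x)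
    exact this (measurableSet_singleton (s + 1))
  mcap := by
    have := h2 V (fun k => {y | g.T k y ∈ E k})
      (fun k => g.meas k (hm k)) (fun y => into_finite h3 g U E hE y)
    exact measurable_const.sub this
  mov := fun i x hx => hx.1.1.2
  out := by
    intro i x hx
    have : {k | x ∈ {x | (x ∈ HH g U k ∧ x ∉ E k) ∧ (rem g U E x).ncard = s + 1}} =
        rem g U E x := by
      ext k
      exact ⟨fun h => h.1, fun h => ⟨h, hx.2⟩⟩
    rw [this, hx.2]
  inn := by
    intro y
    set N : Set ℕ := {k | g.T k y ∈ {x | (x ∈ HH g U k ∧ x ∉ E k) ∧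
      (rem g U E x).ncard = s + 1}} with hN
    by_cases hne : N.Nonempty
    · obtain ⟨k, hk⟩ := hne
      have hk1 : g.T k y ∈ HH g U k := hk.1.1
      have hky : g.T k y ≠ y := by
        have h := hk1.2
        rw [g.invol] at h
        exact fun h' => h h'.symm
      have hyU : y ∉ U := by
        intro hy
        exact hOK.2.1 y hy (g.T k y) hk1.1 (g.adj k y hky)
      have hdeg := hOK.2.2 y hyU
      have hfin := (h3 V G Δ g y).1
      have hNs : N ⊆ {i | g.T i y ≠ y} := by
        intro i hi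
        have h := hi.1.1.2
        rw [g.invol] at h
        exact fun h' => h h'.symm
      have hdisj : Disjoint N {i | g.T i y ∈ E i} := by
        rw [Set.disjoint_left]
        intro i hi hi'
        exact hi.1.2 hi'
      have hsum : N.ncard + {i | g.T i y ∈ E i}.ncard ≤ {i | g.T i y ≠ y}.ncard := by
        rw [← Set.ncard_union_eq hdisj (hfin.subset hNs)
          (hfin.subset (into_sub g U E hE y))]
        exact Set.ncard_le_ncard (Set.union_subset hNs (into_sub g U E hE y)) hfin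
      exact arith s Δ _ _ hs (hin y) hsD (by omega)
    · rw [Set.not_nonempty_iff_eq_empty] at hne
      rw [hne]
      simp

end STE_

open STE_ in
theorem pSTE (h1 : tASG.{u}) (h2 : tCNT.{u}) (h3 : tDEG.{u}) : tSTE.{u} := by
  intro V _ _ G Δ g ν _ C U s E hQ hC hOK hs hsD hm hE hrem hin
  obtain ⟨c, hc⟩ := h1 V G Δ g s (prob h2 h3 g U s E hOK hs hsD hm hE hin) ν C hs hQ hC
  refine ⟨fun i => E i ∪ {x | c.a x = i + 1}, fun i => ?_, fun i => subset_union_left,
    fun i => ?_, ?_, fun y => ?_⟩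
  · exact (hm i).union (c.meas (measurableSet_singleton (i + 1)))
  · refine union_subset (hE i) ?_
    intro x hx
    exact (c.mem x i hx).1.1
  · have hc' : ∀ᵐ x ∂ν, x ∉ Una c := measure_eq_zero_iff_ae_notMem.1 hc
    filter_upwards [hrem, hc'] with x hx hx'
    have hsub : {i | x ∈ HH g U i ∧ x ∉ E i ∪ {x | c.a x = i + 1}} ⊆ rem g U E x := by
      intro i hi
      exact ⟨hi.1, fun h => hi.2 (Or.inl h)⟩
    by_cases hlt : (rem g U E x).ncard ≤ s
    · exact (Set.ncard_le_ncard hsub (rem_finite h3 g U E x)).trans hlt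
    · have heq : (rem g U E x).ncard = s + 1 := le_antisymm hx (by omega)
      have hne : (rem g U E x).Nonempty := by
        rw [← Set.ncard_pos (rem_finite h3 g U E x)]
        omega
      obtain ⟨i, hi⟩ := hne
      have ha : c.a x ≠ 0 := by
        intro h0
        exact hx' ⟨⟨i, hi, heq⟩, h0⟩
      obtain ⟨j, hj⟩ := Nat.exists_eq_succ_of_ne_zero ha
      have hj' : c.a x = j + 1 := hj
      have hjr : j ∈ rem g U E x := (c.mem x j hj').1
      have hsub' : {i | x ∈ HH g U i ∧ x ∉ E i ∪ {x | c.a x = i + 1}} ⊆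
          rem g U E x \ {j} := by
        intro l hl
        refine ⟨hsub hl, ?_⟩
        rintro rfl
        exact hl.2 (Or.inr hj')
      have := Set.ncard_le_ncard hsub' ((rem_finite h3 g U E x).subset sdiff_subset)
      rw [Set.ncard_sdiff_singleton_of_mem hjr] at this
      omega
  · have hfin := into_finite h3 g U E hE y
    have hfin2 : {i | c.a (g.T i y) = i + 1}.Finite := by
      refine (h3 V G Δ g y).1.subset ?_
      intro i hi
      have h := (c.mem _ i hi).1.1.2
      rw [g.invol] at h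
      exact fun h' => h h'.symm
    have hU : {i | g.T i y ∈ E i ∪ {x | c.a x = i + 1}} =
        {i | g.T i y ∈ E i} ∪ {i | c.a (g.T i y) = i + 1} := rfl
    rw [hU]
    refine (Set.ncard_union_le _ _).trans ?_
    have hl : {i | c.a (g.T i y) = i + 1}.ncard ≤ (Δ - s) - {i | g.T i y ∈ E i}.ncard :=
      c.load y
    have := hin y
    omega

end Pool.Agent.BGL
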