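import Pool.Agent.BGL.Defs

set_option autoImplicit false

/-! MP_fff3e1_lc: exact targets.  Proofs: Blueprint.lean.txt. -/

namespace Pool.Agent.BGL

open MeasureTheory Set Filter
open scoped ENNReal
open Pool.Agent.MEC

universe u

/-! ### A. Tools -/

/-- A1 numbers of indices are measurable -/
def tCNT : Prop := ∀ (V : Type u) [MeasurableSpace V] (A : ℕ → Set V),
  (∀ i, MeasurableSet (A i)) → (∀ y, {i | y ∈ A i}.Finite) →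
  Measurable (fun y => {i | y ∈ A i}.ncard)

/-- A2 change of variables -/
def tCHV : Prop := ∀ (V : Type u) [MeasurableSpace V] (ν : Measure V) [IsFiniteMeasure ν]
    (φ : V ≃ᵐ V) (c : ℝ≥0∞) (f : V → ℝ≥0∞) (B : Set V),
  BddBy ν φ c → Measurable f → MeasurableSet B →
  ∫⁻ x in B, dens ν φ x * f (φ x) ∂ν = ∫⁻ x in φ '' B, f x ∂ν

/-- A3 the cost of a chain as a sum of measures -/
def tCST : Prop := ∀ (V : Type u) [MeasurableSpace V] [StandardBorelSpace V] (G : SimpleGraph V)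
    (Δ : ℕ) (g : Gen G Δ) (ν : Measure V) [IsFiniteMeasure ν] (C lam : ℝ≥0∞) (w : List (ℕ × ℕ))
    (e : Option ℕ) (B : Set V), QInv G ν C → MeasurableSet B →
  ∫⁻ x in B, wt ν g lam w e x ∂ν =
    lam * ∑ m ∈ Finset.range (w.length + 1), ν (pt g w m '' B) +
      if e = none then ν (pt g w w.length '' B) else 0

/-- A4 splitting into pieces with disjoint images -/
def tSPL : Prop := ∀ (V : Type u) [MeasurableSpace V] [StandardBorelSpace V] (n : ℕ)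
    (f : ℕ → V → V), (∀ m, Measurable (f m)) → ∃ Q : ℕ → Set V, (∀ j, MeasurableSet (Q j)) ∧
  (∀ x, (∀ m m', m < m' → m' ≤ n → f m x ≠ f m' x) → ∃ j, x ∈ Q j) ∧
  ∀ j m m', m < m' → m' ≤ n → Disjoint (f m '' Q j) (f m' '' Q j)

/-- A5 measurability -/
def tMEA : Prop := ∀ (V : Type u) [MeasurableSpace V] [StandardBorelSpace V] (G : SimpleGraph V)
    (Δ : ℕ) (g : Gen G Δ) (q : ℕ) (P : APB g q) (c : Asg P) (ν : Measure V) (lam : ℝ≥0∞),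
  MeasurableSet {y | Full c y} ∧
  (∀ w e, MeasurableSet {x | Adm c w e x} ∧ Measurable (wt ν g lam w e) ∧
    Measurable (val ν lam c w e)) ∧
  Measurable (jj ν lam c) ∧ (∀ i, MeasurableSet (Ai c i)) ∧ MeasurableSet (Una c)

/-- A6 degrees -/
def tDEG : Prop := ∀ (V : Type u) [MeasurableSpace V] (G : SimpleGraph V) (Δ : ℕ) (g : Gen G Δ)
    (x : V), {i | g.T i x ≠ x}.Finite ∧ {i | g.T i x ≠ x}.ncard ≤ Δ ∧
  (G.neighborSet x).encard = ({i | g.T i x ≠ x}.ncard : ℕ)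

/-! ### B. Improvement along chains -/

/-- B1 one step -/
def tSTP : Prop := ∀ (V : Type u) [MeasurableSpace V] [StandardBorelSpace V] (G : SimpleGraph V)
    (Δ : ℕ) (g : Gen G Δ) (q : ℕ) (P : APB g q) (c : Asg P) (B : Set V) (i : ℕ),
  MeasurableSet B → (∀ x ∈ B, c.a x = 0 ∧ x ∈ P.R i) →
  (∀ k, (∀ x ∈ B, c.a (g.T k (g.T i x)) = k + 1) → ∃ c' : Asg P, (∀ x ∈ B, c'.a x = i + 1) ∧
    (∀ x ∈ B, c'.a (g.T k (g.T i x)) = 0) ∧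
    (∀ x, x ∉ B → x ∉ (fun x => g.T k (g.T i x)) '' B → c'.a x = c.a x) ∧
    ∀ y, {l | c'.a (g.T l y) = l + 1}.ncard = {l | c.a (g.T l y) = l + 1}.ncard) ∧
  ((∀ x ∈ B, ¬ Full c (g.T i x)) → ∃ c' : Asg P, (∀ x ∈ B, c'.a x = i + 1) ∧
    ∀ x, x ∉ B → c'.a x = c.a x)

/-- B2 a chain of changes -/
def tMOD : Prop := ∀ (V : Type u) [MeasurableSpace V] [StandardBorelSpace V] (G : SimpleGraph V)
    (Δ : ℕ) (g : Gen G Δ) (q : ℕ) (P : APB g q) (w : List (ℕ × ℕ)) (e : Option ℕ) (c : Asg P)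
    (B : Set V), MeasurableSet B → (∀ x ∈ B, c.a x = 0 ∧ Adm c w e x) →
  (∀ m m', m < m' → m' ≤ w.length → Disjoint (pt g w m '' B) (pt g w m' '' B)) →
  ∃ c' : Asg P, (∀ x, (∀ m, m ≤ w.length → x ∉ pt g w m '' B) → c'.a x = c.a x) ∧
    ∀ m, m ≤ w.length → ∀ x ∈ pt g w m '' B, c'.a x = 0 → e = none ∧ m = w.length

/-- B3 cutting a loop out of a chain -/
def tSHO : Prop := ∀ (V : Type u) [MeasurableSpace V] [StandardBorelSpace V] (G : SimpleGraph V)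
    (Δ : ℕ) (g : Gen G Δ) (q : ℕ) (P : APB g q) (c : Asg P) (ν : Measure V) [IsFiniteMeasure ν]
    (C lam : ℝ≥0∞) (w : List (ℕ × ℕ)) (e : Option ℕ) (m m' : ℕ), QInv G ν C → m < m' →
  m' ≤ w.length → ∀ᵐ x ∂ν, pt g w m x = pt g w m' x →
    val ν lam c (w.take m ++ w.drop m') e x ≤ val ν lam c w e x

/-- B4 improvement on a piece -/
def tIMP : Prop := ∀ (V : Type u) [MeasurableSpace V] [StandardBorelSpace V] (G : SimpleGraph V)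
    (Δ : ℕ) (g : Gen G Δ) (q : ℕ) (P : APB g q) (c : Asg P) (ν : Measure V) [IsFiniteMeasure ν]
    (C : ℝ≥0∞) (lam : ℝ) (w : List (ℕ × ℕ)) (e : Option ℕ) (B : Set V), QInv G ν C → 0 ≤ lam →
  Opt ν lam c → MeasurableSet B → (∀ x ∈ B, x ∈ Una c ∧ Adm c w e x) →
  (∀ m m', m < m' → m' ≤ w.length → Disjoint (pt g w m '' B) (pt g w m' '' B)) →
  ν B ≤ ∫⁻ x in B, wt ν g (ENNReal.ofReal lam) w e x ∂ν

/-- B5 in an optimal assignment chains from unassigned tails are expensive -/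
def tONE : Prop := ∀ (V : Type u) [MeasurableSpace V] [StandardBorelSpace V] (G : SimpleGraph V)
    (Δ : ℕ) (g : Gen G Δ) (q : ℕ) (P : APB g q) (c : Asg P) (ν : Measure V) [IsFiniteMeasure ν]
    (C : ℝ≥0∞) (lam : ℝ) (w : List (ℕ × ℕ)) (e : Option ℕ), QInv G ν C → 0 ≤ lam →
  Opt ν lam c → ∀ᵐ x ∂ν, x ∈ Una c → 1 ≤ val ν (ENNReal.ofReal lam) c w e x

/-! ### C. The potential -/

/-- C1 properties of `jj` -/
def tJPR : Prop := ∀ (V : Type u) [MeasurableSpace V] [StandardBorelSpace V] (G : SimpleGraph V)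
    (Δ : ℕ) (g : Gen G Δ) (q : ℕ) (P : APB g q) (c : Asg P) (ν : Measure V) (lam : ℝ≥0∞),
  0 < lam → lam ≠ ⊤ →
  (∀ x, lam ≤ jj ν lam c x ∧ jj ν lam c x ≤ lam + 1) ∧
  (∀ x i, x ∈ P.R i → c.a x ≠ i + 1 → ¬ Full c (g.T i x) → jj ν lam c x ≤ lam) ∧
  ∀ x i k, x ∈ Ai c i → c.a (g.T k (g.T i x)) = k + 1 →
    jj ν lam c x ≤ lam + rho ν g i x * (rho ν g k (g.T i x) * jj ν lam c (g.T k (g.T i x)))

/-- C2 rows -/
def tROW : Prop := ∀ (V : Type u) [MeasurableSpace V] [StandardBorelSpace V] (G : SimpleGraph V)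
    (Δ : ℕ) (g : Gen G Δ) (q : ℕ) (P : APB g q) (c : Asg P) (ν : Measure V) [IsFiniteMeasure ν]
    (C lam : ℝ≥0∞) (p : ℝ), QInv G ν C → 0 < lam → lam ≠ ⊤ → 1 ≤ p →
  ∀ᵐ x ∂ν, lam < jj ν lam c x → (∃ i, x ∈ P.R i) →
    ((if c.a x = 0 then q + 1 else q : ℕ) : ℝ≥0∞) * (jj ν lam c x - lam) ^ p ≤
      (C ^ 2) ^ (p - 1) * FF ν c (fun z => jj ν lam c z ^ p) x

/-- C3 columns -/
def tCOL : Prop := ∀ (V : Type u) [MeasurableSpace V] [StandardBorelSpace V] (G : SimpleGraph V)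
    (Δ : ℕ) (g : Gen G Δ) (q : ℕ) (P : APB g q) (c : Asg P) (ν : Measure V) [IsFiniteMeasure ν]
    (C : ℝ≥0∞) (h : V → ℝ≥0∞), QInv G ν C → Measurable h → 1 ≤ q →
  ∫⁻ x, FF ν c h x ∂ν ≤ ((q - 1 : ℕ) : ℝ≥0∞) * ∫⁻ x in {x | c.a x ≠ 0}, h x ∂ν

/-- C4 few tails are unassigned -/
def tPOT : Prop := ∀ (q : ℕ) (C : ℝ≥0∞), 1 ≤ q → C ≠ ⊤ → ∃ p c1 : ℝ, 1 < p ∧ 0 < c1 ∧ c1 < 1 ∧
  ∀ (V : Type u) [MeasurableSpace V] [StandardBorelSpace V] (G : SimpleGraph V)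
    (Δ : ℕ) (g : Gen G Δ) (P : APB g q) (c : Asg P) (ν : Measure V) [IsFiniteMeasure ν]
    (lam : ℝ), QInv G ν C → 0 < lam → lam ≤ c1 → Opt ν lam c →
    ν.real (Una c) ≤ (lam / c1) ^ p * ν.real univ

/-! ### D. Assignments -/

/-- D1 Ekeland's principle and iteration, abstract version -/
def tEKA : Prop := ∀ (X : Type u) (Φ : X → ℝ) (d : X → X → ℝ), Nonempty X → (∀ x, 0 ≤ Φ x) →
  (∀ x y, 0 ≤ d x y) → (∀ x, d x x = 0) → (∀ x y, d x y = d y x) →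
  (∀ x y z, d x z ≤ d x y + d y z) → (∀ x y, Φ x ≤ Φ y + d x y) →
  (∀ c : ℕ → X, Summable (fun n => d (c n) (c (n + 1))) →
    ∃ l, ∀ n, d (c n) l ≤ ∑' m, d (c (n + m)) (c (n + m + 1))) →
  ∀ K p c1 : ℝ, 0 ≤ K → 1 < p → 0 < c1 →
  (∀ lam, 0 < lam → lam ≤ c1 → ∀ x, (∀ y, Φ x ≤ Φ y + lam * d x y) → Φ x ≤ K * lam ^ p) →
  ∃ x, Φ x = 0

/-- D2 limits of assignments -/
def tLIM : Prop := ∀ (V : Type u) [MeasurableSpace V] [StandardBorelSpace V] (G : SimpleGraph V)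
    (Δ : ℕ) (g : Gen G Δ) (q : ℕ) (P : APB g q) (ν : Measure V) [IsFiniteMeasure ν]
    (c : ℕ → Asg P), Summable (fun n => ν.real {x | (c n).a x ≠ (c (n + 1)).a x}) →
  ∃ l : Asg P, ∀ n, ν.real {x | (c n).a x ≠ l.a x} ≤
    ∑' m, ν.real {x | (c (n + m)).a x ≠ (c (n + m + 1)).a x}

/-- D3 assignments exist -/
def tASG : Prop := ∀ (V : Type u) [MeasurableSpace V] [StandardBorelSpace V] (G : SimpleGraph V)
    (Δ : ℕ) (g : Gen G Δ) (q : ℕ) (P : APB g q) (ν : Measure V) [IsFiniteMeasure ν] (C : ℝ≥0∞),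
  1 ≤ q → QInv G ν C → C ≠ ⊤ → ∃ c : Asg P, ν (Una c) = 0

/-! ### E. Ranks -/

/-- E1 one step of the nested construction -/
def tSTE : Prop := ∀ (V : Type u) [MeasurableSpace V] [StandardBorelSpace V] (G : SimpleGraph V)
    (Δ : ℕ) (g : Gen G Δ) (ν : Measure V) [IsFiniteMeasure ν] (C : ℝ≥0∞) (U : Set V) (s : ℕ)
    (E : ℕ → Set V), QInv G ν C → C ≠ ⊤ → OK g U → 1 ≤ s → s + 1 ≤ Δ →
  (∀ i, MeasurableSet (E i)) → (∀ i, E i ⊆ HH g U i) →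
  (∀ᵐ x ∂ν, {i | x ∈ HH g U i ∧ x ∉ E i}.ncard ≤ s + 1) →
  (∀ y, {i | g.T i y ∈ E i}.ncard ≤ Δ - (s + 1)) →
  ∃ E' : ℕ → Set V, (∀ i, MeasurableSet (E' i)) ∧ (∀ i, E i ⊆ E' i) ∧ (∀ i, E' i ⊆ HH g U i) ∧
    (∀ᵐ x ∂ν, {i | x ∈ HH g U i ∧ x ∉ E' i}.ncard ≤ s) ∧
    ∀ y, {i | g.T i y ∈ E' i}.ncard ≤ Δ - s

/-- E2 nested sets -/
def tNES : Prop := ∀ (V : Type u) [MeasurableSpace V] [StandardBorelSpace V] (G : SimpleGraph V)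
    (Δ : ℕ) (g : Gen G Δ) (ν : Measure V) [IsFiniteMeasure ν] (C : ℝ≥0∞) (U : Set V),
  QInv G ν C → C ≠ ⊤ → OK g U → ∃ E : ℕ → ℕ → Set V,
    (∀ s i, MeasurableSet (E s i)) ∧ (∀ s i, E s i ⊆ HH g U i) ∧
    (∀ s i, 1 ≤ s → E (s + 1) i ⊆ E s i) ∧
    (∀ᵐ x ∂ν, ∀ s, 1 ≤ s → s ≤ Δ → {i | x ∈ HH g U i ∧ x ∉ E s i}.ncard ≤ s) ∧
    ∀ y s, 1 ≤ s → s ≤ Δ → {i | g.T i y ∈ E s i}.ncard ≤ Δ - s

/-- E3 ranks -/
def tRNK : Prop := ∀ (V : Type u) [MeasurableSpace V] [StandardBorelSpace V] (G : SimpleGraph V)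
    (Δ : ℕ) (g : Gen G Δ) (ν : Measure V) [IsFiniteMeasure ν] (C : ℝ≥0∞) (U : Set V),
  QInv G ν C → C ≠ ⊤ → OK g U → ∃ r : ℕ → V → ℕ, (∀ i, Measurable (r i)) ∧
    (∀ᵐ x ∂ν, ∀ i, x ∈ HH g U i → {k | x ∈ HH g U k ∧ bt r x k i}.ncard ≤ r i x) ∧
    ∀ x i, x ∈ HH g U i →
      {k | g.T k (g.T i x) ∈ HH g U k ∧ bh g r (g.T i x) k i}.ncard + r i x < Δ

/-! ### F. Colouring -/

/-- F1 stable matchings -/
def tSTM : Prop := ∀ (V : Type u) [MeasurableSpace V] [StandardBorelSpace V] (G : SimpleGraph V)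
    (Δ : ℕ) (g : Gen G Δ) (L : ℕ → Set V) (r : ℕ → V → ℕ), (∀ i, MeasurableSet (L i)) →
  (∀ i x, x ∈ L i → g.T i x ≠ x) → (∀ i, Measurable (r i)) → ∃ m : V → ℕ, Stb g L r m

/-- F2 `Δ` rounds -/
def tGAL : Prop := ∀ (V : Type u) [MeasurableSpace V] [StandardBorelSpace V] (G : SimpleGraph V)
    (Δ : ℕ) (g : Gen G Δ) (H : ℕ → Set V) (r : ℕ → V → ℕ), (∀ i, MeasurableSet (H i)) →
  (∀ i x, x ∈ H i → g.T i x ≠ x) → (∀ i, Measurable (r i)) → ∃ m : ℕ → V → ℕ,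
    (∀ t, Measurable (m t)) ∧ (∀ t x i, m t x = i + 1 → x ∈ H i) ∧
    (∀ t y i k, m t (g.T i y) = i + 1 → m t (g.T k y) = k + 1 → i = k) ∧
    (∀ t t' x i, m t x = i + 1 → m t' x = i + 1 → t = t') ∧
    ∀ x i, x ∈ H i → {k | x ∈ H k ∧ bt r x k i}.ncard +
      {k | g.T k (g.T i x) ∈ H k ∧ bh g r (g.T i x) k i}.ncard < Δ → ∃ t < Δ, m t x = i + 1

/-- F3 the colouring of the edges at `U` -/
def tPCO : Prop := ∀ (V : Type u) [MeasurableSpace V] [StandardBorelSpace V] (G : SimpleGraph V)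
    (Δ : ℕ) (g : Gen G Δ) (U : Set V) (m : ℕ → V → ℕ), OK g U → (∀ t, Measurable (m t)) →
  (∀ t x i, m t x = i + 1 → x ∈ HH g U i) →
  (∀ t y i k, m t (g.T i y) = i + 1 → m t (g.T k y) = k + 1 → i = k) →
  (∀ t t' x i, m t x = i + 1 → m t' x = i + 1 → t = t') →
  ∃ c : PCol G Δ, ∀ (t : Fin Δ) x i, m t x = i + 1 → c.S t x = g.T i x

/-- F4 greedy extension -/
def tGRD : Prop := ∀ (V : Type u) [MeasurableSpace V] [StandardBorelSpace V] (G : SimpleGraph V)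
    (Δ : ℕ) (g : Gen G Δ) (W : Set V), MeasurableSet W →
  (∀ x ∈ W, ∀ y ∈ W, G.Adj x y →
    {i | g.T i x ≠ x}.ncard + {i | g.T i y ≠ y}.ncard ≤ Δ + 1) →
  ∀ c0 : PCol G Δ, ∃ c : PCol G Δ, (∀ k x, c0.S k x ≠ x → c.S k x = c0.S k x) ∧
    ∀ x ∈ W, ∀ y ∈ W, G.Adj x y → ∃ k, c.S k x = y

/-- F5 the colouring -/
def tFIN : Prop := ∀ (V : Type u) [MeasurableSpace V] [StandardBorelSpace V] (G : SimpleGraph V)
    (Δ : ℕ) (U : Set V) (μ : Measure V) [IsFiniteMeasure μ],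
  MeasurableSet {p : V × V | G.Adj p.1 p.2} → (∀ x, (G.neighborSet x).encard ≤ Δ) →
  MeasurableSet U → (∀ x ∈ U, ∀ y ∈ U, ¬ G.Adj x y) →
  (∀ x ∉ U, (G.neighborSet x).encard < Δ) →
  (∀ x ∉ U, ∀ y ∉ U, G.Adj x y →
    (G.neighborSet x).encard + (G.neighborSet y).encard ≤ Δ + 1) →
  ∃ c : PCol G Δ, ∀ᵐ x ∂μ, ∀ y, G.Adj x y → ∃ k, c.S k x = y

end Pool.Agent.BGL
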